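import Pool.Agent.P.MP_1672e2_an.Cx.Ent

set_option autoImplicit false

namespace Pool.Agent.P.MP_1672e2_an.Cx

section SkewPart

/-! Entropy of independent choices along a skeleton. -/


open MeasureTheory Set Filter Topology

lemma skew_ix (b : ℕ) : Measurable (ix b) :=
  (measurable_of_countable (fun n : ℕ => n % b)).comp
    (Nat.measurable_floor.comp (measurable_const.mul measurable_id))

lemma measurable_ix : Measurable fun p : ℕ × ℝ => ix p.1 p.2 :=
  measurable_from_prod_countable_right fun b => skew_ix b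

lemma ix_lt {b : ℕ} (hb : 0 < b) (a : ℝ) : ix b a < b := Nat.mod_lt _ hb

lemma PU_ix {b : ℕ} (hb : 0 < b) (i : ℕ) : PU.real {a | ix b a = i} ≤ 1 / b := by
  have hb' : (0 : ℝ) < b := by exact_mod_cast hb
  have hsub : {a | ix b a = i} ∩ Ico 0 1 ⊆ Ico ((i : ℝ) / b) ((i + 1) / b) := by
    rintro a ⟨ha, h0, h1⟩
    have h2 : (0 : ℝ) ≤ b * a := by positivity
    have h3 : ⌊(b : ℝ) * a⌋₊ < b := (Nat.floor_lt h2).2 (by nlinarith)
    have h4 : ⌊(b : ℝ) * a⌋₊ = i := by
      have : ix b a = i := ha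
      rwa [ix, Nat.mod_eq_of_lt h3] at this
    rw [Nat.floor_eq_iff h2] at h4
    exact ⟨by rw [div_le_iff₀ hb']; linarith [h4.1], by rw [lt_div_iff₀ hb']; linarith [h4.2]⟩
  have h5 : PU {a | ix b a = i} ≤ ENNReal.ofReal (1 / b) := by
    rw [PU, Measure.restrict_apply' measurableSet_Ico]
    refine (measure_mono hsub).trans ?_
    rw [Real.volume_Ico]
    exact le_of_eq (by congr 1; ring)
  exact ENNReal.toReal_le_of_le_ofReal (by positivity) h5

lemma skew_iter {A : Type*} (i : ℕ) (ω : ℤ → A) (t : ℤ) : (sh^[i] ω) t = ω (t + i) := by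
  induction i generalizing t with
  | zero => simp
  | succ i ih =>
    rw [Function.iterate_succ_apply']
    change (sh^[i] ω) (t + 1) = _
    rw [ih]
    congr 1
    push_cast
    ring

/-- A set on which the choices at times `0, …, n - 1` are fixed is small. -/
lemma skew_cyl {n : ℕ} {c : ℕ → ℕ} (hc : ∀ i, 0 < c i) {A : Set (ℤ → ℝ)}
    (hA : ∀ ω ∈ A, ∀ ω' ∈ A, ∀ i < n, ix (c i) (ω i) = ix (c i) (ω' i)) :
    PB.real A ≤ ∏ i ∈ Finset.range n, (1 / c i : ℝ) := by
  rcases A.eq_empty_or_nonempty with rfl | ⟨ω', h'⟩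
  · rw [measureReal_empty]
    exact Finset.prod_nonneg fun i _ => by positivity
  have hsub : A ⊆ Set.pi ((Finset.range n).map Nat.castEmbedding : Finset ℤ)
      fun z => ix (c z.toNat) ⁻¹' {ix (c z.toNat) (ω' z)} := by
    intro ω hω z hz
    obtain ⟨i, hi, rfl⟩ := Finset.mem_map.1 (Finset.mem_coe.1 hz)
    simpa using hA ω hω ω' h' i (Finset.mem_range.1 hi)
  refine (measureReal_mono hsub).trans ?_
  rw [Measure.real, PB, Measure.infinitePi_pi _ fun z _ => skew_ix _ (measurableSet_singleton _),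
    ENNReal.toReal_prod, Finset.prod_map]
  refine Finset.prod_le_prod (fun i _ => ENNReal.toReal_nonneg) fun i _ => ?_
  exact PU_ix (hc i) (ix (c i) (ω' i))

/-- Entropy of a law with small atoms. -/
lemma skew_ent {W : Type*} [Fintype W] {p : W → ℝ} (h0 : ∀ w, 0 ≤ p w) (h1 : ∑ w, p w = 1)
    {β : ℝ} (hβ : ∀ w, p w ≤ β) : -Real.log β ≤ ∑ w, Real.negMulLog (p w) := by
  rw [← one_mul (-Real.log β), ← h1, Finset.sum_mul]
  refine Finset.sum_le_sum fun w _ => ?_
  rcases (h0 w).eq_or_lt with h | h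
  · simp [← h]
  · have := Real.log_le_log h (hβ w)
    rw [Real.negMulLog]
    nlinarith

lemma skew_abs {x : ℝ} (h0 : 0 ≤ x) (h1 : x ≤ 1) : |Real.negMulLog x| ≤ 1 := by
  rw [abs_of_nonneg (Real.negMulLog_nonneg h0 h1)]
  exact (Real.negMulLog_le_one_sub_self h0).trans (by linarith)

theorem skew {G : Type*} [MeasurableSpace G] {μ : Measure G} [IsProbabilityMeasure μ]
    {R : G → G} (h : Ergodic R μ) {π : G × (ℤ → ℝ) → Om} (hπ : Measurable π)
    (hc : ∀ g ω, π (R g, sh ω) = sh (π (g, ω))) {b : G → ℕ} (hb : Measurable b)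
    (hb0 : ∀ g, 0 < b g) {K : ℕ} (hK : ∀ g, b g ≤ K) {ι : Type} [Fintype ι] (Q : Om → ι)
    (hQ : ∀ i, MeasurableSet (Q ⁻¹' {i}))
    (hv : ∀ g ω ω', Q (π (g, ω)) = Q (π (g, ω')) → ix (b g) (ω 0) = ix (b g) (ω' 0)) :
    IsProbabilityMeasure ((μ.prod PB).map π) ∧ Ergodic sh ((μ.prod PB).map π) ∧
      Ent sh ((μ.prod PB).map π) (∫ g, Real.log (b g) ∂μ) := by
  have hs : Measurable (sh : Om → Om) := measurable_pi_lambda _ fun t => measurable_pi_apply _
  refine ⟨Measure.isProbabilityMeasure_map hπ.aemeasurable,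
    (hπ.measurePreserving _).ergodic_of_ergodic_semiconj (ergodic_prod h) hs
      fun x => hc x.1 x.2, Ent.of_fun Q hQ fun n _ => ?_⟩
  have hi : ∀ i g ω, π (R^[i] g, sh^[i] ω) = sh^[i] (π (g, ω)) := by
    intro i g ω
    induction i with
    | zero => rfl
    | succ i ih => simp only [Function.iterate_succ_apply', hc, ih]
  set A : (Fin n → ι) → Set Om := fun w => {x | ∀ i : Fin n, Q (sh^[(i : ℕ)] x) = w i} with hA
  have hAm : ∀ w, MeasurableSet (A w) := fun w => by
    simp only [hA, ofPred_forall]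
    exact MeasurableSet.iInter fun i => (hs.iterate i) (hQ (w i))
  set p : G → (Fin n → ι) → ℝ := fun g w => PB.real (Prod.mk g ⁻¹' (π ⁻¹' A w)) with hp
  have hpm : ∀ w, Measurable fun g => p g w := fun w =>
    (measurable_measure_prodMk_left (hπ (hAm w))).ennreal_toReal
  have hp0 : ∀ g w, 0 ≤ p g w := fun g w => measureReal_nonneg
  have hp1 : ∀ g w, p g w ≤ 1 := fun g w => measureReal_le_one
  have hpi : ∀ w, ((μ.prod PB).map π).real (A w) = ∫ g, p g w ∂μ := fun w => by
    rw [Measure.real, Measure.map_apply hπ (hAm w), Measure.prod_apply (hπ (hAm w)),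
      ← integral_toReal (measurable_measure_prodMk_left (hπ (hAm w))).aemeasurable
        (Eventually.of_forall fun g => measure_lt_top _ _)]
    rfl
  have hsum : ∀ g, ∑ w, p g w = 1 := fun g => by
    have e : ∀ w, Prod.mk g ⁻¹' (π ⁻¹' A w) =
        (fun ω (i : Fin n) => Q (sh^[(i : ℕ)] (π (g, ω)))) ⁻¹' {w} := fun w => by
      ext ω
      simp [hA, funext_iff]
    simp only [hp, e]
    rw [sum_measureReal_preimage_singleton _ fun w _ => e w ▸ measurable_prodMk_left (hπ (hAm w))]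
    simp
  have hle : ∀ g w, p g w ≤ ∏ i ∈ Finset.range n, (1 / b (R^[i] g) : ℝ) := fun g w => by
    refine skew_cyl (c := fun i => b (R^[i] g)) (fun i => hb0 _) fun ω hω ω' hω' i hin => ?_
    have := hv (R^[i] g) (sh^[i] ω) (sh^[i] ω') (by
      rw [hi, hi]; exact (hω ⟨i, hin⟩).trans (hω' ⟨i, hin⟩).symm)
    simpa only [skew_iter, zero_add] using this
  have hlm : Measurable fun g => Real.log (b g) :=
    (measurable_of_countable fun k : ℕ => Real.log k).comp hb
  have hlK : ∀ g, |Real.log (b g)| ≤ K := fun g => by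
    have h1 : (1 : ℝ) ≤ b g := by exact_mod_cast hb0 g
    have h2 : (b g : ℝ) ≤ K := by exact_mod_cast hK g
    rw [abs_of_nonneg (Real.log_nonneg h1)]
    linarith [Real.log_le_sub_one_of_pos (show (0 : ℝ) < b g by linarith)]
  have hI : ∀ i : ℕ, Integrable (fun g => Real.log (b (R^[i] g))) μ := fun i =>
    integrable_of_abs_le (hlm.comp (h.measurable.iterate i)) fun g => hlK _
  have hJ : ∀ w, Integrable (fun g => Real.negMulLog (p g w)) μ := fun w =>
    integrable_of_abs_le (Real.continuous_negMulLog.measurable.comp (hpm w))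
      fun g => skew_abs (hp0 g w) (hp1 g w)
  calc (∫ g, Real.log (b g) ∂μ) * n
      = ∑ i ∈ Finset.range n, ∫ g, Real.log (b (R^[i] g)) ∂μ := by
        rw [Finset.sum_congr rfl fun i _ =>
          integral_comp_mp (h.toMeasurePreserving.iterate i) hlm]
        simp [mul_comm]
    _ = ∫ g, ∑ i ∈ Finset.range n, Real.log (b (R^[i] g)) ∂μ :=
        (integral_finsetSum _ fun i _ => hI i).symm
    _ ≤ ∫ g, ∑ w, Real.negMulLog (p g w) ∂μ := by
        refine integral_mono (integrable_finsetSum _ fun i _ => hI i)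
          (integrable_finsetSum _ fun w _ => hJ w) fun g => ?_
        refine le_trans (le_of_eq ?_) (skew_ent (hp0 g) (hsum g) (hle g))
        rw [Real.log_prod fun i _ => one_div_ne_zero (by exact_mod_cast (hb0 _).ne'),
          ← Finset.sum_neg_distrib]
        simp
    _ = ∑ w, ∫ g, Real.negMulLog (p g w) ∂μ := integral_finsetSum _ fun w _ => hJ w
    _ ≤ _ := by
        refine Finset.sum_le_sum fun w _ => ?_
        rw [hpi]
        exact Real.concaveOn_negMulLog.le_map_integral Real.continuous_negMulLog.continuousOn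
          isClosed_Ici (Eventually.of_forall fun g => hp0 g w)
          (integrable_of_abs_le (K := 1) (hpm w) fun g => by
            rw [abs_of_nonneg (hp0 g w)]; exact hp1 g w) (hJ w)

end SkewPart

section BlockPart

/-! An entropy bound bounds the number of loops. -/


open MeasureTheory Set Filter Topology

lemma block_erg (g : ℕ) [NeZero g] : ∃ μ : Measure (ZMod g), IsProbabilityMeasure μ ∧
    Ergodic (fun u => u + 1) μ ∧ ∀ u, μ.real {u} = 1 / g := by
  have hg : (g : ENNReal) ≠ 0 := Nat.cast_ne_zero.2 (NeZero.ne g)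
  refine ⟨(g : ENNReal)⁻¹ • Measure.count, ⟨?_⟩, ⟨?_, ⟨fun s _ hs => ?_⟩⟩, fun u => ?_⟩
  · simp [ENNReal.inv_mul_cancel hg]
  · exact (measurePreserving_add_right Measure.count 1).smul_measure _
  · rcases s.eq_empty_or_nonempty with rfl | ⟨u, hu⟩
    · exact eventuallyConst_set.2 (Or.inr (Eventually.of_forall fun _ => notMem_empty _))
    · have h1 : ∀ n : ℕ, u + n ∈ s := fun n => by
        induction n with
        | zero => simpa using hu
        | succ n ih =>
          rw [← hs] at ih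
          simpa [add_assoc] using ih
      have h2 : s = univ := eq_univ_of_forall fun v => by
        simpa using h1 (v - u).val
      rw [h2]
      exact eventuallyConst_set.2 (Or.inl (Eventually.of_forall mem_univ))
  · simp [Measure.real]

lemma block_val {g : ℕ} [NeZero g] (a : ZMod g) : (a + 1).val = (a.val + 1) % g := by
  rw [ZMod.val_add, ZMod.val_one_eq_one_mod, Nat.add_mod_mod]

lemma block_meas (b : ℕ) (t : ℤ) : Measurable fun ω : ℤ → ℝ => ix b (ω t) := by
  have h1 : Measurable fun ω : ℤ → ℝ => ((b, ω t) : ℕ × ℝ) :=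
    measurable_const.prodMk (measurable_pi_apply t)
  have h2 := measurable_ix.comp h1
  exact h2

theorem rate_of_bound {l : ℕ → ℕ} {h : ℝ} (H : ∀ ν : Measure Om, IsProbabilityMeasure ν →
    Ergodic sh ν → ν (LS l)ᶜ = 0 → ∀ c, Ent sh ν c → c ≤ h) : Rate l (Real.exp h) := by
  classical
  intro F
  by_contra hF
  obtain ⟨N, g, S, hN, hS, hcard⟩ := growth (Real.exp_pos h) (not_le.1 hF) 1
  have hc : 0 < S.card := by
    have : (0 : ℝ) < S.card := lt_trans (by positivity) hcard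
    exact_mod_cast this
  have hg : 0 < g := by
    obtain ⟨v, hv⟩ := Finset.card_pos.1 hc
    obtain ⟨h1, h2, h3, -⟩ := hS v hv
    have := h3.length_le
    omega
  have : NeZero g := ⟨hg.ne'⟩
  obtain ⟨μ, hμ, herg, hpt⟩ := block_erg g
  obtain ⟨wd, hw, hinj⟩ : ∃ wd : ℕ → List ℕ, (∀ i < S.card, wd i ∈ S) ∧
      ∀ i < S.card, ∀ j < S.card, wd i = wd j → i = j := by
    refine ⟨fun i => if h : i < S.card then (S.equivFin.symm ⟨i, h⟩ : List ℕ) else [],
      fun i hi => ?_, fun i hi j hj e => ?_⟩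
    · simp only [dif_pos hi]
      exact Finset.coe_mem _
    · simp only [dif_pos hi, dif_pos hj] at e
      exact Fin.mk.inj (S.equivFin.symm.injective (Subtype.ext e))
  have hm : ∀ a, wd (ix S.card a) ∈ S := fun a => hw _ (ix_lt hc a)
  obtain ⟨π, hπ⟩ : ∃ π : ZMod g × (ℤ → ℝ) → Om, π = fun p (t : ℤ) =>
      vtx l (wd (ix S.card (p.2 (t - (p.1 + (t : ZMod g)).val)))) (p.1 + (t : ZMod g)).val :=
    ⟨_, rfl⟩
  have hπm : Measurable π := by
    rw [hπ]
    refine measurable_pi_lambda _ fun t => measurable_from_prod_countable_right fun u => ?_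
    exact (measurable_of_countable fun i : ℕ => vtx l (wd i) (u + (t : ZMod g)).val).comp
      (block_meas S.card (t - (u + (t : ZMod g)).val))
  have hcomm : ∀ u ω, π (u + 1, sh ω) = sh (π (u, ω)) := fun u ω => by
    funext t
    simp only [hπ, sh_apply, Int.cast_add, Int.cast_one]
    rw [show u + 1 + (t : ZMod g) = u + (t + 1) by ring, sub_add_eq_add_sub]
  have hLS : ∀ p, π p ∈ LS l := fun p t => by
    obtain ⟨-, h2, h3, -⟩ := hS _ (hm (p.2 (t - (p.1 + (t : ZMod g)).val)))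
    have h4 := ZMod.val_lt (p.1 + (t : ZMod g))
    simp only [hπ, Int.cast_add, Int.cast_one]
    rw [← add_assoc, block_val]
    rcases lt_or_eq_of_le (Nat.succ_le_of_lt h4) with h5 | h5
    · rw [Nat.mod_eq_of_lt h5, Nat.cast_succ, add_sub_add_right_eq_sub]
      exact vtx_edge h3 (h2.symm ▸ h5)
    · rw [Nat.succ_eq_add_one] at h5
      rw [h5, Nat.mod_self]
      exact Or.inr ⟨vtx_last h3 (h5.trans h2.symm), vtx_zero (hS _ (hm _)).2.2.1⟩
  have hocc : ∀ ω, Occ l (π (0, ω)) 0 (wd (ix S.card (ω 0))) := fun ω => by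
    obtain ⟨-, h2, h3, -⟩ := hS _ (hm (ω 0))
    refine occ_of_vtx h3 (fun j hj => ?_) ?_
    · rw [h2] at hj
      simp only [hπ, zero_add, Int.cast_natCast, ZMod.val_cast_of_lt hj, sub_self]
    · rw [h2]
      simpa [hπ] using vtx_zero (hS _ (hm _)).2.2.1
  have hQ : Measurable fun (y : Om) (v : S) => Occ l y 0 v :=
    measurable_pi_lambda _ fun v => measurableSet_setOfPred.1 (measurableSet_occ 0 v)
  obtain ⟨a1, a2, a3⟩ := skew herg hπm hcomm (b := fun u => if u = 0 then S.card else 1)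
    (measurable_of_countable _) (fun u => by split_ifs <;> omega) (K := S.card)
    (fun u => by split_ifs <;> omega) (fun (y : Om) (v : S) => Occ l y 0 v)
    (fun i => hQ (measurableSet_singleton i)) fun u ω ω' e => by
      split_ifs with hu
      · subst hu
        have e1 : Occ l (π (0, ω')) 0 (wd (ix S.card (ω 0))) :=
          (congrFun e ⟨_, hm (ω 0)⟩).mp (hocc ω)
        exact hinj _ (ix_lt hc _) _ (ix_lt hc _) (Occ.unique (hLS _) e1 (hocc ω')
          ((hS _ (hm _)).2.1.trans (hS _ (hm _)).2.1.symm))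
      · simp only [ix, Nat.mod_one]
  have a4 := H _ a1 a2 (by
    rw [Measure.map_apply hπm measurableSet_LS.compl,
      eq_empty_of_forall_notMem (s := π ⁻¹' (LS l)ᶜ) fun p hp => hp (hLS p), measure_empty]) _ a3
  rw [integral_fintype .of_finite, Finset.sum_eq_single 0 (fun u _ hu => by simp [hu])
    (by simp), hpt, if_pos rfl, smul_eq_mul, one_div, ← div_eq_inv_mul,
    div_le_iff₀ (by exact_mod_cast hg), Real.log_le_iff_le_exp (by exact_mod_cast hc), mul_comm,
    Real.exp_nat_mul] at a4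
  linarith

end BlockPart

section ExcCPart

/-! Independent loops have few cyclic factors. -/


open MeasureTheory Set Filter Topology

lemma excc_list {l : ℕ → ℕ} {x : Om} (hx : x ∈ LS l) (m : ℕ) {t : ℤ} (ht : (x t).2 = 0) :
    ∃ u : List ℕ, u.length = m ∧ Occ l x t u := by
  induction m generalizing t with
  | zero => exact ⟨[], rfl, ht⟩
  | succ m ih =>
    have h1 : x t = ((x t).1, 0) := Prod.ext rfl ht
    obtain ⟨u, hu, h⟩ := ih (LS_next hx h1)
    exact ⟨(x t).1 :: u, by simp [hu], h1, h⟩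

lemma excc_win {l : ℕ → ℕ} {x : Om} (hx : x ∈ LS l) {k : ℕ} {t : ℤ} {u : List ℕ}
    (hu : u.length = 2 * k + 1) (h : Occ l x t u) :
    win (-k) (2 * k + 1) (zp sh (t + k) x) = fun i : Fin (2 * k + 1) => vtx l u i := by
  funext i
  have h1 := (h.pos hx).length_le
  have h2 := h.vtx hx (j := i) (by omega)
  rw [← h2]
  simp only [win, zp_sh]
  congr 1
  ring

lemma excc_iter {ν : Measure Om} (hν : MeasurePreserving sh ν ν) {p : ℕ} {φ : Om → ZMod p}
    (hφ : ∀ᵐ x ∂ν, φ (sh x) = φ x + 1) :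
    ∀ᵐ x ∂ν, ∀ n : ℕ, φ (zp sh n x) = φ x + n := by
  have h1 : ∀ᵐ x ∂ν, ∀ n : ℕ, φ (sh (zp sh n x)) = φ (zp sh n x) + 1 :=
    ae_all_iff.2 fun n =>
      (measurePreserving_zp measurable_sh_symm hν n).quasiMeasurePreserving.ae hφ
  filter_upwards [h1] with x hx n
  induction n with
  | zero => simp
  | succ n ih =>
    rw [Nat.cast_succ, zp_succ', hx n, ih]
    push_cast
    ring

/-- Looking at a set at the end of a list with a fixed number of loops does not increase its
measure. -/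
lemma excc_end {l : ℕ → ℕ} {ν : Measure Om} (hν : MeasurePreserving sh ν ν) (m : ℕ)
    {B : Set Om} (hB : MeasurableSet B) :
    ν (⋃ c : {c : List ℕ // c.length = m},
      {x | x ∈ LS l ∧ Occ l x 0 c.1 ∧ zp sh (len l c.1) x ∈ B}) ≤ ν B := by
  set E : {c : List ℕ // c.length = m} → Set Om :=
    fun c => LS l ∩ ({x | Occ l x (-(len l c.1 : ℤ)) c.1} ∩ B) with hE
  have hm : ∀ c, MeasurableSet (E c) := fun c =>
    measurableSet_LS.inter ((measurableSet_occ _ _).inter hB)
  have h1 : ∀ c : {c : List ℕ // c.length = m},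
      ν {x | x ∈ LS l ∧ Occ l x 0 c.1 ∧ zp sh (len l c.1) x ∈ B} = ν (E c) := by
    intro c
    rw [← (measurePreserving_zp measurable_sh_symm hν (len l c.1)).measure_preimage
      (hm c).nullMeasurableSet]
    congr 1
    ext x
    simp only [hE, mem_preimage, mem_inter_iff, mem_ofPred_eq, occ_zp, neg_add_cancel, LS_zp]
  have hd : Pairwise (Function.onFun Disjoint E) := by
    intro c c' hne
    refine Set.disjoint_left.2 fun x h h' => hne (Subtype.ext ?_)
    have h3 := Occ.suf_or h.1 h.2.1 h'.2.1 (by simp)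
    rcases h3 with h3 | h3
    · exact h3.eq_of_length (c.2.trans c'.2.symm)
    · exact (h3.eq_of_length (c'.2.trans c.2.symm)).symm
  refine (measure_iUnion_le _).trans ?_
  simp only [h1]
  rw [← measure_iUnion hd hm]
  exact measure_mono (iUnion_subset fun c x hx => hx.2.2)

/-- Pairs of lists with the wrong phase difference are rare. -/
lemma excc_pairs {l : ℕ → ℕ} {ν : Measure Om} (hν : MeasurePreserving sh ν ν)
    (hL : ν (LS l)ᶜ = 0) {p : ℕ} {φ : Om → ZMod p} (hφ : ∀ᵐ x ∂ν, φ (sh x) = φ x + 1) {k : ℕ}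
    (g : (Fin (2 * k + 1) → ℕ × ℕ) → ZMod p) (w : List ℕ) :
    ν {x | ∃ u v : List ℕ, u.length = 2 * k + 1 ∧ v.length = 2 * k + 1 ∧
      Occ l x 0 (u ++ w ++ v) ∧
      g (fun i => vtx l v i) ≠ g (fun i => vtx l u i) + (len l u + len l w : ℕ)} ≤
      2 * ν {y | φ y ≠ g (win (-k) (2 * k + 1) y)} := by
  set B := toMeasurable ν {y | φ y ≠ g (win (-k) (2 * k + 1) y)} with hBd
  have hB : MeasurableSet B := measurableSet_toMeasurable _ _
  have hk := measurePreserving_zp measurable_sh_symm hν k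
  have hB' : MeasurableSet (zp sh k ⁻¹' B) := hk.measurable hB
  have h1 : ν (zp sh k ⁻¹' B) = ν {y | φ y ≠ g (win (-k) (2 * k + 1) y)} := by
    rw [hk.measure_preimage hB.nullMeasurableSet, hBd, measure_toMeasurable]
  have h2 := excc_end (l := l) hν (2 * k + 1 + w.length) hB'
  have hLS : ∀ᵐ x ∂ν, x ∈ LS l := hL
  rw [← h1, two_mul (ν _)]
  refine le_trans (measure_mono_ae ?_) ((measure_union_le _ _).trans (add_le_add le_rfl h2))
  filter_upwards [hLS, excc_iter hν hφ] with x hx hit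
  rintro ⟨u, v, hu, hv, hocc, hne⟩
  by_contra hcon
  have hcon' := not_or.1 hcon
  obtain ⟨huw, hv'⟩ := occ_append.1 hocc
  have e1 : φ (zp sh (0 + k) x) = g (fun i => vtx l u i) := by
    rw [← excc_win hx hu (occ_append.1 huw).1]
    by_contra h
    refine hcon'.1 ?_
    rw [zero_add] at h
    exact subset_toMeasurable _ _ h
  have e2 : φ (zp sh (0 + len l (u ++ w) + k) x) = g (fun i => vtx l v i) := by
    rw [← excc_win hx hv hv']
    by_contra h
    refine hcon'.2 (mem_iUnion.2 ⟨⟨u ++ w, by simp [hu]⟩, hx, huw, ?_⟩)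
    refine subset_toMeasurable _ _ ?_
    rw [zero_add, add_comm, zp_add] at h
    exact h
  apply hne
  rw [← e1, ← e2, zero_add, zero_add, ← Nat.cast_add, hit, hit, len_append]
  push_cast
  ring

theorem exc_cyc {l : ℕ → ℕ} {lam₀ : ℝ} {ν : Measure Om} [IsProbabilityMeasure ν]
    (hν : MeasurePreserving sh ν ν) (hL : ν (LS l)ᶜ = 0) (h : Exc l lam₀ ν) :
    ∃ N : ℕ, ∀ p, N ≤ p → ¬ Cyc sh ν p := by
  have hs := start_ne_zero hν hL
  have hLS : ∀ᵐ x ∂ν, x ∈ LS l := hL
  obtain ⟨γ, hγ⟩ : ∃ γ, ν {x | x ∈ LS l ∧ Occ l x 0 [γ]} ≠ 0 := by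
    by_contra hc
    push Not at hc
    refine hs (measure_mono_null_ae ?_ (measure_iUnion_null hc))
    filter_upwards [hLS] with x hx hx0
    exact mem_iUnion.2 ⟨(x 0).1, hx, (occ_single hx).2 (Prod.ext rfl hx0)⟩
  have hγ0 : 0 < l γ := by
    obtain ⟨x, hx, hx'⟩ := nonempty_of_measure_ne_zero hγ
    exact (pos_cons.1 (hx'.pos hx)).1
  have hs' : 0 < ν.real {x | (x 0).2 = 0} := ENNReal.toReal_pos hs (measure_ne_top _ _)
  have hP : 0 < lam₀ ^ l γ := by
    have h1 := h [γ] (by simp [hγ0])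
    have h2 : 0 < ν.real {x | Occ l x 0 [γ]} :=
      ENNReal.toReal_pos (fun h0 => hγ (measure_mono_null (fun x hx => hx.2) h0))
        (measure_ne_top _ _)
    rw [h1] at h2
    simpa using inv_pos.1 (pos_of_mul_pos_left h2 hs'.le)
  set C : ℝ := lam₀ ^ l γ with hC
  have hscale : ∀ u v : List ℕ, Pos l u → Pos l v →
      ν {x | Occ l x 0 (u ++ v)} = ENNReal.ofReal C * ν {x | Occ l x 0 (u ++ [γ] ++ v)} := by
    intro u v hu hv
    have h1 := h (u ++ v) (by simp [hu, hv])
    have h2 := h (u ++ [γ] ++ v) (by simp [hu, hv, hγ0])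
    have h3 : ν.real {x | Occ l x 0 (u ++ v)} = C * ν.real {x | Occ l x 0 (u ++ [γ] ++ v)} := by
      rw [h1, h2, show len l (u ++ [γ] ++ v) = l γ + len l (u ++ v) by simp; omega, pow_add,
        mul_inv, ← hC, ← mul_assoc, ← mul_assoc, mul_inv_cancel₀ hP.ne', one_mul]
    rw [← ofReal_measureReal (μ := ν) (s := {x | Occ l x 0 (u ++ v)}), h3,
      ENNReal.ofReal_mul hP.le, ofReal_measureReal]
  refine ⟨l γ + 1, fun p hp ⟨φ, hφm, hφ⟩ => ?_⟩
  haveI : NeZero p := ⟨by omega⟩
  have hne : (l γ : ZMod p) ≠ 0 := by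
    rw [Ne, ZMod.natCast_eq_zero_iff]
    intro hd
    have := Nat.le_of_dvd hγ0 hd
    omega
  set s := ν.real {x | (x 0).2 = 0} with hsd
  obtain ⟨k, g, hg⟩ := approx_win (ν := ν) φ (fun i => hφm (MeasurableSet.singleton i))
    (ε := s / (4 * (1 + C))) (by positivity)
  set b := ν {y | φ y ≠ g (win (-k) (2 * k + 1) y)} with hb
  have h1 := excc_pairs hν hL hφ g []
  have h2 := excc_pairs hν hL hφ g [γ]
  rw [← hb] at h1 h2
  let I := {q : List ℕ × List ℕ // q.1.length = 2 * k + 1 ∧ q.2.length = 2 * k + 1 ∧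
    Pos l q.1 ∧ Pos l q.2 ∧
    g (fun i => vtx l q.2 i) ≠ g (fun i => vtx l q.1 i) + (len l q.1 + len l [γ] : ℕ)}
  have hd : Pairwise (Function.onFun Disjoint
      fun q : I => {x | Occ l x 0 (q.1.1 ++ [γ] ++ q.1.2)}) := by
    intro q q' hqq
    refine Set.disjoint_left.2 fun x hx hx' => hqq (Subtype.ext ?_)
    have hl : (q.1.1 ++ [γ] ++ q.1.2).length = (q'.1.1 ++ [γ] ++ q'.1.2).length := by
      simp [q.2.1, q.2.2.1, q'.2.1, q'.2.2.1]
    have he : q.1.1 ++ [γ] ++ q.1.2 = q'.1.1 ++ [γ] ++ q'.1.2 := by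
      rcases Occ.pre_or hx hx' with h3 | h3
      · exact h3.eq_of_length hl
      · exact (h3.eq_of_length hl.symm).symm
    obtain ⟨h4, h5⟩ := List.append_inj' he (q.2.2.1.trans q'.2.2.1.symm)
    exact Prod.ext (List.append_cancel_right h4) h5
  have h3 : ν (⋃ q : I, {x | Occ l x 0 (q.1.1 ++ q.1.2)}) ≤ ENNReal.ofReal C * (2 * b) := by
    refine (measure_iUnion_le _).trans ?_
    rw [tsum_congr fun q : I => hscale q.1.1 q.1.2 q.2.2.2.1 q.2.2.2.2.1, ENNReal.tsum_mul_left,
      ← measure_iUnion hd fun q => measurableSet_occ _ _]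
    gcongr
    refine le_trans (measure_mono (iUnion_subset fun q x hx => ?_)) h2
    exact ⟨q.1.1, q.1.2, q.2.1, q.2.2.1, hx, q.2.2.2.2.2⟩
  have h4 : ν {x | (x 0).2 = 0} ≤ 2 * b + ENNReal.ofReal C * (2 * b) := by
    refine le_trans (measure_mono_ae ?_) ((measure_union_le _ _).trans (add_le_add h1 h3))
    filter_upwards [hLS] with x hx hx0
    obtain ⟨u, hu, hou⟩ := excc_list hx (2 * k + 1) hx0
    obtain ⟨v, hv, hov⟩ := excc_list hx (2 * k + 1) hou.stop
    have huv : Occ l x 0 (u ++ v) := occ_append.2 ⟨hou, hov⟩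
    by_cases hc : g (fun i => vtx l v i) = g (fun i => vtx l u i) + (len l u + len l [] : ℕ)
    · refine Or.inr (mem_iUnion.2 ⟨⟨(u, v), hu, hv, hou.pos hx, hov.pos hx, ?_⟩, huv⟩)
      rw [hc]
      intro he
      apply hne
      have := add_left_cancel he
      simpa using this.symm
    · exact Or.inl ⟨u, v, hu, hv, by simpa using huv, hc⟩
  have hbt : b ≠ ⊤ := measure_ne_top _ _
  have h5 : s ≤ 2 * b.toReal + C * (2 * b.toReal) := by
    have := ENNReal.toReal_mono (by finiteness) h4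
    rw [ENNReal.toReal_add (by finiteness) (by finiteness)] at this
    simpa [ENNReal.toReal_ofReal hP.le, hsd, Measure.real] using this
  have h6 : b.toReal * (4 * (1 + C)) ≤ s := (le_div_iff₀ (by positivity)).1 hg
  nlinarith

end ExcCPart

section NoMkPart

/-! The obstruction. -/


open MeasureTheory Set Filter Topology

/-- The isomorphism of a model, as an embedding. -/
lemma nomk_emb {M : Type*} [MeasurableSpace M] {e : M ≃ M} {M' : Set M} {X' : Set (ℤ → ℕ)}
    (hM' : MeasurableSet M') (hinv : e ⁻¹' M' = M') (ψ : MeasurableEquiv M' X')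
    (hψ : ∀ a b : M', b.1 = e a.1 → (ψ b).1 = shift (ψ a).1) :
    ∃ α : M → ℤ → ℕ, Emb e sh M' α ∧ α '' M' = X' := by
  classical
  have hi : ∀ x, e x ∈ M' ↔ x ∈ M' := fun x => Set.ext_iff.1 hinv x
  refine ⟨fun z => if hz : z ∈ M' then (ψ ⟨z, hz⟩).1 else fun _ => 0, ⟨?_, hM', hi, ?_, ?_⟩, ?_⟩
  · exact Measurable.dite (f := fun a : M' => (ψ a).1)
      (g := fun _ : (M'ᶜ : Set M) => fun _ : ℤ => (0 : ℕ))
      (measurable_subtype_coe.comp ψ.measurable) measurable_const hM'
  · intro x hx y hy hxy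
    simp only [dif_pos hx, dif_pos hy] at hxy
    exact congrArg Subtype.val (ψ.injective (Subtype.ext hxy))
  · intro x hx
    simp only [dif_pos hx, dif_pos ((hi x).2 hx)]
    exact hψ ⟨x, hx⟩ ⟨e x, (hi x).2 hx⟩ rfl
  · ext y
    constructor
    · rintro ⟨x, hx, rfl⟩
      simp only [dif_pos hx]
      exact (ψ ⟨x, hx⟩).2
    · intro hy
      refine ⟨(ψ.symm ⟨y, hy⟩).1, (ψ.symm ⟨y, hy⟩).2, ?_⟩
      simp only [dif_pos (ψ.symm ⟨y, hy⟩).2, Subtype.coe_eta, MeasurableEquiv.apply_symm_apply]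

lemma nomk_Phi_anti {l : ℕ → ℕ} (F : Finset ℕ) {z z' : ℝ} (hz : 0 < z) (h : z ≤ z') :
    Phi l F z' ≤ Phi l F z :=
  Finset.sum_le_sum fun _ _ => inv_anti₀ (pow_pos hz _) (pow_le_pow_left₀ hz.le h _)

/-- A measure of maximal entropy with infinitely many periods excludes a Markov model. -/
theorem not_markov {M : Type*} [MeasurableSpace M] [StandardBorelSpace M] {e : M ≃ M}
    (he : Measurable e) {h : ℝ} (h0 : 0 < h) {μ : Measure M}
    [IsProbabilityMeasure μ] (hμ : Ergodic e μ) (h1 : ∀ c, c < h → Ent e μ c)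
    (h2 : ∀ N : ℕ, ∃ p, N ≤ p ∧ Cyc e μ p)
    (h3 : ∀ ν : Measure M, IsProbabilityMeasure ν → Ergodic e ν → ∀ c, Ent e ν c → c ≤ h) :
    ¬ MarkovModel e fun _ => True := by
  rintro ⟨G, M', X', hM', -, hinv, -, hXG, ⟨ψ, hψ⟩, hfull, hfullX⟩
  obtain ⟨α, hα, hαX⟩ := nomk_emb hM' hinv ψ hψ
  have hh : h / 2 < h := half_lt_self h0
  have hμM : μ M'ᶜ = 0 :=
    hfull μ inferInstance hμ (PE_iff.2 ⟨h / 2, half_pos h0, h1 _ hh⟩) trivial
  obtain ⟨ν, _, n1, n2, n3, n4⟩ := pushE hα measurable_sh hμ hμM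
  rw [hαX] at n2
  obtain ⟨l, π, hπ, hπG, hπν⟩ :=
    exists_loops G n1 (measure_mono_null (compl_subset_compl.2 hXG) n2)
  obtain ⟨ν₁, _, m1, m2, -, m3, m4⟩ := pullE hπ measurable_sh n1 hπν
  have hr : Rate l (Real.exp h) := by
    refine rate_of_bound fun ν' _ a1 a2 c hc => ?_
    by_cases hc0 : c ≤ 0
    · exact hc0.trans h0.le
    obtain ⟨μ', _, b1, b2, b3, -⟩ := pushE hπ measurable_sh a1 a2
    have b4 : μ' (Markov G)ᶜ = 0 :=
      measure_mono_null (compl_subset_compl.2 hπG.image_subset) b2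
    have b5 : μ' (Markov G) = 1 := by
      rw [measure_of_measure_compl_eq_zero b4, measure_univ]
    have b6 := hfullX μ' inferInstance b1 b5 (PE_iff.2 ⟨c, not_le.1 hc0, b3 c hc⟩)
    have b7 : μ' (α '' M')ᶜ = 0 := by
      rw [hαX]
      refine measure_mono_null (fun y hy => ?_) (measure_union_null b4 b6)
      by_cases hG : y ∈ Markov G
      · exact Or.inr ⟨hG, hy⟩
      · exact Or.inl hG
    obtain ⟨ν'', _, c1, -, -, c3, -⟩ := pullE hα he b1 b7
    exact h3 ν'' inferInstance c1 c (c3 c (b3 c hc))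
  obtain ⟨lam₀, S, -, hS, hd⟩ := dichotomy (Real.one_le_exp h0.le) hr
  have hPE : PE sh ν₁ := PE_iff.2 ⟨h / 2, half_pos h0, m3 _ (n3 _ (h1 _ hh))⟩
  rcases hd ν₁ inferInstance m1 m2 (PE.aper m1 hPE) with hx | ⟨p, hp, hpν⟩
  · obtain ⟨N, hN⟩ := exc_cyc m1.toMeasurePreserving m2 hx
    obtain ⟨p, hp, hc⟩ := h2 N
    exact hN p hp (m4 p (n4 p hc))
  · obtain ⟨q1, q2, -, q4, q5, q6, -⟩ := hS p hp
    obtain ⟨ν₂, _, d1, d2, -, d3, -⟩ := pullE q1 measurable_sh m1 hpν
    have d4 : ν₂ (LS p.1)ᶜ = 0 := measure_mono_null (compl_subset_compl.2 q2) d2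
    have d5 : h ≤ Real.log p.2.2.2.1 := le_of_forall_lt_imp_le_of_dense fun c hc =>
      ent_le_of_rate q4 q5 d1.toMeasurePreserving d4 (d3 c (m3 c (n3 c (h1 c hc))))
    have d6 : Real.exp h ≤ p.2.2.2.1 :=
      (Real.le_log_iff_exp_le (lt_of_lt_of_le one_pos q4)).1 d5
    exact absurd ((nomk_Phi_anti _ (Real.exp_pos h) d6).trans (hr _)) (not_le.2 q6)

end NoMkPart

end Pool.Agent.P.MP_1672e2_an.Cx
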