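import Pool.Agent.P.MP_1672e2_an.Cx.Fun
import Pool.Agent.P.MP_1672e2_an.Loops

set_option autoImplicit false

namespace Pool.Agent.P.MP_1672e2_an.Cx

section SkPart

/-! Combinatorics of the skeleton. -/


open MeasureTheory Set Filter Topology

lemma sk_zero (j : ℕ) : sk j 0 = some (j, j) := by
  cases j with
  | zero => rfl
  | succ j => rw [sk, if_pos rfl]

lemma sk_step {t P P' : ℕ} (h : t ∣ P) (h' : t ∣ P') (hlt : P < P') : P + t ≤ P' := by
  have := Nat.le_of_dvd (by omega) (Nat.dvd_sub h' h)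
  omega

lemma sk_none {j s : ℕ} (h0 : 0 < s) (h : s < m (j + 1) ∨ T (j + 1) < s + m (j + 1)) :
    sk (j + 1) s = none := by
  have h1 := m_le_T' j
  have h2 := m_pos (j + 1)
  rw [sk, if_neg (by omega)]
  split_ifs <;> first | rfl | omega

lemma sk_per {j P r : ℕ} (hd : T j ∣ P) (h1 : m (j + 1) ≤ P) (h2 : P + m (j + 1) < T (j + 1))
    (h0 : 0 < r) (hr : r < T j) : sk (j + 1) (P + r) = sk j r := by
  have h3 : P + m (j + 1) + T j ≤ T (j + 1) :=
    sk_step (dvd_add hd (T_dvd_m j)) (T_dvd_T (Nat.le_succ j)) h2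
  rw [sk, if_neg (by omega), if_neg (by omega), if_neg (by omega), if_pos (by omega)]
  obtain ⟨q, rfl⟩ := hd
  rw [Nat.mul_add_mod, Nat.mod_eq_of_lt hr]

lemma sk_grid {j P : ℕ} (hd : T j ∣ P) (h1 : m (j + 1) ≤ P) (h2 : P + m (j + 1) ≤ T (j + 1)) :
    sk (j + 1) P = some (if P = m (j + 1) then j + 1 else j,
      if P + m (j + 1) = T (j + 1) then j + 1 else j) := by
  have h3 := m_le_T' j
  have h4 := m_pos (j + 1)
  rw [sk, if_neg (by omega), if_neg (by omega)]
  by_cases ha : P = m (j + 1)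
  · rw [if_pos ha, if_pos ha, if_neg (by omega)]
  · rw [if_neg ha, if_neg ha]
    by_cases hb : P + m (j + 1) = T (j + 1)
    · rw [if_neg (by omega), if_pos (by omega), if_pos hb]
    · rw [if_pos (by omega), if_neg hb, Nat.mod_eq_zero_of_dvd hd, sk_zero]

lemma sk_cases {j s : ℕ} (h0 : 0 < s) :
    (s < m (j + 1) ∨ T (j + 1) < s + m (j + 1)) ∨
      (T j ∣ s ∧ m (j + 1) ≤ s ∧ s + m (j + 1) ≤ T (j + 1)) ∨
      ∃ P r, T j ∣ P ∧ m (j + 1) ≤ P ∧ P + m (j + 1) + T j ≤ T (j + 1) ∧ 0 < r ∧ r < T j ∧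
        s = P + r := by
  by_cases ha : s < m (j + 1) ∨ T (j + 1) < s + m (j + 1)
  · exact Or.inl ha
  right
  by_cases hb : T j ∣ s
  · exact Or.inl ⟨hb, by omega, by omega⟩
  right
  have e := Nat.div_add_mod s (T j)
  have hr : s % T j < T j := Nat.mod_lt _ (T_pos j)
  have hr0 : 0 < s % T j := Nat.pos_of_ne_zero fun h => hb (Nat.dvd_of_mod_eq_zero h)
  have hd : T j ∣ T j * (s / T j) := Dvd.intro _ rfl
  refine ⟨T j * (s / T j), s % T j, hd, ?_, ?_, hr0, hr, e.symm⟩
  · by_contra hc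
    have := sk_step hd (T_dvd_m j) (not_le.1 hc)
    omega
  · exact sk_step (dvd_add hd (T_dvd_m j)) (T_dvd_T (Nat.le_succ j)) (by omega)

lemma sk_symm {j s : ℕ} (h0 : 0 < s) (h : s < T j) : sk j (T j - s) = (sk j s).map Prod.swap := by
  induction j generalizing s with
  | zero => rw [T] at h; omega
  | succ j ih =>
    have hT := T_pos j
    have hU : T j ∣ T (j + 1) := T_dvd_T (Nat.le_succ j)
    rcases sk_cases (j := j) h0 with hc | ⟨hd, h1, h2⟩ | ⟨P, r, hd, h1, h2, hr0, hr, rfl⟩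
    · rw [sk_none h0 hc, sk_none (by omega) (by omega)]; rfl
    · rw [sk_grid hd h1 h2, sk_grid (Nat.dvd_sub hU hd) (by omega) (by omega)]
      simp only [Option.map_some, Prod.swap, Option.some.injEq, Prod.mk.injEq]
      constructor <;> split_ifs <;> omega
    · rw [sk_per hd h1 (by omega) hr0 hr, ← ih hr0 hr,
        show T (j + 1) - (P + r) = (T (j + 1) - (P + T j)) + (T j - r) by omega]
      exact sk_per (Nat.dvd_sub hU (dvd_add hd dvd_rfl)) (by omega) (by omega) (by omega)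
        (by omega)

lemma sk_right {j s i i' : ℕ} (h : s < T j) (e : sk j s = some (i, i')) :
    s + m i' ≤ T j ∧ (∀ r, 0 < r → r < m i' → sk j (s + r) = none) ∧
      (s + m i' < T j → sk j (s + m i') ≠ none) := by
  induction j generalizing s i i' with
  | zero =>
    rw [T] at h ⊢
    rw [sk] at e
    obtain ⟨rfl, rfl⟩ := Prod.mk.inj (Option.some.inj e)
    rw [m]
    exact ⟨by omega, fun r h1 h2 => by omega, fun h1 => by omega⟩
  | succ j ih =>
    have hT := T_pos j
    have h8 := m_le_T' j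
    have hm := m_pos (j + 1)
    have hU : T j ∣ T (j + 1) := T_dvd_T (Nat.le_succ j)
    have key : ∀ P r a a', T j ∣ P → m (j + 1) ≤ P → P + m (j + 1) + T j ≤ T (j + 1) → r < T j →
        sk j r = some (a, a') → P + r + m a' ≤ T (j + 1) ∧
          (∀ r', 0 < r' → r' < m a' → sk (j + 1) (P + r + r') = none) ∧
          (P + r + m a' < T (j + 1) → sk (j + 1) (P + r + m a') ≠ none) := by
      intro P r a a' hd h1 h2 hr e'
      obtain ⟨i1, i2, i3⟩ := ih hr e'
      have hp := m_pos a'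
      refine ⟨by omega, fun r' h3 h4 => ?_, fun _ => ?_⟩
      · rw [add_assoc, sk_per hd h1 (by omega) (by omega) (by omega)]
        exact i2 r' h3 h4
      · rcases i1.lt_or_eq with h5 | h5
        · rw [add_assoc, sk_per hd h1 (by omega) (by omega) h5]
          exact i3 h5
        · rw [add_assoc, h5, sk_grid (dvd_add hd dvd_rfl) (by omega) (by omega)]
          exact Option.some_ne_none _
    rcases Nat.eq_zero_or_pos s with rfl | h0
    · rw [sk_zero] at e
      obtain ⟨rfl, rfl⟩ := Prod.mk.inj (Option.some.inj e)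
      refine ⟨by omega, fun r h1 h2 => sk_none (by omega) (by omega), fun _ => ?_⟩
      rw [zero_add, sk_grid (T_dvd_m j) le_rfl (by omega)]
      exact Option.some_ne_none _
    rcases sk_cases (j := j) h0 with hc | ⟨hd, h1, h2⟩ | ⟨P, r, hd, h1, h2, hr0, hr, rfl⟩
    · rw [sk_none h0 hc] at e; cases e
    · rw [sk_grid hd h1 h2] at e
      obtain ⟨-, e2⟩ := Prod.mk.inj (Option.some.inj e)
      by_cases hb : s + m (j + 1) = T (j + 1)
      · rw [if_pos hb] at e2
        subst e2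
        exact ⟨h2, fun r h3 h4 => sk_none (by omega) (by omega), fun h3 => by omega⟩
      · rw [if_neg hb] at e2
        subst e2
        exact key s 0 j j hd h1 (sk_step (dvd_add hd (T_dvd_m j)) hU (by omega)) hT (sk_zero j)
    · rw [sk_per hd h1 (by omega) hr0 hr] at e
      exact key P r i i' hd h1 h2 hr e

lemma sk_left {j s i i' : ℕ} (h0 : 0 < s) (h : s < T j) (e : sk j s = some (i, i')) :
    m i ≤ s ∧ (∀ r, 0 < r → r < m i → sk j (s - r) = none) ∧ sk j (s - m i) ≠ none := by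
  have e' : sk j (T j - s) = some (i', i) := by rw [sk_symm h0 h, e]; rfl
  obtain ⟨i1, i2, i3⟩ := sk_right (by omega) e'
  refine ⟨by omega, fun r h1 h2 => ?_, ?_⟩
  · rw [show s - r = T j - (T j - s + r) by omega, sk_symm (by omega) (by omega), i2 r h1 h2]
    rfl
  · rcases i1.lt_or_eq with h5 | h5
    · rw [show s - m i = T j - (T j - s + m i) by omega, sk_symm (by omega) h5]
      intro hc
      exact i3 h5 (Option.map_eq_none_iff.1 hc)
    · rw [show s - m i = 0 by omega, sk_zero]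
      exact Option.some_ne_none _

lemma sk_level {j s i i' : ℕ} (h0 : 0 < s) (h : s < T j) (e : sk j s = some (i, i')) :
    min i i' < j ∧ (i = i' ∨ i = i' + 1 ∨ i' = i + 1) := by
  induction j generalizing s i i' with
  | zero => rw [T] at h; omega
  | succ j ih =>
    have hT := T_pos j
    have h8 := m_le_T' j
    have hm := m_pos (j + 1)
    rcases sk_cases (j := j) h0 with hc | ⟨hd, h1, h2⟩ | ⟨P, r, hd, h1, h2, hr0, hr, rfl⟩
    · rw [sk_none h0 hc] at e; cases e
    · rw [sk_grid hd h1 h2] at e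
      obtain ⟨e1, e2⟩ := Prod.mk.inj (Option.some.inj e)
      split_ifs at e1 e2 <;> omega
    · rw [sk_per hd h1 (by omega) hr0 hr] at e
      have := ih hr0 hr e
      omega

lemma sk_sub_right {j s i : ℕ} (h0 : 0 < s) (h : s < T j) (e : sk j s = some (i, i)) :
    s + T i < T j ∧ (∀ r, 0 < r → r < T i → sk j (s + r) = sk i r) ∧
      ∃ i', i ≤ i' ∧ sk j (s + T i) = some (i, i') := by
  induction j generalizing s with
  | zero => rw [T] at h; omega
  | succ j ih =>
    have hT := T_pos j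
    have h8 := m_le_T' j
    have hm := m_pos (j + 1)
    have hU : T j ∣ T (j + 1) := T_dvd_T (Nat.le_succ j)
    rcases sk_cases (j := j) h0 with hc | ⟨hd, h1, h2⟩ | ⟨P, r, hd, h1, h2, hr0, hr, rfl⟩
    · rw [sk_none h0 hc] at e; cases e
    · rw [sk_grid hd h1 h2] at e
      obtain ⟨e1, e2⟩ := Prod.mk.inj (Option.some.inj e)
      have h3 : i = j ∧ s + m (j + 1) < T (j + 1) := by split_ifs at e1 e2 <;> omega
      obtain ⟨rfl, h3⟩ := h3
      have h4 := sk_step (dvd_add hd (T_dvd_m i)) hU h3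
      refine ⟨by omega, fun r h5 h6 => sk_per hd h1 h3 h5 h6, ?_⟩
      rw [sk_grid (dvd_add hd dvd_rfl) (by omega) (by omega), if_neg (by omega)]
      exact ⟨_, by split_ifs <;> omega, rfl⟩
    · rw [sk_per hd h1 (by omega) hr0 hr] at e
      obtain ⟨i1, i2, i', i3, i4⟩ := ih hr0 hr e
      refine ⟨by omega, fun r' h5 h6 => ?_, i', i3, ?_⟩
      · rw [add_assoc, sk_per hd h1 (by omega) (by omega) (by omega)]
        exact i2 r' h5 h6
      · rw [add_assoc, sk_per hd h1 (by omega) (by omega) i1]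
        exact i4

lemma sk_sub_left {j s i : ℕ} (h0 : 0 < s) (h : s < T j) (e : sk j s = some (i, i)) :
    T i < s ∧ (∀ r, 0 < r → r < T i → sk j (s - r) = (sk i r).map Prod.swap) ∧
      ∃ i', i ≤ i' ∧ sk j (s - T i) = some (i', i) := by
  have e' : sk j (T j - s) = some (i, i) := by rw [sk_symm h0 h, e]; rfl
  obtain ⟨i1, i2, i', i3, i4⟩ := sk_sub_right (by omega) (by omega) e'
  refine ⟨by omega, fun r h1 h2 => ?_, i', i3, ?_⟩
  · rw [show s - r = T j - (T j - s + r) by omega, sk_symm (by omega) (by omega), i2 r h1 h2]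
  · rw [show s - T i = T j - (T j - s + T i) by omega, sk_symm (by omega) i1, i4]
    rfl

lemma sk_phase {j s i i' : ℕ} (h : s < T j) (e : sk j s = some (i, i')) : T (min i i') ∣ s := by
  induction j generalizing s i i' with
  | zero =>
    rw [T] at h
    rw [show s = 0 by omega]
    exact dvd_zero _
  | succ j ih =>
    have hT := T_pos j
    have h8 := m_le_T' j
    have hm := m_pos (j + 1)
    rcases Nat.eq_zero_or_pos s with rfl | h0
    · exact dvd_zero _
    rcases sk_cases (j := j) h0 with hc | ⟨hd, h1, h2⟩ | ⟨P, r, hd, h1, h2, hr0, hr, rfl⟩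
    · rw [sk_none h0 hc] at e; cases e
    · exact (T_dvd_T (Nat.lt_succ_iff.1 (sk_level h0 h e).1)).trans hd
    · have h3 := Nat.lt_succ_iff.1 (sk_level h0 h e).1
      rw [sk_per hd h1 (by omega) hr0 hr] at e
      exact dvd_add ((T_dvd_T h3).trans hd) (ih hr e)

/-- A time of type `none` lies in a gap. -/
lemma sk_gap {j s : ℕ} (h : s < T j) (e : sk j s = none) :
    ∃ s₀ i i', sk j s₀ = some (i, i') ∧ s₀ < s ∧ s < s₀ + m i' := by
  classical
  have h1 : sk j (Nat.findGreatest (fun u => sk j u ≠ none) s) ≠ none :=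
    Nat.findGreatest_spec (P := fun u => sk j u ≠ none) (Nat.zero_le s)
      (by rw [sk_zero]; exact Option.some_ne_none _)
  have h2 := Nat.findGreatest_le (P := fun u => sk j u ≠ none) s
  have h3 : ∀ u, Nat.findGreatest (fun u => sk j u ≠ none) s < u → u ≤ s → ¬ sk j u ≠ none :=
    fun u h4 h5 => Nat.findGreatest_is_greatest h4 h5
  generalize Nat.findGreatest (fun u => sk j u ≠ none) s = s₀ at h1 h2 h3
  obtain ⟨⟨i, i'⟩, e'⟩ := Option.ne_none_iff_exists'.1 h1
  obtain ⟨-, -, i3⟩ := sk_right (by omega) e'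
  have hp := m_pos i'
  refine ⟨s₀, i, i', e', lt_of_le_of_ne h2 fun hc => h1 (hc ▸ e), ?_⟩
  by_contra hc
  exact h3 _ (by omega) (not_lt.1 hc) (i3 (by omega))

lemma bt_swap (a : Ty) : bt (a.map Prod.swap) = bt a := by
  rcases a with _ | ⟨i, i'⟩
  · rfl
  · simp only [Option.map_some, Prod.swap, bt]
    by_cases h : i = i'
    · subst h; rfl
    · rw [if_neg h, if_neg (Ne.symm h)]

lemma sl_swap (a : Ty) : sl (a.map Prod.swap) = sl a := by
  rcases a with _ | ⟨i, i'⟩
  · rfl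
  · simp only [Option.map_some, Prod.swap, sl, min_comm i' i]

lemma ic_swap (a : Ty) (n : ℕ) : ic (a.map Prod.swap) n = ic a n := by
  rcases a with _ | ⟨i, i'⟩
  · rfl
  · simp only [Option.map_some, Prod.swap, ic, min_comm i' i]

lemma code_swap {a : Ty} {n : ℕ} (h : n < 2 ^ bt a) : code (a.map Prod.swap) n = code a n := by
  rcases a with _ | ⟨i, i'⟩
  · rfl
  · simp only [Option.map_some, Prod.swap, code]
    by_cases h1 : i = i'
    · subst h1; rfl
    · simp only [bt, if_neg h1, pow_zero] at h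
      rw [if_pos (by omega), if_pos (by omega)]

lemma code_inj {a : Ty} {n n' : ℕ} (h : n < 2 ^ bt a) (h' : n' < 2 ^ bt a)
    (e : code a n = code a n') : n = n' := by
  rcases a with _ | ⟨i, i'⟩
  · simp only [bt, pow_zero] at h h'
    omega
  · simp only [code] at e
    split_ifs at e <;> simp only [Prod.mk.injEq] at e <;> omega

lemma code_eq_zero {a : Ty} {n : ℕ} : code a n = (0, 0) ↔ a = none := by
  rcases a with _ | ⟨i, i'⟩
  · simp [code]
  · simp only [code]
    split_ifs <;> simp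

lemma code_level {j s n : ℕ} (h0 : 0 < s) (h : s < T j) (hn : n < 2 ^ bt (sk j s)) :
    (code (sk j s) n).1 ≤ j := by
  rcases e : sk j s with _ | ⟨i, i'⟩
  · exact Nat.zero_le _
  · have h1 := (sk_level h0 h e).1
    rw [e] at hn
    simp only [code]
    split_ifs with h2
    · show 1 ≤ j
      omega
    · show i + 1 ≤ j
      by_cases h3 : i = i'
      · omega
      · simp only [bt, if_neg h3, pow_zero] at hn
        omega

lemma Adm.rev {j : ℕ} {c : ℕ → ℕ} (h : Adm j c) : Adm j fun s => c (T j - s) := by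
  intro s h0 h1
  have := h (T j - s) (by omega) (by omega)
  rwa [sk_symm h0 h1, bt_swap] at this

end SkPart

section FnumPart

/-! The entropies of the levels. -/


open MeasureTheory Set Filter Topology

lemma fnum_period (g : ℕ → ℕ) (t k : ℕ) :
    ∑ r ∈ Finset.range (k * t), g (r % t) = k * ∑ r ∈ Finset.range t, g r := by
  induction k with
  | zero => simp
  | succ k ih =>
    rw [Nat.succ_mul, Finset.sum_range_add, ih, Nat.succ_mul]
    congr 1
    refine Finset.sum_congr rfl fun r hr => ?_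
    rw [Finset.mem_range] at hr
    rw [Nat.mul_add_mod_of_lt hr]

lemma fnum_point (j s : ℕ) :
    bt (sk (j + 1) s) + (if s = m (j + 1) then be j else 0) =
      (if s = 0 then be (j + 1) else 0) +
        if s ∈ Finset.Ico (m (j + 1)) (T (j + 1) - m (j + 1)) then bt (sk j (s % T j)) else 0 := by
  have h1 := m_pos (j + 1)
  have h2 := m_le_T' j
  have h3 : m (j + 1) % T j = 0 := Nat.mod_eq_zero_of_dvd (T_dvd_m j)
  have hb : ∀ i, bt (some (i, i)) = be i := fun i => by simp [bt]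
  have hb1 : bt (some (j + 1, j)) = 0 := by simp [bt]
  have hb2 : bt (some (j, j + 1)) = 0 := by simp [bt]
  have hb0 : bt none = 0 := rfl
  rw [sk]
  simp only [Finset.mem_Ico]
  by_cases a0 : s = 0
  · rw [if_pos a0, if_neg (by omega), if_pos a0, if_neg (by omega), hb]
  rw [if_neg a0, if_neg a0]
  by_cases a1 : s < m (j + 1)
  · rw [if_pos a1, if_neg (by omega), if_neg (by omega), hb0]
  rw [if_neg a1]
  by_cases a2 : s = m (j + 1)
  · rw [if_pos a2, if_pos a2, if_pos (by omega), hb1, a2, h3, sk_zero, hb]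
  rw [if_neg a2, if_neg a2]
  by_cases a3 : s < T (j + 1) - m (j + 1)
  · rw [if_pos a3, if_pos (by omega), add_comm]
  rw [if_neg a3, if_neg (show ¬ (m (j + 1) ≤ s ∧ s < T (j + 1) - m (j + 1)) by omega)]
  by_cases a4 : s = T (j + 1) - m (j + 1)
  · rw [if_pos a4, hb2]
  · rw [if_neg a4, hb0]

lemma FF_succ (j : ℕ) :
    FF (j + 1) * T j + be j * T j + 2 * m (j + 1) * FF j = T (j + 1) * FF j + be (j + 1) * T j := by
  have h1 := m_pos (j + 1)
  have h2 := m_le_T' j
  obtain ⟨a, ha⟩ := T_dvd_m j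
  obtain ⟨k, hk⟩ : T j ∣ T (j + 1) - m (j + 1) - m (j + 1) :=
    Nat.dvd_sub (Nat.dvd_sub (T_dvd_T (Nat.le_succ j)) (T_dvd_m j)) (T_dvd_m j)
  have e := Finset.sum_congr (rfl : Finset.range (T (j + 1)) = _) fun s _ => fnum_point j s
  rw [Finset.sum_add_distrib, Finset.sum_add_distrib, Finset.sum_ite_eq', Finset.sum_ite_eq',
    if_pos (Finset.mem_range.2 (by omega)), if_pos (Finset.mem_range.2 (by omega)),
    Finset.sum_ite_mem] at e
  have e1 : Finset.range (T (j + 1)) ∩ Finset.Ico (m (j + 1)) (T (j + 1) - m (j + 1)) =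
      Finset.Ico (m (j + 1)) (T (j + 1) - m (j + 1)) := by
    refine Finset.inter_eq_right.2 fun s hs => ?_
    rw [Finset.mem_Ico] at hs
    rw [Finset.mem_range]
    omega
  have e2 : ∑ s ∈ Finset.Ico (m (j + 1)) (T (j + 1) - m (j + 1)), bt (sk j (s % T j)) =
      k * FF j := by
    rw [Finset.sum_Ico_eq_sum_range, hk, mul_comm (T j) k, FF,
      ← fnum_period (fun r => bt (sk j r)) (T j) k]
    refine Finset.sum_congr rfl fun r _ => ?_
    rw [ha, Nat.mul_add_mod]
  rw [e1, e2] at e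
  have e3 : FF (j + 1) + be j = be (j + 1) + k * FF j := e
  have e4 : T (j + 1) = T j * k + 2 * m (j + 1) := by omega
  rw [e4, ← add_mul, e3]
  ring

lemma fnum_zero : FF 0 = 0 := by
  simp [FF, T, sk, bt, be]

lemma fnum_be_le (j : ℕ) : be j ≤ 10 * m j := by
  cases j with
  | zero => exact Nat.zero_le _
  | succ j => have := be_succ j; omega

lemma fnum_T_cast (j : ℕ) : (0 : ℝ) < T j := Nat.cast_pos.2 (T_pos j)

lemma fnum_m_div (j : ℕ) : (m (j + 1) : ℝ) / T (j + 1) = (1 / 2) ^ (j + 3) := by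
  have h : (0 : ℝ) < m (j + 1) := Nat.cast_pos.2 (m_pos _)
  rw [T_succ]
  push_cast
  rw [one_div, inv_pow]
  field_simp

/-- The increment of the entropy. -/
lemma fnum_step (j : ℕ) : (FF (j + 1) : ℝ) / T (j + 1) = (FF j : ℝ) / T j +
    ((be (j + 1) : ℝ) - be j - 2 * m (j + 1) * ((FF j : ℝ) / T j)) / T (j + 1) := by
  have h1 := fnum_T_cast j
  have h2 := fnum_T_cast (j + 1)
  have e : (FF (j + 1) : ℝ) * T j + be j * T j + 2 * m (j + 1) * FF j =
      T (j + 1) * FF j + be (j + 1) * T j := by exact_mod_cast FF_succ j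
  field_simp
  linarith

lemma fnum_upper (j : ℕ) : (FF j : ℝ) / T j ≤ 5 / 2 * (1 - (1 / 2) ^ j) := by
  induction j with
  | zero => rw [fnum_zero]; simp
  | succ j ih =>
    have h1 := fnum_T_cast j
    have h2 := fnum_T_cast (j + 1)
    have h3 : (be (j + 1) : ℝ) ≤ 10 * m (j + 1) := by exact_mod_cast fnum_be_le (j + 1)
    have h4 : (0 : ℝ) ≤ be j := Nat.cast_nonneg _
    have h5 : (0 : ℝ) ≤ 2 * m (j + 1) * ((FF j : ℝ) / T j) := by positivity
    have h6 : ((be (j + 1) : ℝ) - be j - 2 * m (j + 1) * ((FF j : ℝ) / T j)) / T (j + 1) ≤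
        10 * ((m (j + 1) : ℝ) / T (j + 1)) := by
      rw [← mul_div_assoc 10]
      exact div_le_div_of_nonneg_right (by linarith) h2.le
    rw [fnum_m_div] at h6
    rw [fnum_step]
    have h7 : ((1 : ℝ) / 2) ^ (j + 3) = (1 / 2) ^ j / 8 := by ring
    have h8 : ((1 : ℝ) / 2) ^ (j + 1) = (1 / 2) ^ j / 2 := by ring
    linarith

lemma fnum_le (j : ℕ) : (FF j : ℝ) / T j ≤ 5 / 2 := by
  have h1 := fnum_upper j
  have h2 : (0 : ℝ) ≤ (1 / 2) ^ j := by positivity
  linarith

lemma FF_le (j : ℕ) : (FF j : ℝ) ≤ 5 / 2 * T j :=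
  (div_le_iff₀ (fnum_T_cast j)).1 (fnum_le j)

lemma FF_one : 6 / 5 * (T 1 : ℝ) ≤ FF 1 := by
  have e : ∀ k, k = 0 + 1 →
      FF k * T 0 + be 0 * T 0 + 2 * m k * FF 0 = T k * FF 0 + be k * T 0 := by
    rintro k rfl
    exact FF_succ 0
  have h0 : T 0 = 1 := rfl
  have h1 : T 1 = 512 := by rw [T, h0]; norm_num
  have h2 : m 0 = 1 := rfl
  have h3 : m 1 = 64 := by rw [m, h0]; norm_num
  have h4 : be 0 = 0 := rfl
  have h5 : ∀ k, k = 0 + 1 → be k + 10 * m 0 + (0 + 14) = 10 * m k := by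
    rintro k rfl
    exact be_succ 0
  have e' := e 1 rfl
  have h5' := h5 1 rfl
  rw [fnum_zero, h0, h4] at e'
  have h6 : FF 1 = 616 := by omega
  rw [h1, h6]
  norm_num

lemma FF_gain (j : ℕ) : (FF j : ℝ) / T j + (1 / 2) ^ (j + 1) ≤ (FF (j + 1) : ℝ) / T (j + 1) := by
  have h2 := fnum_T_cast (j + 1)
  have h3 : 9 * m (j + 1) + be j ≤ be (j + 1) := by
    have a1 := be_succ j
    have a2 := fnum_be_le j
    have a3 := T_le_m j
    have a4 := m_le_T j
    have a5 := lt_m j
    omega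
  have h4 : 9 * (m (j + 1) : ℝ) + be j ≤ be (j + 1) := by exact_mod_cast h3
  have h5 : 2 * (m (j + 1) : ℝ) * ((FF j : ℝ) / T j) ≤ 2 * m (j + 1) * (5 / 2) :=
    mul_le_mul_of_nonneg_left (fnum_le j) (by positivity)
  have h6 : 4 * ((m (j + 1) : ℝ) / T (j + 1)) ≤
      ((be (j + 1) : ℝ) - be j - 2 * m (j + 1) * ((FF j : ℝ) / T j)) / T (j + 1) := by
    rw [← mul_div_assoc]
    exact div_le_div_of_nonneg_right (by linarith) h2.le
  rw [fnum_m_div] at h6
  rw [fnum_step]
  have h7 : ((1 : ℝ) / 2) ^ (j + 3) = (1 / 2) ^ (j + 1) / 4 := by ring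
  linarith

lemma fnum_bdd : BddAbove (range fun j => (FF j : ℝ) / T j) :=
  ⟨5 / 2, by rintro _ ⟨j, rfl⟩; exact fnum_le j⟩

lemma le_hh (j : ℕ) : Real.log 2 * ((FF j : ℝ) / T j) ≤ hh :=
  mul_le_mul_of_nonneg_left (le_ciSup fnum_bdd j) (Real.log_nonneg one_le_two)

lemma fnum_one : (6 / 5 : ℝ) ≤ (FF 1 : ℝ) / T 1 :=
  (le_div_iff₀ (fnum_T_cast 1)).2 FF_one

lemma hh_pos : 0 < hh :=
  lt_of_lt_of_le (mul_pos (Real.log_pos one_lt_two) (lt_of_lt_of_le (by norm_num) fnum_one))
    (le_hh 1)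

lemma pJ_gain (j : ℕ) : pJ j + (1 / 2) ^ (j + 2) ≤ pJ (j + 1) := by
  unfold pJ
  rw [if_neg (Nat.succ_ne_zero j)]
  by_cases h : j = 0
  · subst h
    have h1 := fnum_one
    rw [if_pos rfl, zero_add 1]
    have h2 : ((1 : ℝ) / 2) ^ (0 + 2) = 1 / 4 := by norm_num
    have h3 : ((1 : ℝ) / 2) ^ (1 + 2) = 1 / 8 := by norm_num
    linarith
  · rw [if_neg h]
    have h1 := FF_gain j
    have h2 : ((1 : ℝ) / 2) ^ (j + 2) = (1 / 2) ^ (j + 1) / 2 := by ring
    have h3 : (0 : ℝ) ≤ (1 / 2) ^ (j + 1 + 2) := by positivity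
    linarith

lemma fnum_sum (J : ℕ) :
    ∑ r ∈ Finset.Ico 1 (T J), (bt (sk J r) : ℝ) = (FF J : ℝ) - be J := by
  have e : FF J = be J + ∑ r ∈ Finset.Ico 1 (T J), bt (sk J r) := by
    rw [FF, Finset.range_eq_Ico, Finset.sum_eq_sum_Ico_succ_bot (T_pos J), sk_zero]
    simp [bt]
  rw [e]
  push_cast
  ring

lemma exists_level {c : ℝ} (h : c < hh) : ∃ J,
    c ≤ Real.log 2 * ((∑ r ∈ Finset.Ico 1 (T J), (bt (sk J r) : ℝ)) *
      ((1 - (1 / 2) ^ (J + 1)) / T J)) := by
  have hm : Monotone fun j => (FF j : ℝ) / T j := monotone_nat_of_le_succ fun j => by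
    have h1 := FF_gain j
    have h2 : (0 : ℝ) ≤ (1 / 2) ^ (j + 1) := by positivity
    linarith
  have t1 := (tendsto_add_atTop_iff_nat 1).2 (tendsto_atTop_ciSup hm fnum_bdd)
  have t0 : Tendsto (fun j : ℕ => ((1 : ℝ) / 2) ^ j) atTop (𝓝 0) :=
    tendsto_pow_atTop_nhds_zero_of_lt_one (by norm_num) (by norm_num)
  have t2 : Tendsto (fun j => (be (j + 1) : ℝ) / T (j + 1)) atTop (𝓝 0) := by
    have u := ((tendsto_add_atTop_iff_nat 3).2 t0).const_mul 10
    rw [mul_zero] at u
    refine squeeze_zero (fun j => by positivity) (fun j => ?_) u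
    have h3 : (be (j + 1) : ℝ) ≤ 10 * m (j + 1) := by exact_mod_cast fnum_be_le (j + 1)
    rw [← fnum_m_div, ← mul_div_assoc]
    exact div_le_div_of_nonneg_right h3 (fnum_T_cast _).le
  have t3 := ((t1.sub t2).mul (((tendsto_add_atTop_iff_nat 2).2 t0).const_sub 1)).const_mul
    (Real.log 2)
  rw [sub_zero, sub_zero, mul_one] at t3
  obtain ⟨j, hj⟩ := (t3.eventually (lt_mem_nhds h)).exists
  refine ⟨j + 1, hj.le.trans (le_of_eq ?_)⟩
  rw [fnum_sum]
  ring

end FnumPart

section CountPart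

/-! Counting words of bounded level. -/


open MeasureTheory Set Filter Topology

/-- The blocks that start with a symbol of level `j`. -/
lemma blocks (j : ℕ) : ∃ B : Finset (Fin (T j) → ℕ × ℕ), B.card ≤ 2 * 2 ^ FF j ∧
    ∀ y τ, Lang y → 1 ≤ j → (y τ).1 = j + 1 → win τ (T j) y ∈ B := by
  refine ⟨Fintype.piFinset fun s : Fin (T j) =>
    if (s : ℕ) = 0 then (Finset.range (2 * 2 ^ be j)).image fun n => (j + 1, n)
    else (Finset.range (2 ^ bt (sk j s))).image (code (sk j s)), ?_, ?_⟩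
  · rw [Fintype.card_piFinset]
    calc _ ≤ ∏ s : Fin (T j), (if (s : ℕ) = 0 then 2 else 1) * 2 ^ bt (sk j s) := by
          refine Finset.prod_le_prod' fun s _ => ?_
          split_ifs with h
          · refine Finset.card_image_le.trans ?_
            rw [Finset.card_range, h, sk_zero]
            simp [bt]
          · refine Finset.card_image_le.trans ?_
            rw [Finset.card_range, one_mul]
      _ = 2 * 2 ^ FF j := by
          rw [Fin.prod_univ_eq_prod_range
            (fun s => (if s = 0 then 2 else 1) * 2 ^ bt (sk j s)) (T j), Finset.prod_mul_distrib,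
            Finset.prod_pow_eq_pow_sum, Finset.prod_ite_eq', if_pos (Finset.mem_range.2 (T_pos j))]
          rfl
  · intro y τ hy hj h
    rcases hy τ with e | e | ⟨j', n, c, -, hn, e, hc, hs⟩
    · rw [e] at h
      simp at h
    · rw [e] at h
      simp only at h
      omega
    · have hj' : j' = j := by
        rw [e] at h
        simpa using h
      subst hj'
      rw [Fintype.mem_piFinset]
      intro s
      split_ifs with h0
      · refine Finset.mem_image.2 ⟨n, Finset.mem_range.2 hn, ?_⟩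
        simp only [win, h0, Nat.cast_zero, add_zero, e]
      · have h1 := Nat.pos_of_ne_zero h0
        exact Finset.mem_image.2 ⟨c s, Finset.mem_range.2 (hc s h1 s.2), (hs s h1 s.2).symm⟩

/-- A finite set of size at most `r` contains all words of length `n` and level at most `J`. -/
def countCov (J n : ℕ) (r : ℝ) : Prop := ∃ S : Finset (Fin n → ℕ × ℕ), (S.card : ℝ) ≤ r ∧
  ∀ y τ, Lang y → (∀ i : Fin n, (y (τ + (i : ℕ))).1 ≤ J + 1) → win τ n y ∈ S

/-- Concatenation of three words, cut at length `n`. -/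
def countGlue (n i t : ℕ) (w : (Fin i → ℕ × ℕ) × (Fin t → ℕ × ℕ) × (Fin (n - i - t) → ℕ × ℕ)) :
    Fin n → ℕ × ℕ := fun s =>
  if h : (s : ℕ) < i then w.1 ⟨s, h⟩
  else if h' : (s : ℕ) - i < t then w.2.1 ⟨s - i, h'⟩
  else w.2.2 ⟨s - i - t, by have := s.2; omega⟩

lemma count_glue (n i t : ℕ) (τ : ℤ) (y : Om) :
    countGlue n i t (win τ i y, win (τ + i) t y, win (τ + i + t) (n - i - t) y) = win τ n y := by
  funext s
  unfold countGlue
  split_ifs with h h'
  · rfl
  · simp only [win]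
    congr 1
    omega
  · simp only [win]
    congr 1
    omega

lemma count_zero (n : ℕ) : countCov 0 n (2 ^ n) := by
  refine ⟨Fintype.piFinset fun _ => {(0, 0), (1, 0)}, ?_, ?_⟩
  · rw [Fintype.card_piFinset, Finset.card_pair (by simp)]
    simp
  · intro y τ hy h
    rw [Fintype.mem_piFinset]
    intro s
    have h1 := h s
    rcases hy (τ + (s : ℕ)) with e | e | ⟨j', n, c, hj, -, e, -, -⟩
    · simp [win, e]
    · simp [win, e]
    · rw [e] at h1
      simp only at h1
      omega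

lemma count_empty (J : ℕ) {k : ℕ} (hk : k = 0) : countCov J k 1 := by
  subst hk
  exact ⟨{fun _ => (0, 0)}, by simp, fun y τ _ _ => Finset.mem_singleton.2 (Subsingleton.elim _ _)⟩

lemma count_mono {J n : ℕ} {r r' : ℝ} (h : countCov J n r) (h' : r ≤ r') : countCov J n r' := by
  obtain ⟨S, h1, h2⟩ := h
  exact ⟨S, h1.trans h', h2⟩

/-- Cut a word at the first symbol of the top level. -/
lemma count_cut (j n : ℕ) (a v : ℕ → ℝ) (ha : ∀ i, countCov j i (a i))
    (hv : ∀ i, i < n → countCov (j + 1) (n - i - T (j + 1)) (v i)) :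
    countCov (j + 1) n (a n + ∑ i ∈ Finset.range n, a i * (2 * 2 ^ FF (j + 1) * v i)) := by
  classical
  obtain ⟨B, hB, hB'⟩ := blocks (j + 1)
  choose S hS hS' using ha
  choose! V hV hV' using hv
  refine ⟨S n ∪ (Finset.range n).biUnion fun i =>
    (S i ×ˢ B ×ˢ V i).image (countGlue n i (T (j + 1))), ?_, ?_⟩
  · refine (Nat.cast_le.2 ((Finset.card_union_le _ _).trans
      (Nat.add_le_add_left Finset.card_biUnion_le _))).trans ?_
    push_cast
    refine add_le_add (hS n) (Finset.sum_le_sum fun i hi => ?_)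
    refine (Nat.cast_le.2 Finset.card_image_le).trans ?_
    rw [Finset.card_product, Finset.card_product]
    push_cast
    have h1 : (B.card : ℝ) ≤ 2 * 2 ^ FF (j + 1) := by exact_mod_cast hB
    have h2 := hV i (Finset.mem_range.1 hi)
    have h3 : (0 : ℝ) ≤ a i := (Nat.cast_nonneg _).trans (hS i)
    exact mul_le_mul (hS i) (mul_le_mul h1 h2 (Nat.cast_nonneg _) (by positivity))
      (by positivity) h3
  · intro y τ hy h
    rw [Finset.mem_union]
    by_cases hex : ∃ i, i < n ∧ (y (τ + (i : ℕ))).1 = j + 1 + 1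
    · right
      have hi := Nat.find_spec hex
      have hmin := fun k => Nat.find_min hex (m := k)
      generalize Nat.find hex = i at hi hmin
      refine Finset.mem_biUnion.2 ⟨i, Finset.mem_range.2 hi.1,
        Finset.mem_image.2 ⟨_, ?_, count_glue n i (T (j + 1)) τ y⟩⟩
      refine Finset.mem_product.2 ⟨hS' i y τ hy fun s => ?_, Finset.mem_product.2
        ⟨hB' y _ hy (Nat.le_add_left _ _) hi.2, hV' i hi.1 y _ hy fun s => ?_⟩⟩
      · have h1 := h ⟨s, s.2.trans hi.1⟩
        have h2 := hmin s s.2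
        have h3 := s.2.trans hi.1
        simp only [not_and] at h1 h2
        have h4 := h2 h3
        omega
      · have h0 := s.2
        have h1 := h ⟨i + T (j + 1) + s, by omega⟩
        simp only [Nat.cast_add, ← add_assoc] at h1
        exact h1
    · left
      refine hS' n y τ hy fun s => ?_
      have h1 := h s
      have h2 : (y (τ + (s : ℕ))).1 ≠ j + 1 + 1 := fun e => hex ⟨s, s.2, e⟩
      omega

lemma count_geom {q x : ℝ} (hq : 0 ≤ q) (hx : 0 < x) (h : q ≤ 1 - x) (n : ℕ) :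
    ∑ i ∈ Finset.range n, q ^ i ≤ 1 / x := by
  have h1 := mul_neg_geom_sum q n
  have h2 : 0 ≤ ∑ i ∈ Finset.range n, q ^ i := Finset.sum_nonneg fun i _ => pow_nonneg hq i
  have h3 := pow_nonneg hq n
  rw [le_div_iff₀ hx]
  nlinarith

lemma count_ratio (j : ℕ) :
    (2 : ℝ) ^ pJ j / 2 ^ pJ (j + 1) ≤ 1 - (1 / 2) ^ (j + 3) := by
  have h0 : (0 : ℝ) ≤ (1 / 2) ^ (j + 2) := by positivity
  have h1 : ((1 : ℝ) / 2) ^ (j + 2) ≤ 1 := pow_le_one₀ (by norm_num) (by norm_num)
  have h2 := _root_.rpow_one_add_le_one_add_mul_self (s := -1 / 2) (by norm_num) h0 h1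
  rw [← Real.rpow_sub two_pos]
  calc (2 : ℝ) ^ (pJ j - pJ (j + 1)) ≤ 2 ^ (-((1 : ℝ) / 2) ^ (j + 2)) :=
        Real.rpow_le_rpow_of_exponent_le one_le_two (by linarith [pJ_gain j])
    _ = (1 + -1 / 2) ^ (((1 : ℝ) / 2) ^ (j + 2)) := by
        rw [Real.rpow_neg zero_le_two, ← Real.inv_rpow zero_le_two]
        norm_num
    _ ≤ _ := by
        rw [pow_succ _ (j + 2)]
        linarith

lemma count_pJ_nonneg (j : ℕ) : 0 ≤ pJ j := by
  unfold pJ
  split_ifs
  · exact zero_le_one
  · positivity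

lemma count_zT (j : ℕ) :
    ((2 : ℝ) ^ pJ (j + 1)) ^ T (j + 1) = 2 ^ (FF (j + 1) + m (j + 1)) := by
  rw [← Real.rpow_natCast, ← Real.rpow_mul zero_le_two, ← Real.rpow_natCast]
  congr 1
  have h0 : (T (j + 1) : ℝ) ≠ 0 := Nat.cast_ne_zero.2 (T_pos _).ne'
  have h1 : (T (j + 1) : ℝ) = 2 ^ (j + 3) * m (j + 1) := by exact_mod_cast T_succ j
  rw [pJ, if_neg (Nat.succ_ne_zero j), add_mul, div_mul_cancel₀ _ h0, Nat.cast_add, h1,
    ← mul_assoc, ← mul_pow]
  norm_num

lemma count_num {A A' β z z' Z Sg : ℝ} (n : ℕ) (hz : 0 < z) (hz' : 0 ≤ z') (hzz : z' ≤ z)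
    (hA : 0 ≤ A) (hA' : 0 ≤ A') (hβ : 0 ≤ β) (hZ : 0 < Z) (hS : 1 ≤ Sg)
    (hsum : ∑ i ∈ Finset.range n, (z' / z) ^ i ≤ Sg) (h1 : 2 * (A' * Sg * β) ≤ Z)
    (h2 : 2 * (A' * Sg * (1 + β)) ≤ A) :
    A' * z' ^ n + ∑ i ∈ Finset.range n, A' * z' ^ i * (β * ((A / Z + 1) * z ^ (n - i))) ≤
      A * z ^ n := by
  have e : ∑ i ∈ Finset.range n, A' * z' ^ i * (β * ((A / Z + 1) * z ^ (n - i))) =
      A' * β * (A / Z + 1) * z ^ n * ∑ i ∈ Finset.range n, (z' / z) ^ i := by
    rw [Finset.mul_sum]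
    refine Finset.sum_congr rfl fun i hi => ?_
    rw [pow_sub₀ _ hz.ne' (Finset.mem_range.1 hi).le, div_pow]
    field_simp
  have hp : 0 ≤ z ^ n := by positivity
  have h3 : A' * z' ^ n ≤ A' * Sg * z ^ n := by
    have := pow_le_pow_left₀ hz' hzz n
    rw [mul_assoc]
    refine mul_le_mul_of_nonneg_left ?_ hA'
    nlinarith
  have h4 : A' * β * (A / Z + 1) * z ^ n * ∑ i ∈ Finset.range n, (z' / z) ^ i ≤
      A' * β * (A / Z + 1) * z ^ n * Sg := mul_le_mul_of_nonneg_left hsum (by positivity)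
  have h5 : A' * Sg * β * (A / Z) ≤ A / 2 := by
    have : A' * Sg * β * (A / Z) = A * (A' * Sg * β / Z) := by ring
    rw [this, div_eq_mul_inv A 2]
    refine mul_le_mul_of_nonneg_left ?_ hA
    rw [div_le_iff₀ hZ]
    linarith
  have h6 : (A' * Sg + A' * Sg * β * (A / Z) + A' * Sg * β) * z ^ n ≤ A * z ^ n :=
    mul_le_mul_of_nonneg_right (by linarith) hp
  rw [e]
  linarith

lemma count_main (J : ℕ) : ∀ n, countCov J n (2 ^ (4 * T J) * ((2 : ℝ) ^ pJ J) ^ n) := by
  induction J with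
  | zero =>
    intro n
    refine count_mono (count_zero n) ?_
    rw [pJ, if_pos rfl, Real.rpow_one]
    exact le_mul_of_one_le_left (by positivity) (one_le_pow₀ one_le_two)
  | succ j ih =>
    intro n
    induction n using Nat.strong_induction_on with
    | _ n ihn =>
      have hz : (1 : ℝ) ≤ 2 ^ pJ (j + 1) := Real.one_le_rpow one_le_two (count_pJ_nonneg _)
      have hz0 : (0 : ℝ) < 2 ^ pJ (j + 1) := one_pos.trans_le hz
      have hT := T_pos (j + 1)
      have hcut := count_cut j n (fun i => 2 ^ (4 * T j) * ((2 : ℝ) ^ pJ j) ^ i)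
        (fun i => ((2 : ℝ) ^ (4 * T (j + 1)) / 2 ^ (FF (j + 1) + m (j + 1)) + 1) *
          ((2 : ℝ) ^ pJ (j + 1)) ^ (n - i)) ih (by
          intro i hi
          by_cases h : T (j + 1) ≤ n - i
          · refine count_mono (ihn _ (by omega)) ?_
            rw [pow_sub₀ _ hz0.ne' h, count_zT, add_mul, one_mul]
            refine le_trans (le_of_eq ?_) (le_add_of_nonneg_right (by positivity))
            ring
          · refine count_mono (count_empty _ (by omega)) ?_
            exact one_le_mul_of_one_le_of_one_le (le_add_of_nonneg_left (by positivity))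
              (one_le_pow₀ hz))
      refine count_mono hcut ?_
      have a1 := T_le_m j
      have a2 := lt_m j
      have a3 := m_le_T j
      have a4 := m_le_T (j + 1)
      have a5 : 2 * FF (j + 1) ≤ 5 * T (j + 1) := by
        have h := FF_le (j + 1)
        have h' : (2 : ℝ) * FF (j + 1) ≤ 5 * T (j + 1) := by linarith
        exact_mod_cast h'
      refine count_num (Sg := 2 ^ (j + 3)) n hz0 (by positivity) ?_ (by positivity)
        (by positivity) (by positivity) (by positivity) (one_le_pow₀ one_le_two) ?_ ?_ ?_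
      · refine Real.rpow_le_rpow_of_exponent_le one_le_two ?_
        have h0 : (0 : ℝ) ≤ (1 / 2) ^ (j + 2) := by positivity
        linarith [pJ_gain j]
      · refine (count_geom (by positivity) (by positivity) (count_ratio j) n).trans (le_of_eq ?_)
        rw [one_div, ← inv_pow]
        norm_num
      · calc (2 : ℝ) * (2 ^ (4 * T j) * 2 ^ (j + 3) * (2 * 2 ^ FF (j + 1)))
            = 2 ^ (4 * T j + (j + 3) + FF (j + 1) + 2) := by
              simp only [pow_add]
              ring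
          _ ≤ _ := pow_le_pow_right₀ one_le_two (by omega)
      · have h1 : (1 : ℝ) ≤ 2 ^ FF (j + 1) := one_le_pow₀ one_le_two
        calc (2 : ℝ) * (2 ^ (4 * T j) * 2 ^ (j + 3) * (1 + 2 * 2 ^ FF (j + 1)))
            ≤ 2 * (2 ^ (4 * T j) * 2 ^ (j + 3) * (4 * 2 ^ FF (j + 1))) := by
              gcongr
              linarith
          _ = 2 ^ (4 * T j + (j + 3) + FF (j + 1) + 3) := by
              simp only [pow_add]
              ring
          _ ≤ _ := pow_le_pow_right₀ one_le_two (by omega)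

theorem count (J n : ℕ) : ∃ S : Finset (Fin n → ℕ × ℕ),
    (S.card : ℝ) ≤ 2 ^ (4 * T J) * (2 : ℝ) ^ (pJ J * n) ∧
      ∀ y τ, Lang y → (∀ i : Fin n, (y (τ + (i : ℕ))).1 ≤ J + 1) → win τ n y ∈ S := by
  rw [Real.rpow_mul zero_le_two, Real.rpow_natCast]
  exact count_main J n

end CountPart

section PhasePart

/-! The phase can be read from a designated name. -/


open MeasureTheory Set Filter Topology

/-- Marked times: a passage after a long gap. -/
def phaseMk (J : ℕ) (y : Om) (t : ℤ) : Prop :=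
  ¬ y t = (0, 0) ∧ ∀ s : ℕ, 0 < s → s < m (J + 1) → y (t - s) = (0, 0)

lemma phase_meas0 (t : ℤ) : Measurable fun y : Om => y t = (0, 0) :=
  (measurable_of_countable fun a : ℕ × ℕ => a = (0, 0)).comp
    (measurable_pi_apply (X := fun _ : ℤ => ℕ × ℕ) t)

lemma phase_meas (J : ℕ) (t : ℤ) : Measurable fun y : Om => phaseMk J y t :=
  (phase_meas0 t).not.and (Measurable.forall fun _ =>
    measurable_const.imp (measurable_const.imp (phase_meas0 _)))

lemma phase_sh {J : ℕ} {y : Om} {t : ℤ} : phaseMk J (sh y) t ↔ phaseMk J y (t + 1) := by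
  simp only [phaseMk, sh_apply, sub_add_eq_add_sub]

lemma phase_dvd {J J' : ℕ} {y : Om} {ty : ℤ → Ty} {c : ℤ → ℕ} {τ t : ℤ}
    (hy : ∀ t, y t = code (ty t) (c t))
    (hb : ∀ s, 0 < s → s < T J' → ty (τ + s) = sk J' s)
    (h1 : τ + m (J + 1) < t) (h2 : t < τ + T J') (h : phaseMk J y t) :
    (T J : ℤ) ∣ t - τ := by
  obtain ⟨s, rfl⟩ : ∃ s : ℕ, t = τ + s := ⟨(t - τ).toNat, by omega⟩
  have hs1 : m (J + 1) < s := by omega
  have hs0 : 0 < s := by omega
  have hs2 : s < T J' := by omega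
  have h3 := h.1
  rw [hy, code_eq_zero, hb s hs0 hs2] at h3
  obtain ⟨⟨i, i'⟩, e⟩ := Option.ne_none_iff_exists'.1 h3
  obtain ⟨h4, -, h5⟩ := sk_left hs0 hs2 e
  have h6 : J + 1 ≤ i := by
    by_contra hc
    have h7 : m i < m (J + 1) := m_strictMono (by omega)
    have h8 := h.2 (m i) (m_pos i) h7
    have h9 : τ + (s : ℤ) - (m i : ℕ) = τ + ((s - m i : ℕ) : ℤ) := by omega
    rw [hy, code_eq_zero, h9, hb _ (by omega) (by omega)] at h8
    exact h5 h8
  have h10 : J ≤ min i i' := by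
    have := (sk_level hs0 hs2 e).2
    omega
  have h11 : T J ∣ s := (T_dvd_T h10).trans (sk_phase hs2 e)
  rw [add_sub_cancel_left]
  exact Int.natCast_dvd_natCast.2 h11

lemma phase_cong {J : ℕ} {y : Om} (hy : Des y) {t t' : ℤ} (h : phaseMk J y t)
    (h' : phaseMk J y t') : (T J : ℤ) ∣ t - t' := by
  obtain ⟨ty, c, h1, h2⟩ := hy
  obtain ⟨J', τ, h3, h4, -, -, h5⟩ := h2 (t.natAbs + t'.natAbs + m (J + 1))
  have hb : ∀ s, 0 < s → s < T J' → ty (τ + s) = sk J' s := fun s a b => (h5 s a b).1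
  have h6 := phase_dvd h1 hb (by omega) (by omega) h
  have h7 := phase_dvd h1 hb (by omega) (by omega) h'
  have h8 := dvd_sub h6 h7
  rwa [sub_sub_sub_cancel_right] at h8

lemma phase_ex (J : ℕ) {y : Om} (hy : Des y) : ∃ t : ℕ, phaseMk J y ((t : ℤ) + 1) := by
  obtain ⟨ty, c, h1, h2⟩ := hy
  obtain ⟨J', τ, h3, h4, -, h6, h5⟩ := h2 (T J)
  have h7 : J < J' := T_strictMono.lt_iff_lt.1 (by omega)
  have h8 : m (J + 1) ≤ m J' := m_strictMono.monotone h7
  have h9 := m_le_T J'
  refine ⟨(τ + T J' - 1).toNat, ?_⟩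
  have h10 : (((τ + T J' - 1).toNat : ℕ) : ℤ) + 1 = τ + T J' := by omega
  rw [h10]
  refine ⟨by rw [h1, code_eq_zero]; exact h6, fun s hs0 hs => ?_⟩
  have h11 : τ + (T J' : ℤ) - (s : ℕ) = τ + ((T J' - s : ℕ) : ℤ) := by omega
  have h12 := (sk_right (T_pos J') (sk_zero J')).2.1 s hs0 (by omega)
  rw [zero_add] at h12
  rw [h1, code_eq_zero, h11, (h5 _ (by omega) (by omega)).1, sk_symm hs0 (by omega), h12]
  rfl

theorem exists_phase (J : ℕ) : ∃ φ : Om → ZMod (T J), Measurable φ ∧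
    ∀ y, Des y → φ (sh y) = φ y + 1 := by
  classical
  have hp : ∀ y : Om, ∃ n : ℕ, phaseMk J y n ∨ ¬ ∃ k : ℕ, phaseMk J y k := by
    intro y
    by_cases h : ∃ k : ℕ, phaseMk J y k
    · obtain ⟨k, hk⟩ := h
      exact ⟨k, Or.inl hk⟩
    · exact ⟨0, Or.inr h⟩
  have hm : Measurable fun y : Om => Nat.find (hp y) :=
    measurable_find hp fun k => measurableSet_setOfPred.2
      ((phase_meas J k).or (Measurable.exists fun n : ℕ => phase_meas J n).not)
  refine ⟨fun y => -((Nat.find (hp y) : ℕ) : ZMod (T J)),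
    (measurable_of_countable fun n : ℕ => -(n : ZMod (T J))).comp hm, fun y hy => ?_⟩
  obtain ⟨t, ht⟩ := phase_ex J hy
  have h1 : phaseMk J y (Nat.find (hp y) : ℕ) :=
    (Nat.find_spec (hp y)).resolve_right (not_not.2 ⟨t + 1, by exact_mod_cast ht⟩)
  have h2 : phaseMk J (sh y) (Nat.find (hp (sh y)) : ℕ) :=
    (Nat.find_spec (hp (sh y))).resolve_right (not_not.2 ⟨t, phase_sh.2 ht⟩)
  have h3 := phase_cong hy (phase_sh.1 h2) h1
  have h4 := (ZMod.intCast_zmod_eq_zero_iff_dvd _ _).2 h3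
  push_cast at h4
  show -((Nat.find (hp (sh y)) : ℕ) : ZMod (T J)) = -((Nat.find (hp y) : ℕ) : ZMod (T J)) + 1
  linear_combination -h4

end PhasePart

end Pool.Agent.P.MP_1672e2_an.Cx
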