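import Pool.Agent.P.MP_1672e2_an.Cx.Defs
import Pool.Agent.P.MP_1672e2_an.Symbolic

set_option autoImplicit false

namespace Pool.Agent.P.MP_1672e2_an.Cx

section EntAPart

/-! Basic facts about entropy and cyclic factors. -/


open MeasureTheory Set Filter Topology

variable {X Y : Type*} [MeasurableSpace X] [MeasurableSpace Y]

lemma PE_iff {S : X → X} {μ : Measure X} : PE S μ ↔ ∃ c, 0 < c ∧ Ent S μ c := by
  constructor
  · rintro ⟨k, P, hP, hd, hu, c, hc, hn⟩
    exact ⟨c, hc, k, P, hP, hd, hu, hn⟩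
  · rintro ⟨c, hc, k, P, hP, hd, hu, hn⟩
    exact ⟨k, P, hP, hd, hu, c, hc, hn⟩

lemma Ent.mono {S : X → X} {μ : Measure X} {c c' : ℝ} (h : Ent S μ c) (h' : c' ≤ c) :
    Ent S μ c' := by
  obtain ⟨k, P, hP, hd, hu, hn⟩ := h
  exact ⟨k, P, hP, hd, hu, fun n hn0 =>
    (mul_le_mul_of_nonneg_right h' (Nat.cast_nonneg n)).trans (hn n hn0)⟩

lemma Ent.of_fun {S : X → X} {μ : Measure X} {c : ℝ} {ι : Type} [Fintype ι]
    (Q : X → ι) (hQ : ∀ i, MeasurableSet (Q ⁻¹' {i})) (h : ∀ n : ℕ, 0 < n → c * n ≤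
      ∑ w : Fin n → ι, Real.negMulLog (μ.real {x | ∀ i : Fin n, Q (S^[(i : ℕ)] x) = w i})) :
    Ent S μ c := by
  let e := Fintype.equivFin ι
  refine ⟨Fintype.card ι, fun i => Q ⁻¹' {e.symm i}, fun i => hQ _, fun i j hij => ?_, ?_,
    fun n hn => (h n hn).trans_eq ?_⟩
  · exact (disjoint_singleton.2 (e.symm.injective.ne hij)).preimage Q
  · exact eq_univ_of_forall fun x => mem_iUnion.2 ⟨e (Q x), (e.symm_apply_apply _).symm⟩
  · refine Fintype.sum_equiv (Equiv.arrowCongr (Equiv.refl _) e) _ _ fun w => ?_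
    refine congrArg (fun A => Real.negMulLog (μ A).toReal) (Set.ext fun x => ?_)
    simp [Equiv.arrowCongr_apply]

variable [StandardBorelSpace X] [StandardBorelSpace Y] {S : X ≃ X} {U : Y ≃ Y} {D : Set X}
  {α : X → Y}

lemma pullE (h : Emb S U D α) (hS : Measurable S) {μ : Measure Y} [IsProbabilityMeasure μ]
    (he : Ergodic U μ) (hD : μ (α '' D)ᶜ = 0) : ∃ ν : Measure X, IsProbabilityMeasure ν ∧
      Ergodic S ν ∧ ν Dᶜ = 0 ∧ (∀ A, MeasurableSet A → A ⊆ D → μ (α '' A) = ν A) ∧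
      (∀ c, Ent U μ c → Ent S ν c) ∧ ∀ p, Cyc U μ p → Cyc S ν p := by
  have hae : ∀ᵐ y ∂μ, y ∈ α '' D := hD
  obtain ⟨_, x₀, -, -⟩ := hae.exists
  have : Nonempty X := ⟨x₀⟩
  obtain ⟨β, hβ, hinv⟩ := h.exists_inv
  have key : ∀ {A : Set X} {B : Set Y}, MeasurableSet A → (∀ x ∈ D, x ∈ A ↔ α x ∈ B) →
      μ.map β A = μ B := by
    intro A B hA hAB
    rw [Measure.map_apply hβ.meas hA]
    refine measure_congr ?_
    filter_upwards [hae] with y hy
    obtain ⟨x, hx, rfl⟩ := hy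
    refine propext ?_
    show β (α x) ∈ A ↔ α x ∈ B
    rw [hinv x hx]
    exact hAB x hx
  refine ⟨μ.map β, Measure.isProbabilityMeasure_map hβ.meas.aemeasurable, ⟨⟨hS, ?_⟩, ⟨?_⟩⟩, ?_,
    fun A hA hAD => ?_, ?_, ?_⟩
  · have h1 : (S ∘ β) =ᵐ[μ] (β ∘ U) := by
      filter_upwards [hae] with y hy
      exact (hβ.comm y hy).symm
    rw [Measure.map_map hS hβ.meas, Measure.map_congr h1,
      ← Measure.map_map hβ.meas he.measurable, he.map_eq]
  · intro s hs hi
    have h1 := hβ.restrict hs (Set.ext_iff.1 hi)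
    rw [eventuallyConst_set', ae_eq_empty, ae_eq_univ]
    refine (erg_dich he h1.dom h1.inv).imp (fun h2 => ?_) fun h2 => ?_
    · rw [← h2]
      exact key hs fun x hx => ⟨fun hs => ⟨⟨x, hx, rfl⟩, by rwa [mem_preimage, hinv x hx]⟩,
        fun hs => by have h3 := hs.2; rwa [mem_preimage, hinv x hx] at h3⟩
    · rw [← h2]
      exact key hs.compl fun x hx => not_congr
        ⟨fun hs => ⟨⟨x, hx, rfl⟩, by rwa [mem_preimage, hinv x hx]⟩,
          fun hs => by have h3 := hs.2; rwa [mem_preimage, hinv x hx] at h3⟩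
  · rw [← hD]
    exact key h.dom.compl fun x hx => not_congr ⟨fun _ => ⟨x, hx, rfl⟩, fun _ => hx⟩
  · refine (key (B := α '' A) hA fun x hx => ⟨fun hA => ⟨x, hA, rfl⟩, ?_⟩).symm
    rintro ⟨x', hx', he'⟩
    rwa [← h.inj (hAD hx') hx he']
  · rintro c ⟨k, P, hP, hd, hu, hn⟩
    refine ⟨k, fun i => α ⁻¹' P i, fun i => h.meas (hP i), fun i j hij => (hd i j hij).preimage α,
      by rw [← preimage_iUnion, hu, preimage_univ], fun n hn0 => (hn n hn0).trans_eq ?_⟩
    refine Finset.sum_congr rfl fun w _ => ?_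
    rw [key (B := ⋂ i : Fin n, U^[(i : ℕ)] ⁻¹' P (w i))
      (MeasurableSet.iInter fun i => (hS.iterate _) (h.meas (hP _))) fun x hx => ?_]
    simp only [mem_iInter, mem_preimage, h.embA_iter _ hx]
  · rintro p ⟨φ, hφ, hc⟩
    refine ⟨φ ∘ α, hφ.comp h.meas, ?_⟩
    have : Countable (ZMod p) := (ZMod.intCast_surjective (n := p)).countable
    have hm : MeasurableSet {x | (φ ∘ α) (S x) = (φ ∘ α) x + 1} :=
      measurableSet_eq_fun ((hφ.comp h.meas).comp hS)
        ((Measurable.of_discrete (f := fun z : ZMod p => z + 1)).comp (hφ.comp h.meas))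
    rw [ae_iff] at hc ⊢
    rw [← hc]
    refine key hm.compl fun x hx => not_congr ?_
    simp only [mem_ofPred_eq, Function.comp_apply, h.comm x hx]

lemma pushE (h : Emb S U D α) (hU : Measurable U) {ν : Measure X} [IsProbabilityMeasure ν]
    (he : Ergodic S ν) (hD : ν Dᶜ = 0) : ∃ μ : Measure Y, IsProbabilityMeasure μ ∧
      Ergodic U μ ∧ μ (α '' D)ᶜ = 0 ∧
      (∀ c, Ent S ν c → Ent U μ c) ∧ ∀ p, Cyc S ν p → Cyc U μ p := by
  have hae : ∀ᵐ x ∂ν, x ∈ D := hD
  obtain ⟨x₀, -⟩ := hae.exists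
  have : Nonempty X := ⟨x₀⟩
  obtain ⟨β, hβ, hinv⟩ := h.exists_inv
  have h1 : β '' (α '' D) = D := by
    rw [image_image]
    exact (image_congr hinv).trans (image_id D)
  obtain ⟨μ, a1, a2, a3, -, a5, a6⟩ := pullE hβ hU he (by rwa [h1])
  exact ⟨μ, a1, a2, a3, a5, a6⟩

end EntAPart

section UpperPart

/-! Few words imply small entropy. -/


open MeasureTheory Set Filter Topology

lemma measurable_win (a : ℤ) (n : ℕ) : Measurable (win a n) :=
  measurable_pi_lambda _ fun _ => measurable_pi_apply _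

lemma upper_meas (a : ℤ) (n : ℕ) (B : Set (Fin n → ℕ × ℕ)) : MeasurableSet (win a n ⁻¹' B) :=
  measurable_win a n B.to_countable.measurableSet

lemma upper_iter (i : ℕ) (x : Om) (t : ℤ) : (sh^[i] x) t = x (t + i) := by
  induction i generalizing t with
  | zero => simp
  | succ i ih =>
    rw [Function.iterate_succ_apply']
    show (sh^[i] x) (t + 1) = _
    rw [ih]
    congr 1
    push_cast
    ring

/-- Membership only depends on the coordinates in a window. -/
def upperDep (k : ℕ) (A : Set Om) : Prop :=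
  ∀ x y : Om, (∀ i : ℤ, -(k : ℤ) ≤ i → i ≤ k → x i = y i) → x ∈ A → y ∈ A

lemma upper_mono {k k' : ℕ} (h : k ≤ k') {A : Set Om} (hA : upperDep k A) : upperDep k' A :=
  fun x y hxy => hA x y fun i h1 h2 => hxy i (by omega) (by omega)

lemma upper_win {k : ℕ} {x y : Om} (h : win (-k) (2 * k + 1) x = win (-k) (2 * k + 1) y)
    (i : ℤ) (h1 : -(k : ℤ) ≤ i) (h2 : i ≤ k) : x i = y i := by
  have h3 := congrFun h ⟨(i + k).toNat, by omega⟩
  have h4 : -(k : ℤ) + (((i + k).toNat : ℕ) : ℤ) = i := by omega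
  simpa only [win, h4] using h3

lemma upper_dep_meas {k : ℕ} {A : Set Om} (hA : upperDep k A) : MeasurableSet A := by
  have : A = win (-k) (2 * k + 1) ⁻¹' (win (-k) (2 * k + 1) '' A) := by
    apply Subset.antisymm (subset_preimage_image _ _)
    rintro y ⟨x, hx, hxy⟩
    exact hA x y (upper_win hxy) hx
  rw [this]
  exact upper_meas _ _ _

lemma upper_ring : IsSetRing {A : Set Om | ∃ k, upperDep k A} where
  empty_mem := ⟨0, fun _ _ _ h => h⟩
  union_mem := by
    rintro s t ⟨k, hk⟩ ⟨k', hk'⟩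
    refine ⟨max k k', fun x y hxy hx => ?_⟩
    rcases hx with hx | hx
    · exact Or.inl (upper_mono (le_max_left _ _) hk x y hxy hx)
    · exact Or.inr (upper_mono (le_max_right _ _) hk' x y hxy hx)
  sdiff_mem := by
    rintro s t ⟨k, hk⟩ ⟨k', hk'⟩
    refine ⟨max k k', fun x y hxy hx => ⟨upper_mono (le_max_left _ _) hk x y hxy hx.1, ?_⟩⟩
    exact fun hy => hx.2
      (upper_mono (le_max_right _ _) hk' y x (fun i h1 h2 => (hxy i h1 h2).symm) hy)

lemma upper_gen : (inferInstance : MeasurableSpace Om) =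
    MeasurableSpace.generateFrom {A : Set Om | ∃ k, upperDep k A} := by
  apply le_antisymm
  · refine generate_uCyl.le.trans (MeasurableSpace.generateFrom_mono ?_)
    rintro _ ⟨R, y, rfl⟩
    exact ⟨R, fun x z hxz hx i h1 h2 => (hxz i h1 h2).symm.trans (hx i h1 h2)⟩
  · refine MeasurableSpace.generateFrom_le ?_
    rintro A ⟨k, hk⟩
    exact upper_dep_meas hk

lemma upper_approx {ν : Measure Om} [IsProbabilityMeasure ν] {A : Set Om} (hA : MeasurableSet A)
    {ε : ℝ} (hε : 0 < ε) : ∃ (k : ℕ) (B : Set Om), upperDep k B ∧ ν.real (symmDiff B A) ≤ ε := by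
  obtain ⟨B, ⟨k, hk⟩, hB⟩ := exists_measure_symmDiff_lt_of_generateFrom_isSetRing (μ := ν)
    upper_ring ⟨{univ}, countable_singleton _, by
      rintro _ rfl
      exact ⟨0, fun _ _ _ _ => mem_univ _⟩, by simp⟩ upper_gen hA (ENNReal.ofReal_pos.2 hε)
  exact ⟨k, B, hk, ENNReal.toReal_le_of_le_ofReal hε.le hB.le⟩

/-- A measurable function with finitely many values almost depends on finitely many coordinates. -/
lemma approx_win {ν : Measure Om} [IsProbabilityMeasure ν] {ι : Type} [Finite ι] (Q : Om → ι)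
    (hQ : ∀ i, MeasurableSet (Q ⁻¹' {i})) {ε : ℝ} (hε : 0 < ε) :
    ∃ (k : ℕ) (g : (Fin (2 * k + 1) → ℕ × ℕ) → ι),
      ν.real {y | Q y ≠ g (win (-k) (2 * k + 1) y)} ≤ ε := by
  classical
  have := Fintype.ofFinite ι
  have hne : Nonempty ι := ⟨Q fun _ => (0, 0)⟩
  have hc : (0 : ℝ) < Fintype.card ι := by exact_mod_cast Fintype.card_pos
  choose k B hk hB using fun i => upper_approx (ν := ν) (hQ i) (div_pos hε hc)
  set K : ℕ := Finset.univ.sup k with hK
  have hk' : ∀ i, upperDep K (B i) := fun i =>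
    upper_mono (Finset.le_sup (f := k) (Finset.mem_univ i)) (hk i)
  have hg : ∀ w : Fin (2 * K + 1) → ℕ × ℕ, ∃ i, ∀ y, win (-K) (2 * K + 1) y = w →
      (∃ j, y ∈ B j) → y ∈ B i := by
    intro w
    by_cases h : ∃ i, ∃ x ∈ B i, win (-K) (2 * K + 1) x = w
    · obtain ⟨i, x, hx, hw⟩ := h
      exact ⟨i, fun y hy _ => hk' i x y (upper_win (hw.trans hy.symm)) hx⟩
    · refine ⟨hne.some, fun y hy hj => ?_⟩
      obtain ⟨j, hj⟩ := hj
      exact absurd ⟨j, y, hj, hy⟩ h
  choose g hg using hg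
  refine ⟨K, g, ?_⟩
  have hsub : {y | Q y ≠ g (win (-K) (2 * K + 1) y)} ⊆ ⋃ i, symmDiff (B i) (Q ⁻¹' {i}) := by
    intro y hy
    by_contra hn
    simp only [mem_iUnion, not_exists, mem_symmDiff, mem_preimage, mem_singleton_iff, not_or,
      not_and, not_not] at hn
    have h1 : y ∈ B (Q y) := (hn (Q y)).2 rfl
    exact hy ((hn _).1 (hg _ y rfl ⟨_, h1⟩))
  calc ν.real {y | Q y ≠ g (win (-K) (2 * K + 1) y)}
      ≤ ν.real (⋃ i, symmDiff (B i) (Q ⁻¹' {i})) := measureReal_mono hsub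
    _ ≤ ∑ i, ν.real (symmDiff (B i) (Q ⁻¹' {i})) := measureReal_iUnion_fintype_le _
    _ ≤ ∑ _i : ι, ε / Fintype.card ι := Finset.sum_le_sum fun i _ => hB i
    _ = ε := by
      rw [Finset.sum_const, Finset.card_univ, nsmul_eq_mul]
      field_simp

theorem ent_le_of_words {ν : Measure Om} [IsProbabilityMeasure ν] (hν : MeasurePreserving sh ν ν)
    {h c : ℝ} (h0 : 0 ≤ h) (H : ∀ ε : ℝ, 0 < ε → ∀ n₀ : ℕ, ∃ n, n₀ ≤ n ∧
      ∃ S : Finset (Fin n → ℕ × ℕ), (S.card : ℝ) ≤ Real.exp ((h + ε) * n) ∧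
        ν.real {y | win 0 n y ∉ S} ≤ ε) (hc : Ent sh ν c) : c ≤ h := by
  classical
  obtain ⟨k, P, hP, hd, hu, hn⟩ := hc
  by_contra hlt
  set δ : ℝ := c - h with hδ
  have hδ0 : 0 < δ := by rw [hδ]; linarith [not_le.1 hlt]
  have hex : ∀ x : Om, ∃ i, x ∈ P i := fun x => mem_iUnion.1 (hu ▸ mem_univ x)
  choose Q hQ using hex
  have hQP : ∀ i, Q ⁻¹' {i} = P i := by
    intro i
    ext x
    constructor
    · intro hx
      have : Q x = i := hx
      exact this ▸ hQ x
    · intro hx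
      by_contra hne
      exact Set.disjoint_left.1 (hd _ _ hne) (hQ x) hx
  have hk : 0 < k := lt_of_le_of_lt (Nat.zero_le _) (Q fun _ => (0, 0)).2
  have hk1 : (1 : ℝ) ≤ k := by exact_mod_cast hk
  set θ : ℝ := 1 - Real.exp (-(δ / 8)) with hθ
  have hθ0 : 0 < θ := by
    have : Real.exp (-(δ / 8)) < 1 := Real.exp_lt_one_iff.2 (by linarith)
    linarith
  have hθ1 : θ < 1 := by linarith [Real.exp_pos (-(δ / 8))]
  set A : ℝ := Real.log (k / θ) with hA
  have hA0 : 0 ≤ A := Real.log_nonneg (by rw [le_div_iff₀ hθ0]; linarith)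
  have hL0 : 0 ≤ Real.log k := Real.log_nonneg hk1
  obtain ⟨r, g, hg⟩ := approx_win (ν := ν) Q (fun i => (hQP i).symm ▸ hP i)
    (ε := δ / (8 * (A + 1))) (by positivity)
  set Bd : Set Om := {y | Q y ≠ g (win (-r) (2 * r + 1) y)} with hBd
  have hBm : MeasurableSet Bd := by
    have : Bd = ⋃ i, P i ∩ win (-r) (2 * r + 1) ⁻¹' {w | i ≠ g w} := by
      ext y
      simp only [hBd, mem_ofPred_eq, mem_iUnion, mem_inter_iff, mem_preimage]
      constructor
      · intro hy
        exact ⟨Q y, hQ y, hy⟩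
      · rintro ⟨i, hi, hy⟩
        have : Q y = i := by
          rw [← hQP] at hi
          exact hi
        rwa [this]
    rw [this]
    exact MeasurableSet.iUnion fun i => (hP i).inter (upper_meas _ _ _)
  have hAB : A * ν.real Bd ≤ δ / 8 := by
    calc A * ν.real Bd ≤ (A + 1) * (δ / (8 * (A + 1))) :=
          mul_le_mul (by linarith) hg measureReal_nonneg (by linarith)
      _ = δ / 8 := by field_simp
  set ε : ℝ := δ / (8 * (Real.log k + 1)) with hε
  have hε0 : 0 < ε := by positivity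
  have hε1 : (Real.log k + 1) * ε = δ / 8 := by rw [hε]; field_simp
  have hε2 : ε ≤ δ / 8 := by nlinarith
  obtain ⟨n₀, hn₀⟩ := exists_nat_gt (2 * (Real.log 2 + (h + δ / 8) * (2 * r)) / δ)
  obtain ⟨n, hnn, S, hS, hSν⟩ := H ε hε0 (n₀ + 1 + 2 * r)
  obtain ⟨n', rfl⟩ : ∃ n', n = n' + 2 * r := ⟨n - 2 * r, by omega⟩
  have hn0 : 0 < n' := by omega
  have hn0' : (0 : ℝ) < n' := by exact_mod_cast hn0
  have hn2 : 2 * (Real.log 2 + (h + δ / 8) * (2 * r)) < δ * n' := by
    rw [div_lt_iff₀ hδ0] at hn₀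
    have h1 : (n₀ : ℝ) ≤ n' := by exact_mod_cast (by omega : n₀ ≤ n')
    nlinarith
  set D : (Fin (n' + 2 * r) → ℕ × ℕ) → Set Om := fun j => win (-r) (n' + 2 * r) ⁻¹' {j} with hD
  have hU : ν.real (⋃ j ∈ S, D j)ᶜ ≤ ε := by
    have e1 : (⋃ j ∈ S, D j)ᶜ = win (-r) (n' + 2 * r) ⁻¹' {w | w ∉ S} := by
      ext y
      simp [hD]
    have e2 : {y | win 0 (n' + 2 * r) y ∉ S} =
        sh^[r] ⁻¹' (win (-r) (n' + 2 * r) ⁻¹' {w | w ∉ S}) := by
      ext y
      have : win (-r) (n' + 2 * r) (sh^[r] y) = win 0 (n' + 2 * r) y := by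
        funext i
        simp only [win]
        rw [upper_iter]
        congr 1
        ring
      simp only [mem_ofPred_eq, mem_preimage, this]
    rw [e1, Measure.real, ← (hν.iterate r).measure_preimage (upper_meas _ _ _).nullMeasurableSet,
      ← e2]
    exact hSν
  have key := gibbs hν hP hd hu S (D := D) (fun j _ => upper_meas _ _ _) hBm n'
    (fun j i => g fun t : Fin (2 * r + 1) =>
      if ht : i + (t : ℕ) < n' + 2 * r then j ⟨i + t, ht⟩ else (0, 0))
    (fun j _ x hx i hi hB => by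
      have h1 : Q (sh^[i] x) = g (win (-r) (2 * r + 1) (sh^[i] x)) := not_not.1 hB
      have h2 : win (-r) (n' + 2 * r) x = j := hx
      have h3 : win (-r) (2 * r + 1) (sh^[i] x) = fun t : Fin (2 * r + 1) =>
          if ht : i + (t : ℕ) < n' + 2 * r then j ⟨i + t, ht⟩ else (0, 0) := by
        funext t
        have ht : i + (t : ℕ) < n' + 2 * r := by have := t.2; omega
        rw [dif_pos ht, ← h2]
        simp only [win]
        rw [upper_iter]
        congr 1
        push_cast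
        ring
      rw [← h3, ← h1]
      exact hQ _) hθ0 hθ1
  rw [← hA, hθ, sub_sub_cancel, Real.log_exp] at key
  have h1 : Real.log ((S.card : ℝ) + 1) ≤ Real.log 2 + (h + ε) * ((n' + 2 * r : ℕ) : ℝ) := by
    have h2 : (1 : ℝ) ≤ Real.exp ((h + ε) * ((n' + 2 * r : ℕ) : ℝ)) :=
      Real.one_le_exp (by positivity)
    calc Real.log ((S.card : ℝ) + 1) ≤
          Real.log (2 * Real.exp ((h + ε) * ((n' + 2 * r : ℕ) : ℝ))) :=
          Real.log_le_log (by positivity) (by linarith)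
      _ = _ := by rw [Real.log_mul (by norm_num) (Real.exp_pos _).ne', Real.log_exp]
  have h2 : Real.log k * ν.real (⋃ j ∈ S, D j)ᶜ ≤ δ / 8 := by
    calc Real.log k * ν.real (⋃ j ∈ S, D j)ᶜ ≤ (Real.log k + 1) * ε :=
          mul_le_mul (by linarith) hU measureReal_nonneg (by linarith)
      _ = δ / 8 := hε1
  have h3 := mul_le_mul_of_nonneg_left hAB hn0'.le
  have h4 := mul_le_mul_of_nonneg_left h2 hn0'.le
  have h5 : (h + ε) * ((n' + 2 * r : ℕ) : ℝ) ≤ (h + δ / 8) * (n' + 2 * r) := by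
    push_cast
    exact mul_le_mul_of_nonneg_right (by linarith) (by positivity)
  have h6 := hn n' hn0
  have h7 : c = h + δ := by rw [hδ]; ring
  rw [h7] at h6
  nlinarith

end UpperPart

section LoopUPart

/-! Entropy bound in a loop shift. -/


open MeasureTheory Set Filter Topology

lemma loopu_lists {l : ℕ → ℕ} {z : ℝ} (hz : 1 ≤ z) (hr : Rate l z) (g : ℕ) :
    ∃ S : Finset (List ℕ), (∀ v, Pos l v → len l v = g → v ∈ S) ∧ (S.card : ℝ) ≤ z ^ g := by
  have hz0 : 0 < z := by linarith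
  have key : ∀ S : Finset (List ℕ), (↑S : Set (List ℕ)) ⊆ {v | Pos l v ∧ len l v = g} →
      (S.card : ℝ) ≤ z ^ g := fun S hS =>
    card_le_of_Phi (l := l) (A := univ) hz0 (fun F _ => hr F) g S fun v hv =>
      ⟨(hS hv).1, (hS hv).2, fun _ _ => mem_univ _⟩
  have hf : {v | Pos l v ∧ len l v = g}.Finite := by
    by_contra hinf
    obtain ⟨N, hN⟩ := exists_nat_gt (z ^ g)
    obtain ⟨S, h1, h2⟩ := Set.Infinite.exists_subset_card_eq hinf N
    have := key S h1
    rw [h2] at this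
    linarith
  exact ⟨hf.toFinset, fun v h1 h2 => hf.mem_toFinset.2 ⟨h1, h2⟩, key _ (by simp)⟩

lemma loopu_lists_le {l : ℕ → ℕ} {z : ℝ} (hz : 1 ≤ z) (hr : Rate l z) (N : ℕ) :
    ∃ S : Finset (List ℕ), (∀ v, Pos l v → len l v ≤ N → v ∈ S) ∧
      (S.card : ℝ) ≤ (N + 1) * z ^ N := by
  classical
  choose S h1 h2 using loopu_lists hz hr
  refine ⟨(Finset.range (N + 1)).biUnion S, fun v a b => Finset.mem_biUnion.2
    ⟨len l v, Finset.mem_range.2 (by omega), h1 _ v a rfl⟩, ?_⟩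
  calc (((Finset.range (N + 1)).biUnion S).card : ℝ)
      ≤ ((∑ g ∈ Finset.range (N + 1), (S g).card : ℕ) : ℝ) := by
        exact_mod_cast Finset.card_biUnion_le
    _ = ∑ g ∈ Finset.range (N + 1), ((S g).card : ℝ) := by push_cast; rfl
    _ ≤ ∑ _g ∈ Finset.range (N + 1), z ^ N := Finset.sum_le_sum fun g hg =>
        (h2 g).trans (pow_le_pow_right₀ hz (by have := Finset.mem_range.1 hg; omega))
    _ = (N + 1) * z ^ N := by simp

lemma loopu_words {l : ℕ → ℕ} {z : ℝ} (hz : 1 ≤ z) (hr : Rate l z) (L n : ℕ) :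
    ∃ S : Finset (Fin n → ℕ × ℕ), (S.card : ℝ) ≤ L * ((n + 2 * L + 1) * z ^ (n + 2 * L)) ∧
      ∀ y ∈ LS l, l (y 0).1 ≤ L → l (y n).1 ≤ L → win 0 n y ∈ S := by
  classical
  obtain ⟨V, h1, h2⟩ := loopu_lists_le hz hr (n + 2 * L)
  refine ⟨(Finset.range L ×ˢ V).image fun p (i : Fin n) => vtx l p.2 (p.1 + i), ?_,
    fun y hy a b => ?_⟩
  · calc (((Finset.range L ×ˢ V).image fun p (i : Fin n) => vtx l p.2 (p.1 + i)).card : ℝ)
        ≤ ((Finset.range L ×ˢ V).card : ℝ) := by exact_mod_cast Finset.card_image_le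
      _ = L * (V.card : ℝ) := by simp
      _ ≤ _ := by
        refine mul_le_mul_of_nonneg_left ?_ (Nat.cast_nonneg _)
        simpa using h2
  · have p0 := LS_lt hy 0
    have pn := LS_lt hy n
    have s0 : y (0 - (y 0).2) = ((y 0).1, 0) := LS_back hy rfl
    have sn : y (n - (y n).2) = ((y n).1, 0) := LS_back hy rfl
    obtain ⟨v, hv, e⟩ := exists_occ hy (s := 0 - (y 0).2) (by rw [s0]) (LS_next hy sn) (by omega)
    refine Finset.mem_image.2 ⟨((y 0).2, v), Finset.mem_product.2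
      ⟨Finset.mem_range.2 (by omega), h1 v (hv.pos hy) (by omega)⟩, ?_⟩
    funext i
    have hi := i.2
    have := hv.vtx hy (j := (y 0).2 + i) (by omega)
    simp only [win]
    rw [← this]
    congr 1
    push_cast
    ring

lemma loopu_small (l : ℕ → ℕ) (ν : Measure Om) [IsProbabilityMeasure ν] {ε : ℝ} (hε : 0 < ε) :
    ∃ L : ℕ, ν.real {y | L < l (y 0).1} ≤ ε := by
  have hm : ∀ L : ℕ, MeasurableSet {y : Om | L < l (y 0).1} := fun L =>
    (measurable_pi_apply 0 : Measurable fun x : Om => x 0)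
      (MeasurableSet.of_discrete : MeasurableSet {p : ℕ × ℕ | L < l p.1})
  have h1 : Tendsto (fun L : ℕ => ν {y : Om | L < l (y 0).1}) atTop
      (𝓝 (ν (⋂ L : ℕ, {y : Om | L < l (y 0).1}))) :=
    tendsto_measure_iInter_atTop (fun L => (hm L).nullMeasurableSet)
      (fun a b hab y hy => lt_of_le_of_lt hab hy) ⟨0, measure_ne_top _ _⟩
  have h2 : (⋂ L : ℕ, {y : Om | L < l (y 0).1}) = ∅ :=
    eq_empty_of_forall_notMem fun y hy => lt_irrefl (l (y 0).1) (mem_iInter.1 hy (l (y 0).1))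
  rw [h2, measure_empty] at h1
  have h3 := (ENNReal.tendsto_toReal ENNReal.zero_ne_top).comp h1
  obtain ⟨L, hL⟩ := (h3.eventually (ge_mem_nhds (by simpa using hε))).exists
  exact ⟨L, hL⟩

lemma loopu_grow (C : ℝ) {ε : ℝ} (hε : 0 < ε) (n₀ : ℕ) :
    ∃ n : ℕ, n₀ ≤ n ∧ 1 ≤ n ∧ C * n ≤ Real.exp (ε * n) := by
  obtain ⟨N, hN⟩ := exists_nat_gt (4 * C / ε ^ 2)
  refine ⟨max (max n₀ 1) N, by omega, by omega, ?_⟩
  set n : ℕ := max (max n₀ 1) N with hn
  have h1 : (N : ℝ) ≤ n := by exact_mod_cast le_max_right _ _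
  have h0 : (0 : ℝ) ≤ n := Nat.cast_nonneg _
  have h2 : 4 * C ≤ n * ε ^ 2 := by
    rw [div_lt_iff₀ (by positivity)] at hN
    nlinarith [sq_nonneg ε]
  have h3 := Real.add_one_le_exp (ε * n / 2)
  have h4 : Real.exp (ε * n) = Real.exp (ε * n / 2) ^ 2 := by
    rw [← Real.exp_nat_mul]; congr 1; push_cast; ring
  have h5 : (ε * n / 2) ^ 2 ≤ Real.exp (ε * n / 2) ^ 2 :=
    pow_le_pow_left₀ (by positivity) (by linarith) 2
  rw [h4]
  nlinarith

theorem ent_le_of_rate {l : ℕ → ℕ} {z : ℝ} (hz : 1 ≤ z) (hr : Rate l z) {ν : Measure Om}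
    [IsProbabilityMeasure ν] (hν : MeasurePreserving sh ν ν) (hL : ν (LS l)ᶜ = 0) {c : ℝ}
    (hc : Ent sh ν c) : c ≤ Real.log z := by
  have hz0 : 0 < z := by linarith
  refine ent_le_of_words hν (Real.log_nonneg hz) (fun ε hε n₀ => ?_) hc
  obtain ⟨L, hsm⟩ := loopu_small l ν (half_pos hε)
  obtain ⟨n, h1, h2, h3⟩ := loopu_grow (L * (2 * L + 2) * z ^ (2 * L)) hε n₀
  obtain ⟨S, s1, s2⟩ := loopu_words hz hr L n
  refine ⟨n, h1, S, s1.trans ?_, ?_⟩
  · have e1 : Real.exp ((Real.log z + ε) * n) = z ^ n * Real.exp (ε * n) := by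
      rw [add_mul, Real.exp_add, mul_comm (Real.log z), Real.exp_nat_mul, Real.exp_log hz0]
    have e2 : (1 : ℝ) ≤ n := by exact_mod_cast h2
    have e3 : (n : ℝ) + 2 * L + 1 ≤ (2 * L + 2) * n := by
      nlinarith [(Nat.cast_nonneg L : (0 : ℝ) ≤ L)]
    rw [e1, pow_add]
    calc (L : ℝ) * ((n + 2 * L + 1) * (z ^ n * z ^ (2 * L)))
        ≤ L * (((2 * L + 2) * n) * (z ^ n * z ^ (2 * L))) := by gcongr
      _ = z ^ n * (L * (2 * L + 2) * z ^ (2 * L) * n) := by ring
      _ ≤ _ := by gcongr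
  · have hm : MeasurableSet {y : Om | L < l (y 0).1} :=
      (measurable_pi_apply 0 : Measurable fun x : Om => x 0)
        (MeasurableSet.of_discrete : MeasurableSet {p : ℕ × ℕ | L < l p.1})
    have e1 : ν.real (zp sh n ⁻¹' {y : Om | L < l (y 0).1}) = ν.real {y : Om | L < l (y 0).1} := by
      simp only [Measure.real]
      rw [(measurePreserving_zp measurable_sh_symm hν n).measure_preimage hm.nullMeasurableSet]
    have e2 : ν.real (LS l)ᶜ = 0 := by simp [Measure.real, hL]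
    calc ν.real {y | win 0 n y ∉ S}
        ≤ ν.real ((LS l)ᶜ ∪ ({y : Om | L < l (y 0).1} ∪ zp sh n ⁻¹' {y : Om | L < l (y 0).1})) := by
          refine measureReal_mono (fun y hy => ?_) (measure_ne_top _ _)
          by_contra h
          simp only [mem_union, not_or, mem_compl_iff, not_not, mem_preimage, mem_ofPred_eq,
            zp_sh, zero_add, not_lt] at h
          exact hy (s2 y h.1 h.2.1 h.2.2)
      _ ≤ ν.real (LS l)ᶜ + (ν.real {y : Om | L < l (y 0).1} +
          ν.real (zp sh n ⁻¹' {y : Om | L < l (y 0).1})) :=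
          (measureReal_union_le _ _).trans (add_le_add le_rfl (measureReal_union_le _ _))
      _ ≤ ε := by rw [e1, e2]; linarith

end LoopUPart

section LiftPart

/-! First return loops of a Markov shift. -/


open MeasureTheory Set Filter Topology

/-- First return loops at the vertex `v`. -/
def liftLoop (G : Set (ℕ × ℕ)) (v : ℕ) (u : List ℕ) : Prop :=
  u.getD 0 0 = v ∧ (∀ i, 0 < i → i < u.length → u.getD i 0 ≠ v) ∧
    (∀ i, i + 1 < u.length → (u.getD i 0, u.getD (i + 1) 0) ∈ G) ∧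
    ∀ i, i + 1 = u.length → (u.getD i 0, v) ∈ G

open Classical in
/-- Lengths of the first return loops. -/
noncomputable def liftLen (G : Set (ℕ × ℕ)) (v : ℕ) (n : ℕ) : ℕ :=
  if liftLoop G v (dec n) then (dec n).length else 0

/-- The letters read along a path of loops. -/
def liftPi (y : Om) (t : ℤ) : ℕ := (dec (y t).1).getD (y t).2 0

variable {G : Set (ℕ × ℕ)} {v : ℕ}

lemma lift_of_pos {n : ℕ} (h : 0 < liftLen G v n) :
    liftLoop G v (dec n) ∧ liftLen G v n = (dec n).length := by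
  unfold liftLen at h ⊢
  split_ifs at h ⊢ with h1
  · exact ⟨h1, rfl⟩
  · omega

lemma lift_loop {y : Om} (hy : y ∈ LS (liftLen G v)) (t : ℤ) :
    liftLoop G v (dec (y t).1) ∧ liftLen G v (y t).1 = (dec (y t).1).length :=
  lift_of_pos (lt_of_le_of_lt (Nat.zero_le _) (LS_lt hy t))

lemma lift_eq_iff {y : Om} (hy : y ∈ LS (liftLen G v)) (t : ℤ) :
    liftPi y t = v ↔ (y t).2 = 0 := by
  obtain ⟨h1, h2⟩ := lift_loop hy t
  have h3 := LS_lt hy t
  constructor
  · intro h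
    by_contra h0
    exact h1.2.1 _ (Nat.pos_of_ne_zero h0) (h2 ▸ h3) h
  · intro h
    unfold liftPi
    rw [h]
    exact h1.1

lemma lift_maps : MapsTo liftPi (LS (liftLen G v)) (Markov G) := by
  intro y hy t
  obtain ⟨h1, h2⟩ := lift_loop hy t
  rcases hy t with ⟨h3, h4⟩ | ⟨h3, h4⟩
  · have h5 : liftPi y (t + 1) = (dec (y t).1).getD ((y t).2 + 1) 0 := by
      unfold liftPi
      rw [h4]
    rw [h5]
    exact h1.2.2.1 _ (h2 ▸ h3)
  · rw [(lift_eq_iff hy (t + 1)).2 h4]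
    exact h1.2.2.2 _ (h2 ▸ h3)

lemma lift_dec_inj {a b : ℕ} (h : dec a = dec b) : a = b := by
  have := congrArg (Encodable.encode (α := List ℕ)) h
  simpa [dec] using this

lemma lift_inj : InjOn liftPi (LS (liftLen G v)) := by
  intro y hy y' hy' h
  have h0 : ∀ t, (y t).2 = 0 ↔ (y' t).2 = 0 := fun t => by
    rw [← lift_eq_iff hy t, ← lift_eq_iff hy' t, h]
  refine LS_ext hy hy' fun t γ ht => ?_
  have h1 : y' t = ((y' t).1, 0) := Prod.ext rfl ((h0 t).1 (by rw [ht]))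
  generalize (y' t).1 = γ' at h1
  have h2 := LS_len_eq hy hy' h0 ht h1
  have h3 := (lift_loop hy t).2
  have h4 := (lift_loop hy' t).2
  rw [ht] at h3
  rw [h1] at h4
  simp only at h3 h4
  have h5 : dec γ = dec γ' := by
    refine List.ext_getElem (by omega) fun i hi hi' => ?_
    have h6 := LS_run hy ht (i := i) (by omega)
    have h7 := LS_run hy' h1 (i := i) (by omega)
    have h8 := congrFun h (t + i)
    unfold liftPi at h8
    rw [h6, h7] at h8
    simp only [zero_add] at h8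
    rwa [List.getD_eq_getElem _ _ hi, List.getD_eq_getElem _ _ hi'] at h8
  rw [h1, lift_dec_inj h5]

lemma lift_meas : Measurable liftPi :=
  measurable_pi_lambda _ fun t =>
    (measurable_of_countable fun p : ℕ × ℕ => (dec p.1).getD p.2 0).comp (measurable_pi_apply t)

lemma lift_onto {x : ℤ → ℕ} (hx : x ∈ Markov G)
    (hP : ∀ m : ℤ, (∃ t, m ≤ t ∧ x t = v) ∧ ∃ t, t ≤ m ∧ x t = v) :
    x ∈ liftPi '' LS (liftLen G v) := by
  have key : ∀ t : ℤ, ∃ γ : ℕ, x t = v → 0 < liftLen G v γ ∧ x (t + liftLen G v γ) = v ∧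
      (∀ s, t < s → s < t + liftLen G v γ → x s ≠ v) ∧
      ∀ i, i < liftLen G v γ → (dec γ).getD i 0 = x (t + i) := by
    intro t
    by_cases ht : x t = v
    swap
    · exact ⟨0, fun h => absurd h ht⟩
    obtain ⟨t', ⟨h4, h5⟩, h6⟩ := Int.exists_least_of_bdd (P := fun z => t + 1 ≤ z ∧ x z = v)
      ⟨t + 1, fun z hz => hz.1⟩ (hP (t + 1)).1
    obtain ⟨n, rfl⟩ : ∃ n : ℕ, t' = t + n := ⟨(t' - t).toNat, by omega⟩
    set u : List ℕ := (List.range n).map fun i : ℕ => x (t + i) with hu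
    have hl : u.length = n := by simp [hu]
    have hg : ∀ i, i < n → u.getD i 0 = x (t + i) := fun i hi => by
      rw [List.getD_eq_getElem _ _ (by omega)]
      simp [hu]
    have hmid : ∀ s, t < s → s < t + n → x s ≠ v := fun s h1 h2 h3 => by
      have := h6 s ⟨by omega, h3⟩
      omega
    have hloop : liftLoop G v u := by
      refine ⟨?_, fun i h1 h2 => ?_, fun i h1 => ?_, fun i h1 => ?_⟩
      · rw [hg 0 (by omega)]
        simpa using ht
      · rw [hg i (by omega)]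
        exact hmid _ (by omega) (by omega)
      · rw [hg i (by omega), hg (i + 1) (by omega), Nat.cast_succ, ← add_assoc]
        exact hx _
      · have h2 := hx (t + i)
        rw [hg i (by omega)]
        rwa [show t + i + 1 = t + n by omega, h5] at h2
    have hd : dec (Encodable.encode u) = u := by simp [dec]
    have hlen : liftLen G v (Encodable.encode u) = n := by
      unfold liftLen
      rw [hd, if_pos hloop, hl]
    refine ⟨Encodable.encode u, fun _ => ?_⟩
    rw [hlen, hd]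
    exact ⟨by omega, h5, hmid, hg⟩
  choose γ hγ using key
  obtain ⟨y, hy, hocc⟩ := exists_of_cuts (l := liftLen G v) (P := fun t => x t = v) hP
    (V := fun t => [γ t]) fun t ht => by
      obtain ⟨h1, h2, h3, -⟩ := hγ t ht
      simp only [len_cons, len_nil, add_zero]
      exact ⟨by simpa using h1, by simp, h2, h3⟩
  refine ⟨y, hy, funext fun s => ?_⟩
  obtain ⟨t, t', h1, h2, h3, -, h5⟩ := exists_block (P := fun t => x t = v) hP s
  obtain ⟨g1, g2, -, g4⟩ := hγ t h3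
  obtain ⟨i, rfl⟩ : ∃ i : ℕ, s = t + i := ⟨(s - t).toNat, by omega⟩
  have hi : i < liftLen G v (γ t) := by
    by_contra hc
    exact h5 _ (by omega) (by omega) g2
  have h6 := LS_run hy (hocc t h3).1 (i := i) (by omega)
  unfold liftPi
  rw [h6]
  simp only [zero_add]
  exact g4 i hi

theorem exists_loops (G : Set (ℕ × ℕ)) {ν : Measure (ℤ → ℕ)} [IsProbabilityMeasure ν]
    (he : Ergodic sh ν) (hG : ν (Markov G)ᶜ = 0) : ∃ (l : ℕ → ℕ) (π : Om → ℤ → ℕ),
      Emb sh sh (LS l) π ∧ MapsTo π (LS l) (Markov G) ∧ ν (π '' LS l)ᶜ = 0 := by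
  obtain ⟨v, hv⟩ : ∃ v : ℕ, ν {x | x 0 = v} ≠ 0 := by
    by_contra hc
    push Not at hc
    have h1 : ν (⋃ v : ℕ, {x | x 0 = v}) = 0 := measure_iUnion_null hc
    have h2 : (⋃ v : ℕ, {x : ℤ → ℕ | x 0 = v}) = univ := by
      ext x
      simp
    rw [h2, measure_univ] at h1
    exact one_ne_zero h1
  have hm : MeasurableSet {x : ℤ → ℕ | x 0 = v} :=
    measurableSet_eq_fun (measurable_pi_apply (0 : ℤ)) measurable_const
  have hr := ae_recur he measurable_sh_symm hm hv
  refine ⟨liftLen G v, liftPi, ⟨lift_meas, measurableSet_LS, fun _ => LS_sh, lift_inj,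
    fun _ _ => rfl⟩, lift_maps, ?_⟩
  refine measure_mono_null (fun x hx => ?_) (measure_union_null hG hr)
  by_contra hc
  simp only [mem_union, mem_compl_iff, not_or, not_not] at hc
  refine hx (lift_onto hc.1 fun m => ?_)
  have h3 := hc.2 m
  simpa only [mem_ofPred_eq, zp_sh, zero_add] using h3

end LiftPart

section ProdEPart

/-! The product of an ergodic system with a Bernoulli shift. -/


open MeasureTheory Set Filter Topology ProbabilityTheory
open scoped symmDiff ENNReal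

lemma prode_measurable_sh : Measurable (sh : (ℤ → ℝ) → ℤ → ℝ) :=
  measurable_pi_lambda _ fun n => measurable_pi_apply (n + 1)

lemma measurePreserving_PB : MeasurePreserving sh PB PB := by
  refine ⟨prode_measurable_sh, ?_⟩
  exact Measure.map_infinitePi_infinitePi_of_inj (P := fun _ : ℤ => PU)
    (f := fun n : ℤ => n + 1) (add_left_injective 1)

lemma prode_iter (n : ℕ) (x : ℤ → ℝ) (i : ℤ) : (sh : (ℤ → ℝ) → ℤ → ℝ)^[n] x i = x (i + n) := by
  induction n generalizing x i with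
  | zero => simp
  | succ n ih =>
    rw [Function.iterate_succ_apply, ih]
    show x (i + n + 1) = x (i + ((n + 1 : ℕ) : ℤ))
    congr 1
    push_cast
    ring

/-- A set which depends only on the coordinates in `I`. -/
def prodeDep (I : Finset ℤ) (S : Set (ℤ → ℝ)) : Prop :=
  ∀ x y : ℤ → ℝ, (∀ i ∈ I, x i = y i) → x ∈ S → y ∈ S

lemma prode_rep {I : Finset ℤ} {S : Set (ℤ → ℝ)} (hS : MeasurableSet S) (hI : prodeDep I S) :
    ∃ B : Set (I → ℝ), MeasurableSet B ∧ S = (fun (a : ℤ → ℝ) (i : I) => a i) ⁻¹' B := by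
  classical
  let ext : (I → ℝ) → ℤ → ℝ := fun u i => if h : i ∈ I then u ⟨i, h⟩ else 0
  have hext : Measurable ext := by
    refine measurable_pi_lambda _ fun i => ?_
    by_cases h : i ∈ I
    · simp only [ext, dif_pos h]
      exact measurable_pi_apply _
    · simp only [ext, dif_neg h]
      exact measurable_const
  refine ⟨ext ⁻¹' S, hext hS, ?_⟩
  ext x
  simp only [mem_preimage]
  constructor
  · exact hI _ _ fun i hi => by simp [ext, hi]
  · exact hI _ _ fun i hi => by simp [ext, hi]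

lemma prode_indep {I J : Finset ℤ} (hIJ : Disjoint I J) {S U : Set (ℤ → ℝ)}
    (hS : MeasurableSet S) (hU : MeasurableSet U) (hI : prodeDep I S) (hJ : prodeDep J U) :
    PB (S ∩ U) = PB S * PB U := by
  obtain ⟨B, hB, rfl⟩ := prode_rep hS hI
  obtain ⟨C, hC, rfl⟩ := prode_rep hU hJ
  have h0 : iIndepFun (fun (i : ℤ) (ω : ℤ → ℝ) => ω i) PB :=
    iIndepFun_infinitePi (P := fun _ : ℤ => PU) (X := fun _ ω => ω) fun _ => measurable_id
  exact (h0.indepFun_finset I J hIJ fun i => measurable_pi_apply i).measure_inter_preimage_eq_mul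
    B C hB hC

lemma prode_mix {k : ℕ} {S U : Set (ℤ → ℝ)} (hS : MeasurableSet S) (hU : MeasurableSet U)
    (hI : prodeDep (Finset.Icc (-(k : ℤ)) k) S) (hJ : prodeDep (Finset.Icc (-(k : ℤ)) k) U) :
    PB (S ∩ (sh : (ℤ → ℝ) → ℤ → ℝ)^[2 * k + 1] ⁻¹' U) = PB S * PB U := by
  have hm := measurePreserving_PB.iterate (2 * k + 1)
  rw [← hm.measure_preimage hU.nullMeasurableSet]
  refine prode_indep (J := Finset.Icc ((k : ℤ) + 1) (3 * k + 1)) ?_ hS (hm.measurable hU) hI ?_
  · rw [Finset.disjoint_left]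
    intro i h1 h2
    rw [Finset.mem_Icc] at h1 h2
    omega
  · intro x y hxy hx
    refine hJ _ _ (fun i hi => ?_) hx
    rw [prode_iter, prode_iter]
    apply hxy
    rw [Finset.mem_Icc] at hi ⊢
    push_cast
    omega

/-- The ring of measurable sets depending on finitely many coordinates. -/
def prodeC (G : Type*) [MeasurableSpace G] : Set (Set (G × (ℤ → ℝ))) :=
  {S | MeasurableSet S ∧ ∃ k : ℕ, ∀ g, prodeDep (Finset.Icc (-(k : ℤ)) k) (Prod.mk g ⁻¹' S)}

lemma prode_mono {I J : Finset ℤ} (h : I ⊆ J) {S : Set (ℤ → ℝ)} (hI : prodeDep I S) :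
    prodeDep J S := fun x y hxy => hI x y fun i hi => hxy i (h hi)

lemma prode_Icc {k l : ℕ} (h : k ≤ l) :
    Finset.Icc (-(k : ℤ)) k ⊆ Finset.Icc (-(l : ℤ)) l :=
  Finset.Icc_subset_Icc (by omega) (by omega)

lemma prode_ring (G : Type*) [MeasurableSpace G] : IsSetRing (prodeC G) where
  empty_mem := ⟨MeasurableSet.empty, 0, fun _ _ _ _ h => h⟩
  union_mem := by
    rintro s t ⟨hs, k, hk⟩ ⟨ht, l, hl⟩
    refine ⟨hs.union ht, max k l, fun g x y hxy hx => ?_⟩
    rcases hx with hx | hx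
    · exact Or.inl (prode_mono (prode_Icc (le_max_left k l)) (hk g) x y hxy hx)
    · exact Or.inr (prode_mono (prode_Icc (le_max_right k l)) (hl g) x y hxy hx)
  sdiff_mem := by
    rintro s t ⟨hs, k, hk⟩ ⟨ht, l, hl⟩
    refine ⟨hs.diff ht, max k l, fun g x y hxy hx => ?_⟩
    exact ⟨prode_mono (prode_Icc (le_max_left k l)) (hk g) x y hxy hx.1, fun hy =>
      hx.2 (prode_mono (prode_Icc (le_max_right k l)) (hl g) y x
        (fun i hi => (hxy i hi).symm) hy)⟩

lemma prode_gen (G : Type*) [mG : MeasurableSpace G] :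
    (Prod.instMeasurableSpace : MeasurableSpace (G × (ℤ → ℝ))) =
      MeasurableSpace.generateFrom (prodeC G) := by
  refine le_antisymm ?_ (MeasurableSpace.generateFrom_le fun s hs => hs.1)
  refine sup_le ?_ ?_
  · rw [← measurable_iff_comap_le]
    intro U hU
    exact MeasurableSpace.measurableSet_generateFrom
      ⟨measurable_fst hU, 0, fun _ _ _ _ h => h⟩
  · rw [← measurable_iff_comap_le]
    refine @measurable_pi_lambda _ _ _ (MeasurableSpace.generateFrom (prodeC G)) _ _ fun i => ?_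
    intro V hV
    refine MeasurableSpace.measurableSet_generateFrom
      ⟨((measurable_pi_apply i).comp measurable_snd) hV, i.natAbs, fun g x y hxy hx => ?_⟩
    have hi : x i = y i := hxy i (by rw [Finset.mem_Icc]; omega)
    have hx' : x i ∈ V := hx
    show y i ∈ V
    exact hi ▸ hx'

lemma prode_approx {G : Type*} [MeasurableSpace G] (ν : Measure (G × (ℤ → ℝ)))
    [IsFiniteMeasure ν] {A : Set (G × (ℤ → ℝ))} (hA : MeasurableSet A) {ε : ℝ≥0∞} (hε : 0 < ε) :
    ∃ B ∈ prodeC G, ν (B ∆ A) < ε := by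
  refine exists_measure_symmDiff_lt_of_generateFrom_isSetRing (prode_ring G)
    ⟨{univ}, countable_singleton _, ?_, by simp⟩ (prode_gen G) hA hε
  rintro s rfl
  exact ⟨MeasurableSet.univ, 0, fun _ _ _ _ h => h⟩

/-- The inequality in one fibre. -/
lemma prode_fibre {k : ℕ} {S U S' U' : Set (ℤ → ℝ)} (hS' : MeasurableSet S')
    (hU : MeasurableSet U) (hU' : MeasurableSet U')
    (hI : prodeDep (Finset.Icc (-(k : ℤ)) k) S') (hJ : prodeDep (Finset.Icc (-(k : ℤ)) k) U')
    (hSU : S = (sh : (ℤ → ℝ) → ℤ → ℝ)^[2 * k + 1] ⁻¹' U) :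
    PB S ≤ PB S * PB S + 2 * PB (S' ∆ S) + 2 * PB (U' ∆ U) := by
  have hm := measurePreserving_PB.iterate (2 * k + 1)
  have e1 : PB S = PB U := by rw [hSU, hm.measure_preimage hU.nullMeasurableSet]
  have e2 : PB ((sh : (ℤ → ℝ) → ℤ → ℝ)^[2 * k + 1] ⁻¹' (U' ∆ U)) = PB (U' ∆ U) :=
    hm.measure_preimage (hU'.symmDiff hU).nullMeasurableSet
  have h1 : S ⊆ (S' ∩ (sh : (ℤ → ℝ) → ℤ → ℝ)^[2 * k + 1] ⁻¹' U') ∪ (S' ∆ S) ∪
      (sh : (ℤ → ℝ) → ℤ → ℝ)^[2 * k + 1] ⁻¹' (U' ∆ U) := by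
    intro x hx
    have hx' : (sh : (ℤ → ℝ) → ℤ → ℝ)^[2 * k + 1] x ∈ U := by rw [hSU] at hx; exact hx
    by_cases a : x ∈ S'
    · by_cases b : (sh : (ℤ → ℝ) → ℤ → ℝ)^[2 * k + 1] x ∈ U'
      · exact Or.inl (Or.inl ⟨a, b⟩)
      · exact Or.inr (Or.inr ⟨hx', b⟩)
    · exact Or.inl (Or.inr (Or.inr ⟨hx, a⟩))
  have h2 : PB S ≤ PB S' * PB U' + PB (S' ∆ S) + PB (U' ∆ U) := by
    rw [← prode_mix hS' hU' hI hJ, ← e2]
    exact (measure_mono h1).trans ((measure_union_le _ _).trans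
      (add_le_add_left (measure_union_le _ _) _))
  have h3 : ∀ V V' : Set (ℤ → ℝ), PB V' ≤ PB V + PB (V' ∆ V) := fun V V' => by
    refine (measure_mono ?_).trans (measure_union_le _ _)
    intro x hx
    by_cases a : x ∈ V
    · exact Or.inl a
    · exact Or.inr (Or.inl ⟨hx, a⟩)
  have h4 : PB S' * PB U' ≤ PB S * PB S + PB (S' ∆ S) + PB (U' ∆ U) := by
    calc PB S' * PB U' ≤ (PB S + PB (S' ∆ S)) * PB U' := by gcongr; exact h3 _ _
      _ = PB S * PB U' + PB (S' ∆ S) * PB U' := add_mul _ _ _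
      _ ≤ PB S * (PB U + PB (U' ∆ U)) + PB (S' ∆ S) * 1 := by
        gcongr
        · exact h3 _ _
        · exact prob_le_one
      _ = PB S * PB S + PB S * PB (U' ∆ U) + PB (S' ∆ S) := by rw [mul_add, mul_one, ← e1]
      _ ≤ PB S * PB S + 1 * PB (U' ∆ U) + PB (S' ∆ S) := by gcongr; exact prob_le_one
      _ = _ := by ring
  calc PB S ≤ _ := h2
    _ ≤ (PB S * PB S + PB (S' ∆ S) + PB (U' ∆ U)) + PB (S' ∆ S) + PB (U' ∆ U) := by gcongr
    _ = _ := by ring

theorem ergodic_prod {G : Type*} [MeasurableSpace G] {μ : Measure G} [IsProbabilityMeasure μ]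
    {R : G → G} (h : Ergodic R μ) :
    Ergodic (Prod.map R (sh : (ℤ → ℝ) → ℤ → ℝ)) (μ.prod PB) := by
  refine ⟨h.toMeasurePreserving.prod measurePreserving_PB, ⟨fun A hA hinv => ?_⟩⟩
  have hsec : ∀ (n : ℕ) (g : G), Prod.mk g ⁻¹' A =
      (sh : (ℤ → ℝ) → ℤ → ℝ)^[n] ⁻¹' (Prod.mk (R^[n] g) ⁻¹' A) := by
    intro n
    induction n with
    | zero => intro g; rfl
    | succ n ih =>
      intro g
      ext x
      have e : (g, x) ∈ A ↔ (R g, sh x) ∈ A := by
        conv_lhs => rw [← hinv]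
        exact Iff.rfl
      have e' : (R g, sh x) ∈ A ↔ _ := Set.ext_iff.1 (ih (R g)) (sh x)
      exact e.trans e'
  have ha : Measurable fun g => PB (Prod.mk g ⁻¹' A) := measurable_measure_prodMk_left hA
  obtain ⟨c, hc⟩ := h.toPreErgodic.ae_eq_const_of_ae_eq_comp ha (by
    funext g
    show PB (Prod.mk (R g) ⁻¹' A) = PB (Prod.mk g ⁻¹' A)
    rw [hsec 1 g]
    exact (measurePreserving_PB.measure_preimage
      (measurable_prodMk_left hA).nullMeasurableSet).symm)
  have hνA : (μ.prod PB) A = c := by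
    rw [Measure.prod_apply hA, lintegral_congr_ae hc]
    simp
  have hc1 : c ≤ 1 := hνA ▸ prob_le_one
  have key : ∀ ε : ℝ≥0∞, 0 < ε → c ≤ c * c + 4 * ε := by
    intro ε hε
    obtain ⟨B, ⟨hB, k, hk⟩, hBA⟩ := prode_approx (μ.prod PB) hA hε
    have hD : MeasurableSet (B ∆ A) := hB.symmDiff hA
    have hd : Measurable fun g => PB (Prod.mk g ⁻¹' (B ∆ A)) := measurable_measure_prodMk_left hD
    have hm := h.toMeasurePreserving.iterate (2 * k + 1)
    have i1 : ∫⁻ g, PB (Prod.mk g ⁻¹' (B ∆ A)) ∂μ ≤ ε := by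
      rw [← Measure.prod_apply hD]
      exact hBA.le
    have i2 : ∫⁻ g, PB (Prod.mk (R^[2 * k + 1] g) ⁻¹' (B ∆ A)) ∂μ ≤ ε := by
      rw [hm.lintegral_comp hd]
      exact i1
    have hp : ∀ᵐ g ∂μ, c ≤ c * c + 2 * PB (Prod.mk g ⁻¹' (B ∆ A)) +
        2 * PB (Prod.mk (R^[2 * k + 1] g) ⁻¹' (B ∆ A)) := by
      filter_upwards [hc] with g hg
      have hg' : PB (Prod.mk g ⁻¹' A) = c := hg
      have := prode_fibre (measurable_prodMk_left hB) (measurable_prodMk_left hA)
        (measurable_prodMk_left hB) (hk g) (hk (R^[2 * k + 1] g)) (hsec (2 * k + 1) g)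
      rw [hg'] at this
      exact this
    calc c = ∫⁻ _, c ∂μ := by simp
      _ ≤ _ := lintegral_mono_ae hp
      _ = c * c + 2 * ∫⁻ g, PB (Prod.mk g ⁻¹' (B ∆ A)) ∂μ +
          2 * ∫⁻ g, PB (Prod.mk (R^[2 * k + 1] g) ⁻¹' (B ∆ A)) ∂μ := by
        have m1 : Measurable fun g => c * c + 2 * PB (Prod.mk g ⁻¹' (B ∆ A)) :=
          measurable_const.add (hd.const_mul 2)
        have m2 : Measurable fun g => PB (Prod.mk (R^[2 * k + 1] g) ⁻¹' (B ∆ A)) :=
          hd.comp hm.measurable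
        rw [lintegral_add_left m1, lintegral_add_left measurable_const, lintegral_const_mul _ hd,
          lintegral_const_mul _ m2, lintegral_const, measure_univ, mul_one]
      _ ≤ c * c + 2 * ε + 2 * ε := by gcongr
      _ = _ := by ring
  have hcc : c ≤ c * c := by
    refine ENNReal.le_of_forall_pos_le_add fun ε hε _ => ?_
    have := key (ε / 4) (ENNReal.div_pos (by exact_mod_cast hε.ne') (by norm_num))
    rwa [ENNReal.mul_div_cancel (by norm_num) (by norm_num)] at this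
  rw [eventuallyConst_set']
  rcases eq_or_ne c 0 with h0 | h0
  · left
    exact ae_eq_empty.2 (hνA.trans h0)
  · right
    have h1 : c = 1 := by
      refine le_antisymm hc1 ?_
      have hct : c ≠ ⊤ := (hc1.trans_lt ENNReal.one_lt_top).ne
      have : c * 1 ≤ c * c := by rwa [mul_one]
      exact (ENNReal.mul_le_mul_iff_right h0 hct).1 this
    exact ae_eq_univ.2 ((prob_compl_eq_zero_iff hA).2 (hνA.trans h1))

end ProdEPart

end Pool.Agent.P.MP_1672e2_an.Cx
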