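import Pool.Agent.P.MP_1672e2_an.Cx.Comb

set_option autoImplicit false

namespace Pool.Agent.P.MP_1672e2_an.Cx

section OdoEPart

/-! The odometer exists. -/


open MeasureTheory Set Filter Topology

lemma odoe_closed (n : ℕ) (a : ZMod (2 ^ n)) :
    IsClosed {g : ℤ_[2] | PadicInt.toZModPow n g = a} := by
  have h : {g : ℤ_[2] | PadicInt.toZModPow n g = a}
      = {g : ℤ_[2] | ‖g - (a.val : ℤ_[2])‖ ≤ ((2 : ℕ) : ℝ) ^ (-(n : ℤ))} := by
    ext g
    simp only [mem_setOf_eq]
    rw [PadicInt.norm_le_pow_iff_mem_span_pow, ← PadicInt.ker_toZModPow, RingHom.mem_ker,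
      map_sub, map_natCast, ZMod.natCast_zmod_val, sub_eq_zero]
  rw [h]
  exact isClosed_le (by fun_prop) continuous_const

theorem exists_odo : ∃ (G : Type) (_ : MeasurableSpace G) (μ : Measure G) (R : G ≃ G)
    (pos : ℕ → G → ℕ), IsProbabilityMeasure μ ∧ Odo μ R pos := by
  obtain ⟨n, hn, hT⟩ := T_pow
  letI : MeasurableSpace ℤ_[2] := borel _
  haveI : BorelSpace ℤ_[2] := ⟨rfl⟩
  let μ : Measure ℤ_[2] := Measure.addHaarMeasure ⊤
  haveI hμ : IsProbabilityMeasure μ :=
    ⟨by rw [← TopologicalSpace.PositiveCompacts.coe_top]; exact Measure.addHaarMeasure_self⟩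
  refine ⟨ℤ_[2], inferInstance, μ, Equiv.addLeft 1,
    fun j g => (PadicInt.toZModPow (n j) g).val, hμ, ?_, ?_, ?_, ?_, ?_, ?_⟩
  · have hd : DenseRange (fun k : ℕ => k • (1 : ℤ_[2])) := by
      simpa using (PadicInt.denseRange_natCast (p := 2))
    exact ergodic_add_left_of_denseRange_nsmul hd μ
  · exact (continuous_const.add continuous_id).measurable
  · intro j
    have h1 : Measurable (fun g : ℤ_[2] => PadicInt.toZModPow (n j) g) :=
      measurable_to_countable' (fun a => (odoe_closed (n j) a).measurableSet)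
    exact (measurable_from_top (f := fun a : ZMod (2 ^ n j) => a.val)).comp h1
  · intro j g
    rw [hT]
    exact ZMod.val_lt _
  · intro j g
    rw [hT]
    show (PadicInt.toZModPow (n j) (1 + g)).val = _
    rw [add_comm, map_add, map_one, ZMod.val_add, ZMod.val_one_eq_one_mod, Nat.add_mod_mod]
  · intro j g
    rw [hT]
    show (PadicInt.toZModPow (n (j + 1)) g).val % 2 ^ n j = (PadicInt.toZModPow (n j) g).val
    rw [← PadicInt.cast_toZModPow (n j) (n (j + 1)) (hn (Nat.le_succ j)) g, ZMod.cast_eq_val,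
      ZMod.val_natCast]

end OdoEPart

section OdoTPart

/-! Types along the odometer. -/


open MeasureTheory Set Filter Topology

variable {G : Type*} [MeasurableSpace G] {μ : Measure G} {R : G ≃ G} {pos : ℕ → G → ℕ}

lemma Odo.pos_zp (h : Odo μ R pos) (j : ℕ) (t : ℤ) (g : G) :
    (pos j (zp R t g) : ℤ) = (pos j g + t) % T j := by
  have hT : (0 : ℤ) < T j := by exact_mod_cast T_pos j
  have hr : ∀ x, (pos j x : ℤ) % T j = pos j x := fun x =>
    Int.emod_eq_of_lt (by positivity) (by exact_mod_cast h.lt j x)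
  have hs : ∀ u : ℤ, (pos j (zp R (u + 1) g) : ℤ) = (pos j (zp R u g) + 1) % T j := by
    intro u
    rw [zp_succ', h.succ]
    push_cast
    rfl
  induction t using Int.induction_on with
  | zero => simp [hr]
  | succ n ih => rw [hs, ih, Int.emod_add_emod, add_assoc]
  | pred n ih =>
    have e := hs (-(n : ℤ) - 1)
    rw [sub_add_cancel, ih] at e
    have e2 : ((pos j (zp R (-(n : ℤ) - 1) g) : ℤ) + 1 - 1) % T j =
        ((pos j g : ℤ) + -(n : ℤ) - 1) % T j := by
      rw [Int.sub_emod, ← e, ← Int.sub_emod]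
    rw [add_sub_cancel_right, hr] at e2
    rw [e2]
    congr 1
    ring

lemma Odo.pos_mod (h : Odo μ R pos) {i j : ℕ} (hij : i ≤ j) (g : G) :
    pos j g % T i = pos i g := by
  induction j, hij using Nat.le_induction with
  | base => exact Nat.mod_eq_of_lt (h.lt i g)
  | succ k hk ih => rw [← ih, ← h.cmp k g, Nat.mod_mod_of_dvd _ (T_dvd_T hk)]

omit [MeasurableSpace G] in
lemma gd_mono {J J' : ℕ} (hJ : J ≤ J') {g : G} (hg : gd pos J g) : gd pos J' g :=
  fun j hj => hg j (lt_of_le_of_lt hJ hj)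

lemma Odo.sk_eq (h : Odo μ R pos) {J J' : ℕ} (hJ : J ≤ J') {g : G} (hg : gd pos J g) :
    sk J' (pos J' g) = sk J (pos J g) := by
  induction J', hJ using Nat.le_induction with
  | base => rfl
  | succ k hk ih =>
    obtain ⟨h1, h2⟩ := hg (k + 1) (Nat.lt_succ_of_le hk)
    rw [← ih, sk, if_neg (by omega), if_neg (by omega), if_neg (by omega), if_pos h2, h.cmp]

lemma Odo.ty_eq (h : Odo μ R pos) {J : ℕ} {g : G} (hg : gd pos J g) :
    ty pos g = sk J (pos J g) := by
  classical
  have hex : ∃ J, gd pos J g := ⟨J, hg⟩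
  unfold ty
  rw [dif_pos hex]
  exact (h.sk_eq (Nat.find_min' hex hg) (Nat.find_spec hex)).symm

lemma Odo.measurableSet_gd (h : Odo μ R pos) (J : ℕ) : MeasurableSet {g | gd pos J g} := by
  have e : {g | gd pos J g} =
      ⋂ j, pos j ⁻¹' {s | J < j → m j < s ∧ s < T j - m j} := by
    ext g
    simp [gd]
  rw [e]
  exact MeasurableSet.iInter fun j => h.mp j MeasurableSpace.measurableSet_top

lemma Odo.measurableSet_ty (h : Odo μ R pos) (a : Ty) : MeasurableSet {g | ty pos g = a} := by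
  have e : {g | ty pos g = a} = (⋃ J, {g | gd pos J g} ∩ pos J ⁻¹' {s | sk J s = a}) ∪
      ((⋃ J, {g | gd pos J g})ᶜ ∩ {_g | none = a}) := by
    ext g
    by_cases hex : ∃ J, gd pos J g
    · obtain ⟨J, hJ⟩ := hex
      constructor
      · intro hg
        refine Or.inl (mem_iUnion.2 ⟨J, hJ, ?_⟩)
        show sk J (pos J g) = a
        rw [← h.ty_eq hJ]
        exact hg
      · rintro (hg | hg)
        · obtain ⟨J', h1, h2⟩ := mem_iUnion.1 hg
          show ty pos g = a
          rw [h.ty_eq h1]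
          exact h2
        · exact absurd (mem_iUnion.2 ⟨J, hJ⟩) hg.1
    · have e0 : ty pos g = none := by
        unfold ty
        rw [dif_neg hex]
      constructor
      · intro hg
        refine Or.inr ⟨fun hh => ?_, ?_⟩
        · obtain ⟨J, hJ⟩ := mem_iUnion.1 hh
          exact hex ⟨J, hJ⟩
        · show none = a
          rw [← e0]
          exact hg
      · rintro (hg | hg)
        · obtain ⟨J', h1, _⟩ := mem_iUnion.1 hg
          exact absurd ⟨J', h1⟩ hex
        · show ty pos g = a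
          rw [e0]
          exact hg.2
  rw [e]
  refine MeasurableSet.union (MeasurableSet.iUnion fun J => (h.measurableSet_gd J).inter
    (h.mp J MeasurableSpace.measurableSet_top)) ?_
  exact (MeasurableSet.iUnion fun J => h.measurableSet_gd J).compl.inter (MeasurableSet.const _)

lemma block_range {D M N q : ℕ} (hD : 0 < D) (hM : D ∣ M) (hN : D ∣ N) (h1 : M < q)
    (h2 : q < N - M) : M ≤ q - q % D ∧ q - q % D + D ≤ N - M := by
  obtain ⟨a, rfl⟩ := hM
  obtain ⟨b, rfl⟩ := hN
  have e : q - q % D = D * (q / D) := by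
    have := Nat.div_add_mod q D
    omega
  rw [e, ← Nat.mul_sub] at *
  constructor
  · refine Nat.mul_le_mul_left _ ((Nat.le_div_iff_mul_le hD).2 ?_)
    rw [mul_comm]
    exact h1.le
  · have : q / D < b - a := (Nat.div_lt_iff_lt_mul hD).2 (by rw [mul_comm]; exact h2)
    calc D * (q / D) + D = D * (q / D + 1) := by ring
      _ ≤ D * (b - a) := Nat.mul_le_mul_left _ this

lemma Odo.pos_block (h : Odo μ R pos) {J : ℕ} {g : G} (hg : gd pos J g) {s : ℕ} (hs : s ≤ T J)
    {j : ℕ} (hj : J < j) : ∃ k : ℕ, pos j (zp R (-(pos J g : ℤ) + s) g) = T J * k + s ∧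
      m j ≤ T J * k ∧ T J * k + T J ≤ T j - m j := by
  obtain ⟨h1, h2⟩ := hg j hj
  have hb := block_range (T_pos J) (T_dvd_m' hj) (T_dvd_T hj.le) h1 h2
  have hm := h.pos_mod hj.le g
  have hd := Nat.div_add_mod (pos j g) (T J)
  have hp := m_pos j
  rw [hm] at hb hd
  refine ⟨pos j g / T J, ?_, by omega, by omega⟩
  have e := h.pos_zp j (-(pos J g : ℤ) + s) g
  have e1 : (pos j g : ℤ) + (-(pos J g : ℤ) + s) = ((T J * (pos j g / T J) + s : ℕ) : ℤ) := by
    omega
  rw [e1, Int.emod_eq_of_lt (by positivity) (by exact_mod_cast (by omega))] at e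
  exact_mod_cast e

lemma sk_ne_none {J r : ℕ} (h1 : m (J + 1) ≤ r) (h2 : r ≤ T (J + 1) - m (J + 1))
    (h3 : T J ∣ r) : sk (J + 1) r ≠ none := by
  have hp := m_pos (J + 1)
  rw [sk, if_neg (by omega), if_neg (by omega)]
  split_ifs with a b c
  · simp
  · rw [Nat.mod_eq_zero_of_dvd h3, sk_zero]
    simp
  · simp
  · omega

lemma Odo.block_end (h : Odo μ R pos) {J : ℕ} {g : G} (hg : gd pos J g) {s : ℕ} (hs : s ≤ T J)
    (hd : T J ∣ s) : ty pos (zp R (-(pos J g : ℤ) + s) g) ≠ none := by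
  obtain ⟨k, e, h1, h2⟩ := h.pos_block hg hs (Nat.lt_succ_self J)
  have hp := m_pos (J + 1)
  have hgd : gd pos (J + 1) (zp R (-(pos J g : ℤ) + s) g) := by
    intro j hj
    obtain ⟨k', e', h1', h2'⟩ := h.pos_block hg hs (show J < j by omega)
    have hm := h.pos_mod hj.le (zp R (-(pos J g : ℤ) + s) g)
    have hne : ∀ M, T (J + 1) ∣ M → pos j (zp R (-(pos J g : ℤ) + s) g) ≠ M := by
      intro M hM hM'
      rw [hM', Nat.mod_eq_zero_of_dvd hM, e] at hm
      simp only [Nat.succ_eq_add_one] at h1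
      omega
    have n1 := hne _ (T_dvd_m' hj)
    have n2 := hne _ (Nat.dvd_sub (T_dvd_T hj.le) (T_dvd_m' hj))
    omega
  rw [h.ty_eq hgd, e]
  simp only [Nat.succ_eq_add_one] at h1 h2
  exact sk_ne_none (by omega) (by omega) (dvd_add (dvd_mul_right _ _) hd)

/-- The block of level `J` around a good point. -/
lemma Odo.block (h : Odo μ R pos) {J : ℕ} {g : G} (hg : gd pos J g) :
    ty pos (zp R (-(pos J g : ℤ)) g) ≠ none ∧ ty pos (zp R (-(pos J g : ℤ) + T J) g) ≠ none ∧
      ∀ s : ℕ, 0 < s → s < T J → ty pos (zp R (-(pos J g : ℤ) + s) g) = sk J s := by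
  refine ⟨?_, h.block_end hg le_rfl dvd_rfl, fun s h0 hs => ?_⟩
  · have := h.block_end hg (Nat.zero_le _) (dvd_zero _)
    simpa using this
  · have hgd : gd pos J (zp R (-(pos J g : ℤ) + s) g) := by
      intro j hj
      obtain ⟨k, e, h1, h2⟩ := h.pos_block hg hs.le hj
      omega
    have e := h.pos_zp J (-(pos J g : ℤ) + s) g
    have e1 : (pos J g : ℤ) + (-(pos J g : ℤ) + s) = s := by ring
    rw [e1, Int.emod_eq_of_lt (by positivity) (by exact_mod_cast hs)] at e
    rw [h.ty_eq hgd, show pos J (zp R (-(pos J g : ℤ) + s) g) = s by exact_mod_cast e]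

lemma Odo.des (h : Odo μ R pos) {J : ℕ} {g : G} (hg : gd pos J g) {c : ℤ → ℕ}
    (hc : ∀ t, c t < 2 ^ bt (ty pos (zp R t g))) :
    Des fun t => code (ty pos (zp R t g)) (c t) := by
  refine ⟨fun t => ty pos (zp R t g), c, fun _ => rfl, fun n => ?_⟩
  have hJ : J < max J n + 1 := Nat.lt_succ_of_le (le_max_left _ _)
  have hn : n < max J n + 1 := Nat.lt_succ_of_le (le_max_right _ _)
  obtain ⟨h1, h2⟩ := hg _ hJ
  have h3 := lt_m (max J n + 1)
  obtain ⟨b1, b2, b3⟩ := h.block (gd_mono hJ.le hg)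
  refine ⟨max J n + 1, -(pos (max J n + 1) g : ℤ), by omega, by omega, b1, b2, fun s h0 hs => ?_⟩
  refine ⟨b3 s h0 hs, ?_⟩
  rw [← b3 s h0 hs]
  exact hc _

end OdoTPart

section OdoMPart

/-! Measures in the odometer. -/


open MeasureTheory Set Filter Topology

variable {G : Type*} [MeasurableSpace G] {μ : Measure G} [IsProbabilityMeasure μ] {R : G ≃ G}
  {pos : ℕ → G → ℕ}

omit [IsProbabilityMeasure μ] in
lemma odom_meas (h : Odo μ R pos) (j r : ℕ) : MeasurableSet {g | pos j g = r} :=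
  h.mp j (measurableSet_singleton r)

omit [IsProbabilityMeasure μ] in
lemma odom_step (h : Odo μ R pos) {j r : ℕ} (hr : r + 1 < T j) :
    μ.real {g | pos j g = r + 1} = μ.real {g | pos j g = r} := by
  have h1 : R ⁻¹' {g | pos j g = r + 1} = {g | pos j g = r} := by
    ext g
    simp only [mem_preimage, mem_setOf_eq, h.succ]
    have h2 := h.lt j g
    constructor
    · intro h3
      rcases Nat.lt_or_ge (pos j g + 1) (T j) with h4 | h4
      · rw [Nat.mod_eq_of_lt h4] at h3; omega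
      · have h5 : pos j g + 1 = T j := by omega
        rw [h5, Nat.mod_self] at h3; omega
    · intro h3
      rw [h3, Nat.mod_eq_of_lt hr]
  unfold Measure.real
  rw [← h1, h.erg.toMeasurePreserving.measure_preimage (odom_meas h j _).nullMeasurableSet]

lemma Odo.real_pos (h : Odo μ R pos) {j r : ℕ} (hr : r < T j) :
    μ.real {g | pos j g = r} = 1 / T j := by
  have h1 : ∀ r, r < T j → μ.real {g | pos j g = r} = μ.real {g | pos j g = 0} := by
    intro r
    induction r with
    | zero => intro _; rfl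
    | succ r ih => intro hr; rw [odom_step h hr, ih (by omega)]
  have h2 : (⋃ r ∈ Finset.range (T j), {g | pos j g = r}) = univ := by
    refine eq_univ_of_forall (fun g => ?_)
    simp only [mem_iUnion, Finset.mem_range, mem_setOf_eq]
    exact ⟨pos j g, h.lt j g, rfl⟩
  have h3 : μ.real (⋃ r ∈ Finset.range (T j), {g | pos j g = r})
      = ∑ r ∈ Finset.range (T j), μ.real {g | pos j g = r} := by
    refine measureReal_biUnion_finset ?_ (fun r _ => odom_meas h j r)
    intro a _ b _ hab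
    refine Set.disjoint_left.2 (fun g ha hb => hab ?_)
    exact ha.symm.trans hb
  rw [h2, probReal_univ, Finset.sum_congr rfl (fun r hr => h1 r (Finset.mem_range.1 hr)),
    Finset.sum_const, Finset.card_range, nsmul_eq_mul] at h3
  have hT : (0 : ℝ) < T j := by exact_mod_cast T_pos j
  rw [h1 r hr, eq_div_iff hT.ne', mul_comm]
  exact h3.symm

lemma odom_card (h : Odo μ R pos) (j : ℕ) (S : Finset ℕ) {A : Set G}
    (hA : ∀ g ∈ A, pos j g ∈ S) : μ.real A ≤ S.card / T j := by
  have hT : (0 : ℝ) < T j := by exact_mod_cast T_pos j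
  have h1 : A ⊆ ⋃ r ∈ S, {g | pos j g = r} := by
    intro g hg
    simp only [mem_iUnion, mem_setOf_eq]
    exact ⟨pos j g, hA g hg, rfl⟩
  refine (measureReal_mono h1 (measure_ne_top _ _)).trans ((measureReal_biUnion_finset_le _ _).trans ?_)
  have h2 : ∀ r ∈ S, μ.real {g | pos j g = r} ≤ 1 / T j := by
    intro r _
    rcases Nat.lt_or_ge r (T j) with h3 | h3
    · exact (h.real_pos h3).le
    · have : {g | pos j g = r} = ∅ := by
        refine eq_empty_of_forall_notMem (fun g hg => ?_)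
        have := h.lt j g
        simp only [mem_setOf_eq] at hg
        omega
      rw [this, measureReal_empty]; positivity
  refine (Finset.sum_le_sum h2).trans (le_of_eq ?_)
  rw [Finset.sum_const, nsmul_eq_mul]; ring

lemma odom_iUnion {B : ℕ → Set G} {c : ℕ → ℝ} {s : ℝ} (hc : HasSum c s)
    (hB : ∀ i, μ.real (B i) ≤ c i) : ∑' i, μ (B i) ≤ ENNReal.ofReal s := by
  have h0 : ∀ i, 0 ≤ c i := fun i => measureReal_nonneg.trans (hB i)
  rw [← hc.tsum_eq, ENNReal.ofReal_tsum_of_nonneg h0 hc.summable]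
  refine ENNReal.tsum_le_tsum (fun i => ?_)
  rw [← ofReal_measureReal]
  exact ENNReal.ofReal_le_ofReal (hB i)

lemma odom_bad (h : Odo μ R pos) (i : ℕ) :
    μ.real {g | ¬ (m (i + 1) < pos (i + 1) g ∧ pos (i + 1) g < T (i + 1) - m (i + 1))}
      ≤ (1 / 2) ^ i := by
  have h1 := odom_card h (i + 1)
    (Finset.range (m (i + 1) + 1) ∪ Finset.Ico (T (i + 1) - m (i + 1)) (T (i + 1)))
    (A := {g | ¬ (m (i + 1) < pos (i + 1) g ∧ pos (i + 1) g < T (i + 1) - m (i + 1))})
    (fun g hg => by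
      have := h.lt (i + 1) g
      simp only [mem_setOf_eq] at hg
      simp only [Finset.mem_union, Finset.mem_range, Finset.mem_Ico]
      omega)
  refine h1.trans ?_
  have h2 : (Finset.range (m (i + 1) + 1)
      ∪ Finset.Ico (T (i + 1) - m (i + 1)) (T (i + 1))).card ≤ 8 * m (i + 1) := by
    refine (Finset.card_union_le _ _).trans ?_
    rw [Finset.card_range, Nat.card_Ico]
    have := m_pos (i + 1)
    omega
  have hT : (0 : ℝ) < T (i + 1) := by exact_mod_cast T_pos _
  rw [div_le_iff₀ hT]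
  refine (Nat.cast_le.2 h2).trans (le_of_eq ?_)
  rw [T_succ i]
  generalize m (i + 1) = a
  push_cast
  rw [one_div, inv_pow, pow_add]
  field_simp
  ring

lemma Odo.ae_gd (h : Odo μ R pos) : ∀ᵐ g ∂μ, ∃ J, gd pos J g := by
  have h1 := odom_iUnion (μ := μ) hasSum_geometric_two (odom_bad h)
  have h2 := ae_eventually_notMem (μ := μ) (ne_top_of_le_ne_top ENNReal.ofReal_ne_top h1)
  filter_upwards [h2] with g hg
  obtain ⟨J, hJ⟩ := eventually_atTop.1 hg
  refine ⟨J, fun j hj => ?_⟩
  obtain ⟨i, rfl⟩ : ∃ i, j = i + 1 := ⟨j - 1, by omega⟩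
  exact not_not.1 (hJ i (by omega))

lemma odom_bad' (h : Odo μ R pos) {J r i : ℕ} (h0 : 0 < r) (hi : J ≤ i) :
    μ.real {g | pos J g = r ∧
      ¬ (m (i + 1) < pos (i + 1) g ∧ pos (i + 1) g < T (i + 1) - m (i + 1))}
      ≤ (1 / 2) ^ (i + 2) / T J := by
  obtain ⟨a, ha⟩ := T_dvd_m' (show J < i + 1 by omega)
  have hT := T_succ i
  have hTJ := T_pos J
  have hm := m_pos (i + 1)
  have ha0 : 0 < a := by
    rcases Nat.eq_zero_or_pos a with h1 | h1
    · rw [h1, mul_zero] at ha; omega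
    · exact h1
  have hb : T (i + 1) = T J * (2 ^ (i + 3) * a) := by rw [hT, ha]; ring
  have h1 := odom_card h (i + 1)
    ((Finset.range a ∪ Finset.Ico (2 ^ (i + 3) * a - a) (2 ^ (i + 3) * a)).image
      (fun k => T J * k + r))
    (A := {g | pos J g = r ∧
      ¬ (m (i + 1) < pos (i + 1) g ∧ pos (i + 1) g < T (i + 1) - m (i + 1))})
    (fun g hg => by
      obtain ⟨h2, h3⟩ := hg
      have h4 := h.pos_mod (show J ≤ i + 1 by omega) g
      have h5 := h.lt (i + 1) g
      have h6 := Nat.div_add_mod (pos (i + 1) g) (T J)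
      rw [h4, h2] at h6
      refine Finset.mem_image.2 ⟨pos (i + 1) g / T J, ?_, h6⟩
      simp only [Finset.mem_union, Finset.mem_range, Finset.mem_Ico]
      by_cases h7 : m (i + 1) < pos (i + 1) g
      · right
        have h8 : T (i + 1) - m (i + 1) ≤ pos (i + 1) g := by
          by_contra h9
          exact h3 ⟨h7, by omega⟩
        constructor
        · rw [Nat.le_div_iff_mul_le hTJ, mul_comm, Nat.mul_sub, ← hb, ← ha]
          exact h8
        · rw [Nat.div_lt_iff_lt_mul hTJ, mul_comm, ← hb]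
          exact h5
      · left
        refine Nat.lt_of_mul_lt_mul_left (a := T J) ?_
        rw [← ha]
        omega)
  refine h1.trans ?_
  have h2 : ((Finset.range a ∪ Finset.Ico (2 ^ (i + 3) * a - a) (2 ^ (i + 3) * a)).image
      (fun k => T J * k + r)).card ≤ 2 * a := by
    refine Finset.card_image_le.trans ((Finset.card_union_le _ _).trans ?_)
    rw [Finset.card_range, Nat.card_Ico]
    omega
  have hT1 : (0 : ℝ) < T (i + 1) := by exact_mod_cast T_pos _
  rw [div_le_iff₀ hT1]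
  refine (Nat.cast_le.2 h2).trans (le_of_eq ?_)
  have hTJ' : (0 : ℝ) < T J := by exact_mod_cast hTJ
  rw [hb]
  generalize T J = b at hTJ'
  push_cast
  rw [one_div, inv_pow, show i + 3 = (i + 2) + 1 from rfl, pow_succ (2 : ℝ) (i + 2)]
  field_simp

lemma Odo.real_gd (h : Odo μ R pos) {J r : ℕ} (h0 : 0 < r) (hr : r < T J) :
    (1 - (1 / 2) ^ (J + 1)) / T J ≤ μ.real {g | gd pos J g ∧ pos J g = r} := by
  have hs : HasSum (fun i : ℕ => (1 / 2 : ℝ) ^ (J + i + 2) / T J) ((1 / 2) ^ (J + 1) / T J) := by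
    have := (hasSum_geometric_two.mul_left ((1 / 2 : ℝ) ^ (J + 2))).div_const (T J : ℝ)
    have e1 : (fun i : ℕ => (1 / 2 : ℝ) ^ (J + i + 2) / T J)
        = fun i : ℕ => (1 / 2 : ℝ) ^ (J + 2) * (1 / 2) ^ i / T J := by funext i; ring
    have e2 : (1 / 2 : ℝ) ^ (J + 1) / T J = (1 / 2 : ℝ) ^ (J + 2) * 2 / T J := by ring
    rw [e1, e2]
    exact this
  have h1 := odom_iUnion (μ := μ) hs (fun i => odom_bad' h h0 (Nat.le_add_right J i))
  have h2 := ENNReal.toReal_le_of_le_ofReal (by positivity) ((measure_iUnion_le _).trans h1)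
  have h3 : {g | pos J g = r} ⊆ {g | gd pos J g ∧ pos J g = r} ∪ ⋃ i : ℕ, {g | pos J g = r ∧
      ¬ (m (J + i + 1) < pos (J + i + 1) g
        ∧ pos (J + i + 1) g < T (J + i + 1) - m (J + i + 1))} := by
    intro g hg
    by_cases h4 : gd pos J g
    · exact Or.inl ⟨h4, hg⟩
    · right
      unfold gd at h4
      obtain ⟨j, h5⟩ := not_forall.1 h4
      obtain ⟨h6, h7⟩ := Classical.not_imp.1 h5
      obtain ⟨i, rfl⟩ : ∃ i, j = J + i + 1 := ⟨j - J - 1, by omega⟩
      exact mem_iUnion.2 ⟨i, hg, h7⟩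
  have h4 := (measureReal_mono (μ := μ) h3 (measure_ne_top _ _)).trans (measureReal_union_le _ _)
  rw [h.real_pos hr] at h4
  rw [sub_div]
  have h5 : μ.real (⋃ i : ℕ, {g | pos J g = r ∧
      ¬ (m (J + i + 1) < pos (J + i + 1) g
        ∧ pos (J + i + 1) g < T (J + i + 1) - m (J + i + 1))}) ≤ (1 / 2) ^ (J + 1) / T J := h2
  linarith

end OdoMPart

end Pool.Agent.P.MP_1672e2_an.Cx
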