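import Pool.Agent.P.MP_1672e2_an.Cx.Tor
import Pool.Agent.P.MP_1672e2_an.Cx.Obs
import Pool.Agent.P.MP_1672e2_an.Cx.Odo

set_option autoImplicit false

namespace Pool.Agent.P.MP_1672e2_an.Cx

section UpKPart

/-! Upper bound for the entropy. -/


open MeasureTheory Set Filter Topology

lemma upk_iter (i : ℕ) (y : Om) (t : ℤ) : (sh^[i] y) t = y (t + i) := by
  induction i generalizing t with
  | zero => simp
  | succ i ih =>
    rw [Function.iterate_succ_apply', sh_apply, ih]
    congr 1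
    push_cast
    ring

lemma upk_meas (J : ℕ) (t : ℤ) : MeasurableSet {y : Om | J + 1 < (y t).1} :=
  measurableSet_lt measurable_const (measurable_fst.comp (measurable_pi_apply t))

lemma upk_eq {ν : Measure Om} (hν : MeasurePreserving sh ν ν) (J i : ℕ) :
    ν.real {y : Om | J + 1 < (y (i : ℤ)).1} = ν.real {y : Om | J + 1 < (y 0).1} := by
  have h1 : {y : Om | J + 1 < (y (i : ℤ)).1} = sh^[i] ⁻¹' {y : Om | J + 1 < (y 0).1} := by
    ext y
    simp only [mem_ofPred_eq, mem_preimage, upk_iter, zero_add]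
  rw [h1, Measure.real, Measure.real,
    (hν.iterate i).measure_preimage (upk_meas J 0).nullMeasurableSet]

lemma upk_gap {y : Om} (hy : Lang y) {J i k : ℕ} (hik : i < k) (hk : k < m (J + 1))
    (h1 : J + 1 < (y (i : ℤ)).1) : ¬ J + 1 < (y (k : ℤ)).1 := by
  rcases hy i with h | h | ⟨j, n, c, -, -, h, -, h'⟩
  · rw [h] at h1; simp at h1
  · rw [h] at h1; simp at h1
  · rw [h] at h1
    have hj : J + 1 ≤ j := by simp only at h1; omega
    have hm : m (J + 1) ≤ m j := m_strictMono.monotone hj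
    have hT := m_le_T j
    have h2 := (sk_right (T_pos j) (sk_zero j)).2.1 (k - i) (by omega) (by omega)
    have h3 := h' (k - i) (by omega) (by omega)
    rw [zero_add] at h2
    have h4 : (i : ℤ) + ((k - i : ℕ) : ℤ) = k := by omega
    rw [h2, h4] at h3
    rw [h3]
    simp [code]

lemma rare {ν : Measure Om} [IsProbabilityMeasure ν] (hν : MeasurePreserving sh ν ν)
    (hL : ∀ᵐ y ∂ν, Lang y) (J : ℕ) : ν.real {y | J + 1 < (y 0).1} ≤ 1 / m (J + 1) := by
  have hM : (0 : ℝ) < m (J + 1) := by exact_mod_cast m_pos (J + 1)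
  have hd : Set.Pairwise (↑(Finset.range (m (J + 1))) : Set ℕ)
      (Function.onFun (AEDisjoint ν) fun i : ℕ => {y : Om | J + 1 < (y (i : ℤ)).1}) := by
    intro i hi k hk hik
    have hi' : i < m (J + 1) := by simpa using hi
    have hk' : k < m (J + 1) := by simpa using hk
    refine measure_mono_null (t := {y | ¬ Lang y}) ?_ (ae_iff.1 hL)
    rintro y ⟨h1, h2⟩ hy
    rcases lt_or_gt_of_ne hik with h | h
    · exact upk_gap hy h hk' h1 h2
    · exact upk_gap hy h hi' h2 h1
  have h1 := measureReal_biUnion_finset₀ hd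
    (fun i _ => (upk_meas J (i : ℤ)).nullMeasurableSet) (fun _ _ => measure_ne_top _ _)
  simp only [upk_eq hν, Finset.sum_const, Finset.card_range, nsmul_eq_mul] at h1
  have h2 : ν.real (⋃ i ∈ Finset.range (m (J + 1)), {y : Om | J + 1 < (y (i : ℤ)).1}) ≤ 1 :=
    measureReal_le_one
  rw [le_div_iff₀ hM]
  linarith

theorem ent_le_hh {ν : Measure Om} [IsProbabilityMeasure ν] (hν : MeasurePreserving sh ν ν)
    (hL : ∀ᵐ y ∂ν, Lang y) {c : ℝ} (hc : Ent sh ν c) : c ≤ hh := by
  refine ent_le_of_words hν hh_pos.le (fun ε hε n₀ => ?_) hc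
  obtain ⟨J₀, hJ₀⟩ := exists_pow_lt_of_lt_one hε (by norm_num : (1 / 2 : ℝ) < 1)
  obtain ⟨J, hJ1, hJn, hJ⟩ : ∃ J : ℕ, 1 ≤ J ∧ n₀ ≤ J ∧ (1 / 2 : ℝ) ^ J ≤ ε :=
    ⟨J₀ + n₀ + 1, by omega, by omega,
      (pow_le_pow_of_le_one (by norm_num) (by norm_num) (by omega)).trans hJ₀.le⟩
  have hT := T_pos J
  have hT' : (0 : ℝ) < T J := by exact_mod_cast hT
  obtain ⟨S, hS, hS'⟩ := count J (2 ^ (J + 3) * T J)
  refine ⟨2 ^ (J + 3) * T J, ?_, S, hS.trans ?_, ?_⟩
  · have h1 : J + 3 < 2 ^ (J + 3) := Nat.lt_two_pow_self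
    have h2 : 2 ^ (J + 3) ≤ 2 ^ (J + 3) * T J := Nat.le_mul_of_pos_right _ hT
    omega
  · have hl0 : 0 < Real.log 2 := Real.log_pos (by norm_num)
    have hl1 : Real.log 2 ≤ 1 := by
      have := Real.log_le_sub_one_of_pos (by norm_num : (0 : ℝ) < 2)
      linarith
    rw [← Real.rpow_natCast, ← Real.rpow_add (by norm_num), Real.rpow_def_of_pos (by norm_num)]
    refine Real.exp_le_exp.2 ?_
    have hp : pJ J = (FF J : ℝ) / T J + (1 / 2) ^ (J + 2) := by
      rw [pJ, if_neg (by omega)]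
    have h1 := le_hh J
    set N : ℝ := ((2 ^ (J + 3) * T J : ℕ) : ℝ) with hN
    have hN0 : 0 ≤ N := Nat.cast_nonneg _
    have h2 : ((4 * T J : ℕ) : ℝ) = (1 / 2) ^ (J + 1) * N := by
      rw [hN]
      push_cast
      rw [one_div, inv_pow]
      field_simp
      ring
    have h3 : (1 / 2 : ℝ) ^ (J + 1) + (1 / 2) ^ (J + 2) ≤ ε := by
      have h4 : (0 : ℝ) ≤ (1 / 2) ^ J := by positivity
      rw [pow_succ, pow_succ, pow_succ]
      linarith
    have h5 : Real.log 2 * ((1 / 2 : ℝ) ^ (J + 1) + (1 / 2) ^ (J + 2)) ≤ ε := by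
      have h6 : (0 : ℝ) ≤ (1 / 2 : ℝ) ^ (J + 1) + (1 / 2) ^ (J + 2) := by positivity
      nlinarith
    rw [h2, hp]
    have h7 := mul_le_mul_of_nonneg_right (add_le_add h1 h5) hN0
    refine le_trans (le_of_eq ?_) h7
    ring
  · have hsub : {y : Om | win 0 (2 ^ (J + 3) * T J) y ∉ S} ≤ᵐ[ν]
        (⋃ i ∈ Finset.range (2 ^ (J + 3) * T J), {y : Om | J + 1 < (y (i : ℤ)).1} : Set Om) := by
      filter_upwards [hL] with y hy h
      by_contra hc'
      refine h (hS' y 0 hy fun i => ?_)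
      by_contra hi
      refine hc' (mem_iUnion₂.2 ⟨i, Finset.mem_range.2 i.2, ?_⟩)
      rw [zero_add] at hi
      exact not_le.1 hi
    have h1 : ν.real {y : Om | win 0 (2 ^ (J + 3) * T J) y ∉ S} ≤
        ν.real (⋃ i ∈ Finset.range (2 ^ (J + 3) * T J), {y : Om | J + 1 < (y (i : ℤ)).1}) :=
      ENNReal.toReal_mono (measure_ne_top _ _) (measure_mono_ae hsub)
    have h2 := measureReal_biUnion_finset_le (μ := ν) (Finset.range (2 ^ (J + 3) * T J))
      (fun i : ℕ => {y : Om | J + 1 < (y (i : ℤ)).1})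
    simp only [upk_eq hν, Finset.sum_const, Finset.card_range, nsmul_eq_mul] at h2
    have h3 := mul_le_mul_of_nonneg_left (rare hν hL J)
      (Nat.cast_nonneg (α := ℝ) (2 ^ (J + 3) * T J))
    have h4 : ((2 ^ (J + 3) * T J : ℕ) : ℝ) * (1 / m (J + 1)) = (1 / 2) ^ (J + 3) := by
      have h5 : m (J + 1) = 2 ^ (2 * J + 6) * T J := by rw [m]
      rw [h5]
      push_cast
      rw [one_div (2 : ℝ), inv_pow]
      field_simp
      ring
    have h6 : (1 / 2 : ℝ) ^ (J + 3) ≤ (1 / 2) ^ J :=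
      pow_le_pow_of_le_one (by norm_num) (by norm_num) (by omega)
    linarith

end UpKPart

section SkelPart

/-! The measure on designated names. -/


open MeasureTheory Set Filter Topology

lemma skel_meas {X Y A : Type*} [MeasurableSpace X] [MeasurableSpace Y] [Countable A]
    {a : X → A} (ha : ∀ b, MeasurableSet {x | a x = b}) {F : A → X → Y}
    (hF : ∀ b, Measurable (F b)) : Measurable fun x => F (a x) x := by
  intro s hs
  have : (fun x => F (a x) x) ⁻¹' s = ⋃ b, {x | a x = b} ∩ F b ⁻¹' s := by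
    ext x
    simp
  rw [this]
  exact MeasurableSet.iUnion fun b => (ha b).inter (hF b hs)

lemma skel_code_snd (a : Ty) (n : ℕ) : (code a n).2 = if a = none then 0 else 2 * n := by
  cases a with
  | none => simp [code]
  | some p =>
    simp only [code]
    split_ifs with h h' h'
    · rfl
    · simp [h]
    · exact absurd h' (by simp)
    · rfl

lemma skel_bt_le {J r : ℕ} (hr : r < T J) : bt (sk J r) ≤ FF J :=
  Finset.single_le_sum (f := fun s => bt (sk J s)) (fun _ _ => Nat.zero_le _)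
    (Finset.mem_range.2 hr)

section

variable {G : Type*} [MeasurableSpace G] {μ : Measure G} {R : G ≃ G} {pos : ℕ → G → ℕ}

/-- The name attached to a point of the odometer and a sequence of choices. -/
noncomputable def skelPi (R : G ≃ G) (pos : ℕ → G → ℕ) (p : G × (ℤ → ℝ)) : Om :=
  fun t => code (ty pos (zp R t p.1)) (ix (2 ^ bt (ty pos (zp R t p.1))) (p.2 t))

open Classical in
/-- The number of choices seen at a given level. -/
noncomputable def skelB (pos : ℕ → G → ℕ) (J : ℕ) (g : G) : ℕ :=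
  if gd pos J g ∧ 0 < pos J g then 2 ^ bt (sk J (pos J g)) else 1

lemma skel_measurable_ix (b : ℕ) : Measurable (ix b) := by
  have h : Measurable fun a : ℝ => (b, a) := measurable_const.prodMk measurable_id
  have h2 := measurable_ix.comp h
  exact h2

lemma skel_measurable_pi (h : Odo μ R pos) : Measurable (skelPi R pos) := by
  refine measurable_pi_lambda _ fun t => ?_
  have h1 : Measurable fun p : G × (ℤ → ℝ) => zp R t p.1 :=
    (measurable_zp h.erg.toMeasurePreserving.measurable h.ms t).comp measurable_fst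
  have h3 : ∀ b : Ty, Measurable fun p : G × (ℤ → ℝ) => code b (ix (2 ^ bt b) (p.2 t)) := by
    intro b
    have h0 : Measurable fun p : G × (ℤ → ℝ) => p.2 t :=
      (measurable_pi_apply t).comp measurable_snd
    have h2 : Measurable fun p : G × (ℤ → ℝ) => ix (2 ^ bt b) (p.2 t) :=
      (skel_measurable_ix _).comp h0
    exact (measurable_of_countable (code b)).comp h2
  have h4 : ∀ b : Ty, MeasurableSet {p : G × (ℤ → ℝ) | ty pos (zp R t p.1) = b} :=
    fun b => h1 (h.measurableSet_ty b)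
  exact skel_meas (a := fun p : G × (ℤ → ℝ) => ty pos (zp R t p.1))
    (F := fun b p => code b (ix (2 ^ bt b) (p.2 t))) h4 h3

omit [MeasurableSpace G] in
lemma skel_pi_sh (g : G) (ω : ℤ → ℝ) :
    skelPi R pos (R g, sh ω) = sh (skelPi R pos (g, ω)) := by
  funext t
  simp only [skelPi, sh_apply, zp_succ]

lemma skel_measurable_b (h : Odo μ R pos) (J : ℕ) : Measurable (skelB pos J) := by
  classical
  unfold skelB
  refine Measurable.ite ?_ ?_ measurable_const
  · exact (h.measurableSet_gd J).inter (measurableSet_lt measurable_const (h.mp J))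
  · exact (measurable_of_countable fun r => 2 ^ bt (sk J r)).comp (h.mp J)

omit [MeasurableSpace G] in
lemma skel_b_pos (J : ℕ) (g : G) : 0 < skelB pos J g := by
  unfold skelB
  split_ifs
  · positivity
  · exact one_pos

lemma skel_b_le (h : Odo μ R pos) (J : ℕ) (g : G) : skelB pos J g ≤ 2 ^ FF J := by
  unfold skelB
  split_ifs
  · exact Nat.pow_le_pow_right (by norm_num) (skel_bt_le (h.lt J g))
  · exact Nat.one_le_two_pow

/-- The choice read at time zero, truncated. -/
def skelQ (K : ℕ) (y : Om) : Fin (2 * K + 1) := ⟨min (y 0).2 (2 * K), by omega⟩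

lemma skel_measurable_Q (K : ℕ) (i : Fin (2 * K + 1)) : MeasurableSet (skelQ K ⁻¹' {i}) := by
  have h1 : Measurable fun y : Om => (y 0).2 := measurable_snd.comp (measurable_pi_apply 0)
  have : skelQ K ⁻¹' {i} = (fun y : Om => (y 0).2) ⁻¹' {n | min n (2 * K) = i.1} := by
    ext y
    simp [skelQ, Fin.ext_iff]
  rw [this]
  exact h1 (MeasurableSet.of_discrete)

lemma skel_hv (h : Odo μ R pos) (J : ℕ) (g : G) (ω ω' : ℤ → ℝ)
    (e : skelQ (2 ^ FF J) (skelPi R pos (g, ω)) = skelQ (2 ^ FF J) (skelPi R pos (g, ω'))) :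
    ix (skelB pos J g) (ω 0) = ix (skelB pos J g) (ω' 0) := by
  unfold skelB
  split_ifs with hg
  · have hty := h.ty_eq hg.1
    have hK : 2 ^ bt (sk J (pos J g)) ≤ 2 ^ FF J :=
      Nat.pow_le_pow_right (by norm_num) (skel_bt_le (h.lt J g))
    have e' := congrArg Fin.val e
    simp only [skelQ, skelPi, zp_zero, hty, skel_code_snd] at e'
    have h1 := ix_lt (b := 2 ^ bt (sk J (pos J g))) (by positivity) (ω 0)
    have h2 := ix_lt (b := 2 ^ bt (sk J (pos J g))) (by positivity) (ω' 0)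
    by_cases ha : sk J (pos J g) = none
    · rw [ha] at h1 h2 ⊢
      simp only [bt, pow_zero] at h1 h2 ⊢
      omega
    · rw [if_neg ha, if_neg ha] at e'
      omega
  · simp only [ix, Nat.mod_one]

lemma skel_integral [IsProbabilityMeasure μ] (h : Odo μ R pos) (J : ℕ) :
    Real.log 2 * ((∑ r ∈ Finset.Ico 1 (T J), (bt (sk J r) : ℝ)) *
      ((1 - (1 / 2) ^ (J + 1)) / T J)) ≤ ∫ g, Real.log (skelB pos J g) ∂μ := by
  have hm : ∀ r, MeasurableSet {g | gd pos J g ∧ pos J g = r} := fun r =>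
    (h.measurableSet_gd J).inter (h.mp J (measurableSet_singleton r))
  have e : (fun g => Real.log (skelB pos J g)) = fun g => ∑ r ∈ Finset.Ico 1 (T J),
      {g | gd pos J g ∧ pos J g = r}.indicator (fun _ => Real.log 2 * (bt (sk J r) : ℝ)) g := by
    funext g
    unfold skelB
    split_ifs with hg
    · rw [Finset.sum_eq_single (pos J g)]
      · rw [indicator_of_mem (by exact ⟨hg.1, rfl⟩)]
        push_cast
        rw [Real.log_pow, mul_comm]
      · intro r _ hr
        exact indicator_of_notMem (fun hh => hr hh.2.symm) _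
      · intro hn
        exact absurd (Finset.mem_Ico.2 ⟨hg.2, h.lt J g⟩) hn
    · rw [Finset.sum_eq_zero]
      · simp
      · intro r hr
        refine indicator_of_notMem (fun hh => hg ⟨hh.1, ?_⟩) _
        have := (Finset.mem_Ico.1 hr).1
        have h2 := hh.2
        omega
  rw [e, integral_finsetSum _ fun r _ => (integrable_const _).indicator (hm r)]
  rw [Finset.sum_mul, Finset.mul_sum]
  refine Finset.sum_le_sum fun r hr => ?_
  rw [integral_indicator_const _ (hm r), smul_eq_mul]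
  have h1 := h.real_gd (J := J) (r := r) (Finset.mem_Ico.1 hr).1 (Finset.mem_Ico.1 hr).2
  have h2 : 0 ≤ Real.log 2 * (bt (sk J r) : ℝ) :=
    mul_nonneg (Real.log_nonneg (by norm_num)) (Nat.cast_nonneg _)
  calc _ = (1 - (1 / 2) ^ (J + 1)) / T J * (Real.log 2 * (bt (sk J r) : ℝ)) := by ring
    _ ≤ _ := mul_le_mul_of_nonneg_right h1 h2

end

theorem exists_measure : ∃ ν : Measure Om, IsProbabilityMeasure ν ∧ Ergodic sh ν ∧
    (∀ c, c < hh → Ent sh ν c) ∧ (∀ J, Cyc sh ν (T J)) ∧
    ∀ A, MeasurableSet A → (∀ y, Des y → y ∈ A) → ν Aᶜ = 0 := by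
  obtain ⟨G, _, μ, R, pos, _, h⟩ := exists_odo
  have hs := fun J => skew h.erg (skel_measurable_pi h) skel_pi_sh (skel_measurable_b h J)
    (skel_b_pos J) (skel_b_le h J) (skelQ (2 ^ FF J)) (skel_measurable_Q _) (skel_hv h J)
  have hA : ∀ A, MeasurableSet A → (∀ y, Des y → y ∈ A) →
      ((μ.prod PB).map (skelPi R pos)) Aᶜ = 0 := by
    intro A hA hD
    rw [Measure.map_apply (skel_measurable_pi h) hA.compl]
    have h1 : ∀ᵐ p ∂(μ.prod PB), ∃ J, gd pos J p.1 :=
      Measure.quasiMeasurePreserving_fst.ae h.ae_gd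
    refine measure_mono_null (fun p hp => ?_) (ae_iff.1 h1)
    rintro ⟨J, hJ⟩
    exact hp (hD _ (h.des hJ fun t => ix_lt (by positivity) _))
  refine ⟨(μ.prod PB).map (skelPi R pos), (hs 0).1, (hs 0).2.1, fun c hc => ?_, fun J => ?_, hA⟩
  · obtain ⟨J, hJ⟩ := exists_level hc
    exact (hs J).2.2.mono (hJ.trans (skel_integral h J))
  · obtain ⟨φ, hφ, h1⟩ := exists_phase J
    have : NeZero (T J) := ⟨(T_pos J).ne'⟩
    refine ⟨φ, hφ, ?_⟩
    refine hA {y | φ (sh y) = φ y + 1} ?_ h1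
    exact measurableSet_eq_fun (hφ.comp measurable_sh)
      ((measurable_of_countable fun z : ZMod (T J) => z + 1).comp hφ)

end SkelPart

section MainPart

/-! The counterexample. -/


open MeasureTheory Set Filter Topology

open scoped Manifold

theorem counterexample : ∃ (_ : ChartedSpace (EuclideanSpace ℝ (Fin 2)) Tor)
    (_ : IsManifold (𝓡 2) 1 Tor) (f : Diffeomorph (𝓡 2) (𝓡 2) Tor Tor 1),
    ¬ MarkovModel f fun _ => True := by
  obtain ⟨i1, i2, f, r, hr, hi, hs, hd⟩ := exists_torus contDiff_HH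
    (fun x y => HH_per_fst y) (fun x y => HH_per_snd x) fun x x' y => HH_slope y
  refine ⟨i1, i2, f, ?_⟩
  have he : Measurable (f.toEquiv : Tor → Tor) := f.continuous.measurable
  have he' : Measurable (f.toEquiv.symm : Tor → Tor) := f.symm.continuous.measurable
  obtain ⟨D, N, hE, hL, hD, hF⟩ := model (e := f.toEquiv) he he' hr hi hs hd
  obtain ⟨ν, hν, e1, e2, e3, e4⟩ := exists_measure
  obtain ⟨μ, hμ, m1, -, -, m2, m3⟩ := pullE hE he e1 (e4 _ (hE.meas_image hE.dom le_rfl) hD)
  refine not_markov (e := f.toEquiv) he hh_pos m1 (fun c hc => m2 c (e2 c hc))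
    (fun n => ⟨T n, ((lt_m n).trans_le (m_le_T n)).le, m3 _ (e3 n)⟩) fun ν' h1 h2 c hc => ?_
  by_cases h0 : 0 < c
  · obtain ⟨μ', k1, k2, k3, k4, -⟩ :=
      pushE hE measurable_sh h2 (hF ν' h1 h2 (PE_iff.2 ⟨c, h0, hc⟩))
    refine ent_le_hh k2.toMeasurePreserving ?_ (k4 c hc)
    have : ∀ᵐ y ∂μ', y ∈ N '' D := k3
    filter_upwards [this] with y hy
    obtain ⟨z, hz, rfl⟩ := hy
    exact hL z hz
  · exact (not_lt.1 h0).trans hh_pos.le

end MainPart

end Pool.Agent.P.MP_1672e2_an.Cx
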